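import Pool.Agent.Lib.MP_a3a416_nt.HK.Defs
import Pool.Agent.Lib.MP_a3a416_nt.HJ.Jets
import Pool.Agent.Lib.MP_a3a416_nt.LJ.Basis

/-!
# HK-Jets
Jets modulo `p`, with an arbitrary error polynomial `ε` (`E + φ_w ≡ ε`) that is killed by the coefficients: for every `l` the combination of the truncated polynomials `X^a ε^[m]`
with the coefficients of `X^l` of the `P_{a,m}` vanishes.  PROOF.  As `HJ.jets_modp`.
-/

namespace MP_a3a416_nt.HK

open Polynomial MP_a3a416_nt.BB MP_a3a416_nt.LJ MP_a3a416_nt.HJ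

theorem jets_modp_k (p : ℕ) [Fact p.Prime] (A S N J T : ℕ) (c : ℕ → ℕ × ℕ × ℕ → ℤ) (w : ℕ → ℤ)
    (ε : (ZMod p)[X]) (hS : 1 ≤ S) (hNp : N < p) (hSp : S + 2 ≤ p) (hTp : T ≤ p)
    (E : (ZMod p)[X]) (hE : E.comp (X + 1) - E = (X + 1) ^ (p - 2))
    (hε : ∀ j, j < T + S - 1 → (E + (phiJ J w).map (Int.castRingHom (ZMod p)) - ε).coeff j = 0)
    (hreg : ∀ a < A, REG S N (c a))
    (hM : ∑ a ∈ Finset.range A, (X - X ^ p) ^ a * ∑ m ∈ Finset.range S,
      (PJ N (c a) m).map (Int.castRingHom (ZMod p)) * hasseDeriv m E = 0)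
    (hkill : ∀ l, ∀ j : Fin T, ∑ a ∈ Finset.range A, ∑ m ∈ Finset.range S,
      ((PJ N (c a) m).map (Int.castRingHom (ZMod p))).coeff l * vecP p T ε a m j = 0)
    {n k : ℕ} (hn : n < N) (hk : k < T) :
    (p : ℤ) ∣ (rH A S N c n - sH A S N J c w n).coeff k := by
  classical
  have hN1 : 1 ≤ N := by omega
  set f := Int.castRingHom (ZMod p) with hf
  suffices hX : (X : (ZMod p)[X]) ^ T ∣ (rH A S N c n - sH A S N J c w n).map f by
    rw [X_pow_dvd_iff] at hX
    have := hX k hk
    rw [coeff_map, hf, eq_intCast, ZMod.intCast_zmod_eq_zero_iff_dvd] at this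
    exact this
  set φ : (ZMod p)[X] := (phiJ J w).map f with hφ
  set M : ℕ → (ZMod p)[X] := fun a => ∑ m ∈ Finset.range S, (PJ N (c a) m).map f * hasseDeriv m E
    with hMdef
  set Q : ℕ → (ZMod p)[X] := fun a => ∑ b ∈ Finset.range n,
    taylor (n : ZMod p) ((QJ S N (c a) b).map f) with hQ
  set R : ℕ → ℕ → (ZMod p)[X] := fun a m => taylor (n : ZMod p) ((PJ N (c a) m).map f) with hR
  -- the whole thing
  have hsum : (rH A S N c n - sH A S N J c w n).map f =
      ∑ a ∈ Finset.range A, X ^ a * taylor (n : ZMod p) (M a) -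
      (∑ a ∈ Finset.range A, X ^ a * ∑ m ∈ Finset.range S, R a m * hasseDeriv m (E + φ)) -
      X ^ p * ∑ a ∈ Finset.range A, X ^ a * Q a := by
    unfold rH sH
    rw [← Finset.sum_sub_distrib, Polynomial.map_sum, Finset.mul_sum, ← Finset.sum_sub_distrib,
      ← Finset.sum_sub_distrib]
    refine Finset.sum_congr rfl fun a ha => ?_
    rw [← mul_sub, Polynomial.map_mul, Polynomial.map_pow, map_X,
      jet_one p S N J (c a) w hNp hSp E hE (hreg a (Finset.mem_range.1 ha)) hn]
    simp only [hMdef, hR, hQ, hφ, hf]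
    ring
  -- first part
  have hshift : taylor (n : ZMod p) (X - X ^ p : (ZMod p)[X]) = X - X ^ p := by
    rw [map_sub, taylor_pow, taylor_X]
    have h5 := lin_pow_p (p := p) (n : ZMod p) 1
    rw [C_1, one_mul, one_mul] at h5
    rw [h5]
    ring
  have h1 : (X : (ZMod p)[X]) ^ p ∣ ∑ a ∈ Finset.range A, X ^ a * taylor (n : ZMod p) (M a) := by
    have h2 : ∑ a ∈ Finset.range A, (X - X ^ p) ^ a * taylor (n : ZMod p) (M a) = 0 := by
      have h3 := congrArg (fun R : (ZMod p)[X] => taylor (n : ZMod p) R) hM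
      simp only [map_sum, taylor_mul, taylor_pow, hshift, map_zero] at h3
      rw [← h3]
      refine Finset.sum_congr rfl fun a _ => ?_
      simp only [hMdef, map_sum, taylor_mul]
    rw [← sub_zero (∑ a ∈ Finset.range A, X ^ a * taylor (n : ZMod p) (M a)), ← h2,
      ← Finset.sum_sub_distrib]
    refine Finset.dvd_sum fun a _ => ?_
    rw [← sub_mul]
    refine Dvd.dvd.mul_right ?_ _
    have h4 := sub_dvd_pow_sub_pow (X : (ZMod p)[X]) (X - X ^ p) a
    rwa [sub_sub_cancel] at h4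
  -- the remainder `E + φ - ε`
  have hhs : ∀ m ∈ Finset.range S, (X : (ZMod p)[X]) ^ T ∣ hasseDeriv m (E + φ - ε) := by
    intro m hm
    rw [Finset.mem_range] at hm
    rw [X_pow_dvd_iff]
    intro d hd
    rw [hasseDeriv_coeff, hε (d + m) (by omega), mul_zero]
  -- the error polynomial is killed
  have hεkill : (X : (ZMod p)[X]) ^ T ∣
      ∑ a ∈ Finset.range A, X ^ a * ∑ m ∈ Finset.range S, R a m * hasseDeriv m ε := by
    have h5 : ∀ a m, R a m = ∑ l ∈ Finset.range (4 * N),
        C (((PJ N (c a) m).map f).coeff l) * (X + C (n : ZMod p)) ^ l := by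
      intro a m
      have h6 : ((PJ N (c a) m).map f).natDegree < 4 * N :=
        lt_of_le_of_lt natDegree_map_le (natDegree_PJ_lt hN1 (c a) m)
      have h7 := congrArg (fun R : (ZMod p)[X] => taylor (n : ZMod p) R)
        (as_sum_range_C_mul_X_pow' _ h6)
      simp only [map_sum, taylor_mul, taylor_C, taylor_X_pow] at h7
      exact h7
    have h6 : ∑ a ∈ Finset.range A, X ^ a * ∑ m ∈ Finset.range S, R a m * hasseDeriv m ε =
        ∑ l ∈ Finset.range (4 * N), (X + C (n : ZMod p)) ^ l *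
          ∑ a ∈ Finset.range A, ∑ m ∈ Finset.range S,
            C (((PJ N (c a) m).map f).coeff l) * (X ^ a * hasseDeriv m ε) := by
      have h7 : ∀ a ∈ Finset.range A, ∀ m ∈ Finset.range S, X ^ a * (R a m * hasseDeriv m ε) =
          ∑ l ∈ Finset.range (4 * N), (X + C (n : ZMod p)) ^ l *
            (C (((PJ N (c a) m).map f).coeff l) * (X ^ a * hasseDeriv m ε)) := by
        intro a _ m _
        rw [h5 a m, Finset.sum_mul, Finset.mul_sum]
        refine Finset.sum_congr rfl fun l _ => ?_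
        ring
      simp only [Finset.mul_sum]
      rw [Finset.sum_congr rfl fun a ha => Finset.sum_congr rfl fun m hm => h7 a ha m hm]
      rw [Finset.sum_congr rfl fun a _ => Finset.sum_comm]
      exact Finset.sum_comm
    rw [h6]
    refine Finset.dvd_sum fun l _ => Dvd.dvd.mul_left ?_ _
    rw [X_pow_dvd_iff]
    intro j hj
    have h8 := hkill l ⟨j, hj⟩
    unfold vecP at h8
    simp only [finsetSum_coeff, coeff_C_mul]
    exact h8
  have h8 : (X : (ZMod p)[X]) ^ T ∣ ∑ a ∈ Finset.range A, X ^ a * ∑ m ∈ Finset.range S,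
      R a m * hasseDeriv m (E + φ) := by
    have h9 : ∑ a ∈ Finset.range A, X ^ a * ∑ m ∈ Finset.range S, R a m * hasseDeriv m (E + φ) =
        ∑ a ∈ Finset.range A, X ^ a * ∑ m ∈ Finset.range S, R a m * hasseDeriv m (E + φ - ε) +
        ∑ a ∈ Finset.range A, X ^ a * ∑ m ∈ Finset.range S, R a m * hasseDeriv m ε := by
      rw [← Finset.sum_add_distrib]
      refine Finset.sum_congr rfl fun a _ => ?_
      rw [← mul_add, ← Finset.sum_add_distrib]
      congr 1
      refine Finset.sum_congr rfl fun m _ => ?_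
      rw [← mul_add, ← map_add]
      congr 2
      ring
    rw [h9]
    refine dvd_add (Finset.dvd_sum fun a _ => Dvd.dvd.mul_left (Finset.dvd_sum fun m hm => ?_) _)
      hεkill
    exact Dvd.dvd.mul_left (hhs m hm) _
  rw [hsum]
  exact dvd_sub (dvd_sub ((pow_dvd_pow _ hTp).trans h1) h8)
    (Dvd.dvd.mul_right (pow_dvd_pow _ hTp) _)

end MP_a3a416_nt.HK
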