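import Pool.Agent.Lib.MP_a3a416_nt.HJ.AuxiH
import Pool.Agent.Lib.MP_a3a416_nt.HK.Jets

/-!
# HK-AuxiK
The auxiliary polynomials.  PROOF.  As `HJ.exists_aux`; for each `p`: `V p = (Fin (4N + A p) → ZMod p) × (Fin (4N) → W p)`, `W p` the space of `BadD`; the second component of `c`
at `l` is the combination of the vectors `vecP p T ε a m` with the coefficients of `X^l` of `P_{a,m}`.
-/

namespace MP_a3a416_nt.HK

open Polynomial MP_a3a416_nt.BB MP_a3a416_nt.LJ MP_a3a416_nt.HJ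

/-- the counting inequality. -/
theorem card_ineq_k {A S N r δ x B P H : ℕ} (hA : 1 ≤ A) (hS : 32 * (r + 1) ≤ S)
    (hk : 16 * (r + 1) * δ ≤ A * S) (hN : 1 ≤ N) (hx : 4 * (r + 1) * x ≤ S * N) (hB : 1 ≤ B)
    (hP : 1 ≤ P) (hH : (3 * B) ^ (2 * (r + 1)) * P < (H + 1) ^ (4 * (r + 1))) :
    (2 * (B * H) + 1) ^ (A * (N * (S + 1))) * P ^ (4 * N + A * x + δ * (4 * N)) <
      (H + 1) ^ (A * (4 * S * N)) := by
  have h1 : 2 * (B * H) + 1 ≤ (3 * B) * (H + 1) := by nlinarith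
  have hSN : 32 * ((r + 1) * (A * N)) ≤ A * (S * N) := by
    calc 32 * ((r + 1) * (A * N)) = 32 * (r + 1) * (A * N) := by ring
      _ ≤ S * (A * N) := Nat.mul_le_mul_right _ hS
      _ = A * (S * N) := by ring
  have hAN : 1 ≤ A * N := Nat.mul_pos hA hN
  have hrN : r + 1 ≤ (r + 1) * (A * N) := Nat.le_mul_of_pos_right _ hAN
  have hrN2 : (r + 1) * N ≤ (r + 1) * (A * N) :=
    Nat.mul_le_mul_left _ (Nat.le_mul_of_pos_left _ hA)
  have hNr : A * N ≤ (r + 1) * (A * N) := Nat.le_mul_of_pos_left _ (by omega)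
  have hx' : 4 * ((r + 1) * (A * x)) ≤ A * (S * N) := by
    calc 4 * ((r + 1) * (A * x)) = A * (4 * (r + 1) * x) := by ring
      _ ≤ A * (S * N) := Nat.mul_le_mul_left _ hx
  have hk' : 4 * ((r + 1) * (δ * (4 * N))) ≤ A * (S * N) := by
    calc 4 * ((r + 1) * (δ * (4 * N))) = 16 * (r + 1) * δ * N := by ring
      _ ≤ A * S * N := Nat.mul_le_mul_right _ hk
      _ = A * (S * N) := by ring
  obtain ⟨Q, hQ⟩ : ∃ Q, Q = (3 * (A * (S * N)) - A * N) / (4 * (r + 1)) := ⟨_, rfl⟩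
  have hQ1 : 4 * (r + 1) * Q ≤ 3 * (A * (S * N)) - A * N := by rw [hQ]; exact Nat.mul_div_le _ _
  have hQ2 : 3 * (A * (S * N)) - A * N < 4 * (r + 1) * (Q + 1) := by
    rw [hQ]; exact Nat.lt_mul_div_succ _ (by omega)
  have hQ3 : 4 * (r + 1) * Q = 4 * ((r + 1) * Q) := by ring
  have hQ4 : 4 * (r + 1) * (Q + 1) = 4 * ((r + 1) * Q) + 4 * (r + 1) := by ring
  have hQa : A * (N * (S + 1)) ≤ 2 * (r + 1) * Q := by
    have e1 : A * (N * (S + 1)) = A * (S * N) + A * N := by ring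
    have e2 : 2 * (r + 1) * Q = 2 * ((r + 1) * Q) := by ring
    rw [e1, e2]
    omega
  have hQb : 4 * N + A * x + δ * (4 * N) ≤ Q := by
    by_contra hcon
    have hc1 : Q + 1 ≤ 4 * N + A * x + δ * (4 * N) := by omega
    have hc2 : 4 * (r + 1) * (Q + 1) ≤ 4 * (r + 1) * (4 * N + A * x + δ * (4 * N)) :=
      Nat.mul_le_mul_left _ hc1
    have hc3 : 4 * (r + 1) * (4 * N + A * x + δ * (4 * N)) =
        16 * ((r + 1) * N) + 4 * ((r + 1) * (A * x)) + 4 * ((r + 1) * (δ * (4 * N))) := by ring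
    omega
  have hQc : Q ≠ 0 := by omega
  have hB3 : 1 ≤ 3 * B := by omega
  have k1 : (2 * (B * H) + 1) ^ (A * (N * (S + 1))) ≤
      (3 * B) ^ (A * (N * (S + 1))) * (H + 1) ^ (A * (N * (S + 1))) := by
    rw [← Nat.mul_pow]
    exact Nat.pow_le_pow_left h1 _
  have k2 : (3 * B) ^ (A * (N * (S + 1))) * P ^ (4 * N + A * x + δ * (4 * N)) <
      (H + 1) ^ (3 * (A * (S * N)) - A * N) := by
    calc (3 * B) ^ (A * (N * (S + 1))) * P ^ (4 * N + A * x + δ * (4 * N)) ≤
        (3 * B) ^ (2 * (r + 1) * Q) * P ^ Q :=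
          Nat.mul_le_mul (Nat.pow_le_pow_right hB3 hQa) (Nat.pow_le_pow_right hP hQb)
      _ = ((3 * B) ^ (2 * (r + 1)) * P) ^ Q := by
          rw [Nat.mul_pow ((3 * B) ^ (2 * (r + 1))) P Q, ← Nat.pow_mul]
      _ < ((H + 1) ^ (4 * (r + 1))) ^ Q := Nat.pow_lt_pow_left hH hQc
      _ = (H + 1) ^ (4 * (r + 1) * Q) := by rw [← Nat.pow_mul]
      _ ≤ (H + 1) ^ (3 * (A * (S * N)) - A * N) := Nat.pow_le_pow_right (by omega) hQ1
  have k3 : A * (4 * S * N) = A * (N * (S + 1)) + (3 * (A * (S * N)) - A * N) := by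
    have e1 : A * (N * (S + 1)) = A * (S * N) + A * N := by ring
    have e2 : A * (4 * S * N) = 4 * (A * (S * N)) := by ring
    rw [e1, e2]
    omega
  rw [k3, Nat.pow_add (H + 1)]
  calc (2 * (B * H) + 1) ^ (A * (N * (S + 1))) * P ^ (4 * N + A * x + δ * (4 * N))
      ≤ ((3 * B) ^ (A * (N * (S + 1))) * (H + 1) ^ (A * (N * (S + 1)))) *
        P ^ (4 * N + A * x + δ * (4 * N)) := Nat.mul_le_mul_right _ k1
    _ = (H + 1) ^ (A * (N * (S + 1))) *
        ((3 * B) ^ (A * (N * (S + 1))) * P ^ (4 * N + A * x + δ * (4 * N))) := by ring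
    _ < (H + 1) ^ (A * (N * (S + 1))) * (H + 1) ^ (3 * (A * (S * N)) - A * N) :=
      Nat.mul_lt_mul_of_pos_left k2 (by positivity)

theorem phiJ_coeff_k (J : ℕ) (w : ℕ → ℤ) (j : ℕ) :
    (phiJ J w).coeff j = if ∃ g ∈ Finset.Icc 1 J, j = 2 * g then w (j / 2) else 0 := by
  unfold phiJ
  rw [finsetSum_coeff]
  simp only [coeff_C_mul_X_pow]
  split_ifs with h
  · obtain ⟨g, hg, hj⟩ := h
    rw [Finset.sum_eq_single g]
    · rw [if_pos hj, hj]
      congr 1
      omega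
    · intro b _ hb
      rw [if_neg (by omega)]
    · intro h
      exact absurd hg h
  · refine Finset.sum_eq_zero fun g hg => ?_
    rw [if_neg (fun hj => h ⟨g, hg, hj⟩)]

theorem exists_aux_k {A S N J T r δ x : ℕ} (v : ℕ → ℕ → ℤ) (hA : 1 ≤ A) (hS : 32 * (r + 1) ≤ S)
    (hk : 16 * (r + 1) * δ ≤ A * S) (hJ : T + S ≤ 2 * J + 3) (hT : T ≤ N)
    (hN : 2 * J + 5 ≤ N) (hx : 4 * (r + 1) * x ≤ S * N)
    (Ps : Finset ℕ) (lam : ℕ → ℕ → ℤ)
    (hP : ∀ p ∈ Ps, p.Prime ∧ N < p ∧ p ≤ x ∧ BadD A S T J r δ v (lam p) p)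
    (H : ℕ) (hH1 : 1 ≤ H) (hH : (3 * AJ S N) ^ (2 * (r + 1)) * ∏ p ∈ Ps, p < (H + 1) ^ (4 * (r + 1))) :
    ∃ c : ℕ → ℕ × ℕ × ℕ → ℤ, (∃ a < A, ∃ x ∈ ix S N, c a x ≠ 0) ∧ (∀ a < A, ∀ x ∈ ix S N, |c a x| ≤ (H : ℤ)) ∧
      (∀ a < A, REG S N (c a)) ∧
      ∀ p ∈ Ps, ∀ n < N, ∀ k < T,
        (p : ℤ) ∣ (rH A S N c n - sH A S N J c (LI.comb r v (lam p)) n).coeff k := by
  classical
  have hN1 : 1 ≤ N := by omega
  have hS1 : 1 ≤ S := by omega
  have hfact : ∀ p : Ps, Fact (p : ℕ).Prime := fun p => ⟨(hP p p.2).1⟩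
  have hneZ : ∀ p : Ps, NeZero (p : ℕ) := fun p => ⟨(hP p p.2).1.ne_zero⟩
  have hNp : ∀ p : Ps, N < (p : ℕ) := fun p => (hP p p.2).2.1
  have hex : ∀ p : Ps, ∃ E : (ZMod (p : ℕ))[X], E.natDegree < p ∧ E.coeff 0 = 0 ∧
      E.comp (X + 1) - E = (X + 1) ^ ((p : ℕ) - 2) ∧
      (∀ k, Odd k → k + 4 ≤ (p : ℕ) → E.coeff k = 0) ∧
      (∀ g, 1 ≤ g → 2 * g + 3 ≤ (p : ℕ) → ∀ a : ℤ,
        ((p : ℕ) : ℤ) ∣ (_root_.bernoulli ((p : ℕ) - 1 - 2 * g) - (a : ℚ)).num →
        E.coeff (2 * g) = -(a : ZMod (p : ℕ))) := fun p => by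
    have := hfact p
    exact LI.exists_E_w (p : ℕ) (by have := hNp p; omega)
  choose E hE using hex
  have hbd : ∀ p : Ps, BadD A S T J r δ v (lam p) p := fun p => (hP p p.2).2.2.2
  unfold BadD at hbd
  choose β hβ W hWc hW using hbd
  let V : Ps → Type := fun p => (Fin (4 * N + A * (p : ℕ)) → ZMod (p : ℕ)) × (Fin (4 * N) → W p)
  have hVfin : ∀ p : Ps, Finite (V p) := fun p => by
    have := hneZ p
    infer_instance
  let P2 : ∀ p : Ps, (Fin A × ix S N → ℤ) → (ZMod (p : ℕ))[X] := fun p c =>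
    ∑ a ∈ Finset.range A, (X - X ^ (p : ℕ)) ^ a * ∑ m ∈ Finset.range S,
      (PJ N (extH A S N c a) m).map (Int.castRingHom (ZMod (p : ℕ))) * hasseDeriv m (E p)
  have hP2add : ∀ p c c', P2 p (c + c') = P2 p c + P2 p c' := by
    intro p c c'
    simp only [P2, extH_add, PJ_add, Polynomial.map_add, add_mul, Finset.sum_add_distrib, mul_add]
  have hP2zero : ∀ p, P2 p 0 = 0 := by
    intro p
    simp only [P2, extH_zero, PJ_zero, Polynomial.map_zero, zero_mul, Finset.sum_const_zero, mul_zero]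
  let K2 : ∀ p : Ps, ℕ → (Fin A × ix S N → ℤ) → (Fin T → ZMod (p : ℕ)) := fun p l c =>
    ∑ a ∈ Finset.range A, ∑ m ∈ Finset.range S,
      ((PJ N (extH A S N c a) m).map (Int.castRingHom (ZMod (p : ℕ)))).coeff l •
        vecP p T (errP J r v (lam p) (β p) p) a m
  have hK2mem : ∀ p l c, K2 p l c ∈ W p := by
    intro p l c
    refine Submodule.sum_mem _ fun a ha => Submodule.sum_mem _ fun m hm => ?_
    exact Submodule.smul_mem _ _ (hW p a (Finset.mem_range.1 ha) m (Finset.mem_range.1 hm))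
  have hK2add : ∀ p l c c', K2 p l (c + c') = K2 p l c + K2 p l c' := by
    intro p l c c'
    simp only [K2, extH_add, PJ_add, Polynomial.map_add, coeff_add, add_smul, Finset.sum_add_distrib]
  have hK2zero : ∀ p l, K2 p l 0 = 0 := by
    intro p l
    simp only [K2, extH_zero, PJ_zero, Polynomial.map_zero, coeff_zero, zero_smul,
      Finset.sum_const_zero]
  let φ : ∀ p : Ps, (Fin A × ix S N → ℤ) →+ V p := fun p =>
    { toFun := fun c => (fun l => (P2 p c).coeff l, fun l => ⟨K2 p l c, hK2mem p l c⟩)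
      map_zero' := by
        simp only [hP2zero, hK2zero, coeff_zero]
        rfl
      map_add' := by
        intro c c'
        simp only [hP2add, hK2add, coeff_add]
        rfl }
  let ψ : (Fin A × ix S N → ℤ) →+ (Fin A × Fin N × Fin (S + 1) → ℤ) :=
    { toFun := fun c => fun k =>
        ((DJ N (S + 1) : ℤ) * regF S N (extH A S N c k.1) (k.2.1 : ℕ) ((k.2.2 : ℕ) + 1)) / (FN N : ℤ)
      map_zero' := by
        funext k
        show ((DJ N (S + 1) : ℤ) * regF S N (extH A S N 0 k.1) (k.2.1 : ℕ) ((k.2.2 : ℕ) + 1)) / (FN N : ℤ) = 0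
        rw [extH_zero, regF_zero, mul_zero, Int.zero_ediv]
      map_add' := by
        intro c c'
        funext k
        show ((DJ N (S + 1) : ℤ) * regF S N (extH A S N (c + c') k.1) (k.2.1 : ℕ) ((k.2.2 : ℕ) + 1)) / (FN N : ℤ) =
          ((DJ N (S + 1) : ℤ) * regF S N (extH A S N c k.1) (k.2.1 : ℕ) ((k.2.2 : ℕ) + 1)) / (FN N : ℤ) +
          ((DJ N (S + 1) : ℤ) * regF S N (extH A S N c' k.1) (k.2.1 : ℕ) ((k.2.2 : ℕ) + 1)) / (FN N : ℤ)
        rw [extH_add, regF_add, mul_add]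
        exact Int.add_ediv_of_dvd_left (regF_dvd _ k.2.1.2 (by omega)) }
  have hcardι : Fintype.card (Fin A × ix S N) = A * (4 * S * N) := by
    rw [Fintype.card_prod, Fintype.card_fin, Fintype.card_coe]
    unfold ix
    rw [Finset.card_product, Finset.card_product, Finset.card_range, Finset.card_range, Finset.card_range]
    ring
  have hψ : ∀ c : Fin A × ix S N → ℤ, (∀ i, |c i| ≤ (H : ℤ)) → ∀ k, |ψ c k| ≤ ((AJ S N * H : ℕ) : ℤ) := by
    intro c hc k
    obtain ⟨z, hz1, hz2⟩ := regF_bound (S := S) (N := N) (H := H) (extH A S N c k.1) (by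
      intro x hx
      have := hc (k.1, ⟨x, hx⟩)
      rw [← extH_apply A S N c k.1 ⟨x, hx⟩] at this
      exact this) (a := (k.2.1 : ℕ)) (i := (k.2.2 : ℕ) + 1) k.2.1.2 (by omega)
    have h1 : ψ c k = z := by
      show ((DJ N (S + 1) : ℤ) * regF S N (extH A S N c k.1) (k.2.1 : ℕ) ((k.2.2 : ℕ) + 1)) / (FN N : ℤ) = z
      rw [hz1]
      exact Int.mul_ediv_cancel_left _ (by have := FN_pos N; positivity)
    rw [h1]
    exact hz2
  have hV : ∏ p : Ps, Nat.card (V p) ≤ (∏ p ∈ Ps, p) ^ (4 * N + A * x + δ * (4 * N)) := by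
    rw [← Finset.prod_pow]
    rw [← Finset.prod_coe_sort Ps (fun p => p ^ (4 * N + A * x + δ * (4 * N)))]
    apply Finset.prod_le_prod'
    intro p _
    have := hneZ p
    have h1 : Nat.card (V p) = (p : ℕ) ^ (4 * N + A * (p : ℕ)) * Nat.card (W p) ^ (4 * N) := by
      simp only [V]
      rw [Nat.card_prod, Nat.card_fun, Nat.card_fun]
      simp only [Nat.card_eq_fintype_card, ZMod.card, Fintype.card_fin]
    have h2 : Nat.card (W p) ^ (4 * N) ≤ (p : ℕ) ^ (δ * (4 * N)) := by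
      calc Nat.card (W p) ^ (4 * N) ≤ ((p : ℕ) ^ δ) ^ (4 * N) := Nat.pow_le_pow_left (hWc p) _
        _ = _ := (pow_mul _ _ _).symm
    rw [h1, pow_add (p : ℕ) (4 * N + A * x)]
    refine Nat.mul_le_mul (Nat.pow_le_pow_right (by have := hNp p; omega) (Nat.add_le_add_left
      (Nat.mul_le_mul_left _ (hP p p.2).2.2.1) _)) h2
  have hPpos : 1 ≤ ∏ p ∈ Ps, p := Finset.one_le_prod' (fun p hp => (hP p hp).1.one_le)
  have hApos : 1 ≤ AJ S N := by
    unfold AJ
    have := DJ_pos N (S + 1)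
    exact Nat.mul_pos this (by positivity)
  have hcard : (2 * (AJ S N * H) + 1) ^ Fintype.card (Fin A × Fin N × Fin (S + 1)) *
      ∏ p : Ps, Nat.card (V p) < (H + 1) ^ Fintype.card (Fin A × ix S N) := by
    rw [hcardι, Fintype.card_prod, Fintype.card_prod, Fintype.card_fin, Fintype.card_fin, Fintype.card_fin]
    exact lt_of_le_of_lt (Nat.mul_le_mul_left _ hV) (card_ineq_k hA hS hk hN1 hx hApos hPpos hH)
  obtain ⟨c, hc0, hcH, hc, hψc⟩ := siegel_mixed (ι := Fin A × ix S N) (κ := Fin A × Fin N × Fin (S + 1))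
    Ps H (AJ S N * H) V φ ψ hψ hcard
  have hREG : ∀ a < A, REG S N (extH A S N c a) := by
    intro b hb a ha i hi1 hi2
    have h1 := congrFun hψc (⟨b, hb⟩, ⟨a, ha⟩, ⟨i - 1, by omega⟩)
    have h2 : ((DJ N (S + 1) : ℤ) * regF S N (extH A S N c b) a (i - 1 + 1)) / (FN N : ℤ) = 0 := h1
    have h3 : i - 1 + 1 = i := by omega
    rw [h3] at h2
    have h4 := Int.ediv_mul_cancel (regF_dvd (S := S) (extH A S N c b) ha hi1)
    rw [h2, zero_mul] at h4
    have h5 : (DJ N (S + 1) : ℤ) ≠ 0 := by have := DJ_pos N (S + 1); positivity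
    exact (mul_eq_zero.mp h4.symm).resolve_left h5
  refine ⟨extH A S N c, ?_, ?_, hREG, ?_⟩
  · by_contra hcon
    push Not at hcon
    apply hc0
    funext y
    obtain ⟨a, x⟩ := y
    rw [← extH_apply A S N c a x]
    exact hcon a a.2 x x.2
  · intro a ha x hx
    have := hcH (⟨a, ha⟩, ⟨x, hx⟩)
    rw [← extH_apply A S N c ⟨a, ha⟩ ⟨x, hx⟩] at this
    exact this
  · intro p hp n hn k hk
    have hφ := hc ⟨p, hp⟩
    have : Fact p.Prime := ⟨(hP p hp).1⟩
    have hpN : N < p := (hP p hp).2.1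
    obtain ⟨hE1, hE2, hE3, hE4, hE5⟩ := hE ⟨p, hp⟩
    have hφ1 := congrArg Prod.fst hφ
    have hφ1' := congrArg Prod.snd hφ
    have hφ2 : ∀ l, l < 4 * N + A * p → (P2 ⟨p, hp⟩ c).coeff l = 0 := by
      intro l hl
      exact congrFun hφ1 ⟨l, hl⟩
    have hPd : ∀ a m, ((PJ N (extH A S N c a) m).map (Int.castRingHom (ZMod p))).natDegree < 4 * N := by
      intro a m
      exact lt_of_le_of_lt natDegree_map_le (natDegree_PJ_lt hN1 (extH A S N c a) m)
    have hd2 : (P2 ⟨p, hp⟩ c).natDegree < 4 * N + A * p := by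
      have h7 : (P2 ⟨p, hp⟩ c).natDegree ≤ 4 * N + A * p - 1 := by
        apply natDegree_sum_le_of_forall_le
        intro a ha
        rw [Finset.mem_range] at ha
        refine natDegree_mul_le.trans ?_
        have h20 : ((X - X ^ p : (ZMod p)[X]) ^ a).natDegree ≤ a * p := by
          refine natDegree_pow_le.trans (Nat.mul_le_mul_left _ ?_)
          refine (natDegree_sub_le _ _).trans (max_le ?_ ?_)
          · exact natDegree_X_le.trans (by omega)
          · exact natDegree_X_pow_le _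
        have h21 : (∑ m ∈ Finset.range S, (PJ N (extH A S N c a) m).map (Int.castRingHom (ZMod p)) *
            hasseDeriv m (E ⟨p, hp⟩)).natDegree ≤ 4 * N - 1 + (p - 1) := by
          apply natDegree_sum_le_of_forall_le
          intro m hm
          refine natDegree_mul_le.trans ?_
          have h8 := hPd a m
          have h10 : (hasseDeriv m (E ⟨p, hp⟩)).natDegree ≤ (E ⟨p, hp⟩).natDegree :=
            (natDegree_hasseDeriv_le _ _).trans (Nat.sub_le _ _)
          have h11 : (E ⟨p, hp⟩).natDegree < p := hE1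
          have h12 : (((PJ N (extH A S N c a) m).map (Int.castRingHom (ZMod p))).natDegree +
            (hasseDeriv m (E ⟨p, hp⟩)).natDegree) ≤ 4 * N - 1 + (p - 1) := by omega
          exact h12
        have h22 : (a + 1) * p ≤ A * p := Nat.mul_le_mul_right _ ha
        have h23 : (a + 1) * p = a * p + p := by ring
        have h24 : ((X - X ^ p : (ZMod p)[X]) ^ a).natDegree +
          (∑ m ∈ Finset.range S, (PJ N (extH A S N c a) m).map (Int.castRingHom (ZMod p)) *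
            hasseDeriv m (E ⟨p, hp⟩)).natDegree ≤ 4 * N + A * p - 1 := by omega
        exact h24
      have : 0 < A * p := Nat.mul_pos hA (by omega)
      omega
    have hM : P2 ⟨p, hp⟩ c = 0 := by
      ext l
      rw [coeff_zero]
      rcases Nat.lt_or_ge l (4 * N + A * p) with hl | hl
      · exact hφ2 l hl
      · exact coeff_eq_zero_of_natDegree_lt (lt_of_lt_of_le hd2 hl)
    have hKK : ∀ l, ∀ j : Fin T, ∑ a ∈ Finset.range A, ∑ m ∈ Finset.range S,
        ((PJ N (extH A S N c a) m).map (Int.castRingHom (ZMod p))).coeff l *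
          vecP p T (errP J r v (lam p) (β ⟨p, hp⟩) p) a m j = 0 := by
      intro l j
      rcases Nat.lt_or_ge l (4 * N) with hl | hl
      · have h1 := congrArg Subtype.val (congrFun hφ1' ⟨l, hl⟩)
        have h2 : K2 ⟨p, hp⟩ l c = 0 := h1
        have h3 := congrFun h2 j
        simp only [K2, Finset.sum_apply, Pi.smul_apply, smul_eq_mul, Pi.zero_apply] at h3
        exact h3
      · refine Finset.sum_eq_zero fun a _ => Finset.sum_eq_zero fun m _ => ?_
        have h1 : ((PJ N (extH A S N c a) m).map (Int.castRingHom (ZMod p))).coeff l = 0 :=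
          coeff_eq_zero_of_natDegree_lt (lt_of_lt_of_le (hPd a m) hl)
        rw [h1, zero_mul]
    have hε : ∀ j, j < T + S - 1 → (E ⟨p, hp⟩ +
        (phiJ J (LI.comb r v (lam p))).map (Int.castRingHom (ZMod p)) -
        errP J r v (lam p) (β ⟨p, hp⟩) p).coeff j = 0 := by
      intro j hj
      rw [coeff_sub, coeff_add, errP, coeff_map, coeff_map, phiJ_coeff_k, phiJ_coeff_k]
      rcases Nat.even_or_odd j with he | ho
      · obtain ⟨g, hg⟩ := he
        have hg2 : j = 2 * g := by omega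
        rcases Nat.eq_zero_or_pos g with hg0 | hg0
        · have hj0 : j = 0 := by omega
          have h1 : ¬ ∃ g ∈ Finset.Icc 1 J, j = 2 * g := by
            rintro ⟨g, hg1, hg⟩
            rw [Finset.mem_Icc] at hg1
            omega
          rw [if_neg h1, if_neg h1, hj0, hE2]
          simp
        · have h1 : ∃ g ∈ Finset.Icc 1 J, j = 2 * g := ⟨g, by rw [Finset.mem_Icc]; omega, hg2⟩
          have h2 : g ∈ Finset.Icc 1 J := by rw [Finset.mem_Icc]; omega
          rw [if_pos h1, if_pos h1]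
          have h3 : j / 2 = g := by omega
          have h4 : 2 * g + 3 ≤ p := by omega
          rw [h3, hg2, hE5 g hg0 h4 (β ⟨p, hp⟩ g) (hβ ⟨p, hp⟩ g h2)]
          simp only [eq_intCast, Int.cast_sub]
          ring
      · have h4 : j + 4 ≤ p := by omega
        rw [hE4 j ho h4]
        have h1 : ¬ ∃ g ∈ Finset.Icc 1 J, j = 2 * g := by
          rintro ⟨g, _, hg⟩
          obtain ⟨t, ht⟩ := ho
          omega
        rw [if_neg h1, if_neg h1]
        simp
    exact jets_modp_k p A S N J T (extH A S N c) (LI.comb r v (lam p)) _ hS1 hpN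
      (by omega) (by omega) (E ⟨p, hp⟩) hE3 hε hREG hM hKK hn hk

end MP_a3a416_nt.HK
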