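import Pool.Agent.Lib.MP_a3a416_nt.HK.Rec
import Pool.Agent.Lib.MP_a3a416_nt.LI.EPolyW

/-!
# HK-BadRec
From the recurrence with rational Bernoulli numbers to `BadD`.
PROOF.  `D0 = primorial (p-1)`, `D0 * B_n = cB p n` (`cB_spec`) and `p ∤ D0`: take an integer `β g ≡ cB / D0` modulo `p`.  Then `p ∣ (B - β).num`.  For `y = ∑ n_i (B_i - w_i)`
(integers `n_i = q_i(g)`): `p ∣ y.num` implies `p ∣ ∑ n_i (β_i - w_i)`: `D0 y = ∑ n_i (cB_i - D0 w_i)` is an integer divisible by `p`.  Apply `weyl_dim` with `e g = comb g - β g`.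
-/

namespace MP_a3a416_nt.HK

open Polynomial MP_a3a416_nt.BB MP_a3a416_nt.LJ MP_a3a416_nt.HJ
open Pool.Agent.Lib.MP_a3a416_nt

/-- `D0 y = Z`, `p ∤ D0`: `p ∣ y.num ↔ p ∣ Z`. -/
private theorem num_dvd_iff {p : ℕ} (hp : p.Prime) {D0 : ℕ} (hD : ¬ p ∣ D0) {y : ℚ} {Z : ℤ}
    (h : (D0 : ℚ) * y = Z) : (p : ℤ) ∣ y.num ↔ (p : ℤ) ∣ Z := by
  have hpZ : Prime (p : ℤ) := Nat.prime_iff_prime_int.mp hp
  have h1 : Z * y.den = (D0 : ℤ) * y.num := by
    have h2 : (Z : ℚ) * y.den = (D0 : ℚ) * y.num := by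
      rw [← h, mul_assoc, Rat.mul_den_eq_num]
    exact_mod_cast h2
  constructor
  · intro hd
    have h3 : (p : ℤ) ∣ Z * y.den := h1 ▸ hd.mul_left _
    rcases hpZ.dvd_or_dvd h3 with h4 | h4
    · exact h4
    · exfalso
      have h8 : p ∣ y.den := by exact_mod_cast h4
      have h9 : p ∣ y.num.natAbs := Int.natCast_dvd.1 hd
      have h10 := Nat.dvd_gcd h9 h8
      rw [y.reduced] at h10
      exact hp.one_lt.ne' (Nat.dvd_one.1 h10)
  · intro hd
    have h3 : (p : ℤ) ∣ (D0 : ℤ) * y.num := h1 ▸ hd.mul_right _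
    rcases hpZ.dvd_or_dvd h3 with h4 | h4
    · exact absurd (Int.natCast_dvd_natCast.mp h4) hD
    · exact h4

theorem bad_of_rec (p : ℕ) (hp : p.Prime) (A S T s d g₀ J r κ : ℕ) (a' b' : ℕ → ℕ) (v : ℕ → ℕ → ℤ) (lam : ℕ → ℤ)
    (q : ℕ → ℤ[X])
    (hpJ : 2 * J + 5 < p) (hSp : S ≤ p) (hA : 1 ≤ A) (hdS : d < S) (hg₀ : 1 ≤ g₀) (hT : T + S + 2 * s ≤ 2 * J + 3)
    (hq : ∀ i ≤ s, (q i).natDegree ≤ d) (hq0 : ∃ i ≤ s, ∃ n, ¬ (p : ℤ) ∣ (q i).coeff n)
    (hrec : ∀ g, g₀ ≤ g → g + s ≤ J → (∀ i < κ, g ∉ Finset.Ico (a' i) (b' i)) →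
      (p : ℤ) ∣ (∑ i ∈ Finset.range (s + 1), (((q i).eval (g : ℤ) : ℤ) : ℚ) *
        (_root_.bernoulli (p - 1 - 2 * (g + i)) - (LI.comb r v lam (g + i) : ℤ))).num) :
    BadD A S T J r (2 * s * S + (d + κ) * (A + S) + A +
      2 * (g₀ + ∑ i ∈ Finset.range κ, (b' i - a' i))) v lam p := by
  classical
  haveI : Fact p.Prime := ⟨hp⟩
  have hp5 : 5 ≤ p := by omega
  obtain ⟨D0, hD0⟩ : ∃ D0, D0 = primorial (p - 1) := ⟨_, rfl⟩
  have hD : ¬ p ∣ D0 := by rw [hD0]; exact not_dvd_primorial hp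
  have hDF : (D0 : ZMod p) ≠ 0 := by
    intro h
    rw [ZMod.natCast_eq_zero_iff] at h
    exact hD h
  -- the integers `β`
  set β : ℕ → ℤ := fun g => (((D0 : ZMod p)⁻¹ * (cB p (p - 1 - 2 * g) : ZMod p)).val : ℤ) with hβ
  have hβF : ∀ g, (D0 : ZMod p) * (β g : ZMod p) = (cB p (p - 1 - 2 * g) : ZMod p) := by
    intro g
    simp only [hβ, Int.cast_natCast, ZMod.natCast_zmod_val]
    rw [← mul_assoc, mul_inv_cancel₀ hDF, one_mul]
  have hspec : ∀ g, (D0 : ℚ) * _root_.bernoulli (p - 1 - 2 * g) = (cB p (p - 1 - 2 * g) : ℚ) ∨ g = 0 := by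
    intro g
    rcases Nat.eq_zero_or_pos g with h | h
    · exact Or.inr h
    · left
      rw [hD0]
      exact (cB_spec hp5 (by omega)).symm
  refine ⟨β, ?_, ?_⟩
  · intro g hg
    rw [Finset.mem_Icc] at hg
    have h1 := (hspec g).resolve_right (by omega)
    rw [num_dvd_iff hp hD (Z := cB p (p - 1 - 2 * g) - D0 * β g) (by
      rw [mul_sub, h1]; push_cast; ring)]
    rw [← ZMod.intCast_zmod_eq_zero_iff_dvd]
    push_cast
    rw [hβF, sub_self]
  · obtain ⟨W, hW1, hW2⟩ := weyl_dim p A S T s d g₀ J κ a' b'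
      (fun g => ((LI.comb r v lam g - β g : ℤ) : ZMod p))
      (fun i => (q i).map (Int.castRingHom (ZMod p))) (by omega) hSp hA hdS hg₀ hT
      (fun i hi => natDegree_map_le.trans (hq i hi)) (by
        obtain ⟨i, hi, n, hn⟩ := hq0
        refine ⟨i, hi, fun h => hn ?_⟩
        have h1 := congrArg (fun P : (ZMod p)[X] => P.coeff n) h
        simp only [coeff_map, coeff_zero, eq_intCast] at h1
        exact (ZMod.intCast_zmod_eq_zero_iff_dvd _ _).1 h1) (by
        intro g hg1 hg2 hg3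
        have h1 := hrec g hg1 hg2 hg3
        have h2 : (D0 : ℚ) * (∑ i ∈ Finset.range (s + 1), (((q i).eval (g : ℤ) : ℤ) : ℚ) *
            (_root_.bernoulli (p - 1 - 2 * (g + i)) - (LI.comb r v lam (g + i) : ℤ))) =
            ((∑ i ∈ Finset.range (s + 1), (q i).eval (g : ℤ) *
              (cB p (p - 1 - 2 * (g + i)) - D0 * LI.comb r v lam (g + i)) : ℤ) : ℚ) := by
          rw [Finset.mul_sum]
          push_cast
          refine Finset.sum_congr rfl fun i _ => ?_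
          have h3 := (hspec (g + i)).resolve_right (by omega)
          rw [← h3]
          ring
        rw [num_dvd_iff hp hD h2, ← ZMod.intCast_zmod_eq_zero_iff_dvd] at h1
        push_cast at h1
        have h4 : ∑ i ∈ Finset.range (s + 1), (((q i).eval (g : ℤ) : ℤ) : ZMod p) *
            ((cB p (p - 1 - 2 * (g + i)) : ZMod p) - D0 * (LI.comb r v lam (g + i) : ZMod p)) =
            -(D0 : ZMod p) * ∑ i ∈ Finset.range (s + 1), (((q i).eval (g : ℤ) : ℤ) : ZMod p) *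
              ((LI.comb r v lam (g + i) - β (g + i) : ℤ) : ZMod p) := by
          rw [Finset.mul_sum]
          refine Finset.sum_congr rfl fun i _ => ?_
          rw [← hβF]
          push_cast
          ring
        rw [h4] at h1
        have h5 := (mul_eq_zero.1 h1).resolve_left (neg_ne_zero.2 hDF)
        rw [← h5]
        refine Finset.sum_congr rfl fun i _ => ?_
        have h6 : ((q i).map (Int.castRingHom (ZMod p))).eval (g : ZMod p) =
            (((q i).eval (g : ℤ) : ℤ) : ZMod p) := by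
          rw [eval_natCast_map]
          rfl
        rw [h6])
    refine ⟨W, ?_, ?_⟩
    · rw [Module.natCard_eq_pow_finrank (K := ZMod p), Nat.card_zmod]
      exact Nat.pow_le_pow_right hp.pos hW1
    · intro a ha m hm
      have h1 : errP J r v lam β p = ∑ g ∈ Finset.Icc 1 J,
          C (((LI.comb r v lam g - β g : ℤ) : ZMod p)) * X ^ (2 * g) := by
        unfold errP phiJ
        rw [Polynomial.map_sum]
        refine Finset.sum_congr rfl fun g _ => ?_
        rw [Polynomial.map_mul, Polynomial.map_pow, map_X, map_C]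
        rfl
      rw [h1]
      exact hW2 a ha m hm

end MP_a3a416_nt.HK
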