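import Pool.Agent.Lib.MP_a3a416_nt.HJ.Defs

/-!
# HK-Defs
Theorem P (the last Bernoulli numbers mod `p` satisfy no short recurrence with polynomial coefficients, even after subtraction of an element of a
fixed `D`-dimensional space).  `v`, `lam`: the element `LI.comb r v lam = v 0 + ∑_{l<r} lam l * v (l+1)`; `β g` an integer `≡ B_{p-1-2g}` modulo `p`.
-/

namespace MP_a3a416_nt.HK

open Polynomial MP_a3a416_nt.BB MP_a3a416_nt.LJ MP_a3a416_nt.HJ

/-- the polynomial `∑_{g ≤ J} (w_g - β_g) X^(2g)` modulo `p`, `w = comb r v lam`. -/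
noncomputable def errP (J r : ℕ) (v : ℕ → ℕ → ℤ) (lam β : ℕ → ℤ) (p : ℕ) : (ZMod p)[X] :=
  (phiJ J (fun g => LI.comb r v lam g - β g)).map (Int.castRingHom (ZMod p))

/-- the vector of the first `T` coefficients of `X^a * f^[m]`. -/
noncomputable def vecP (p T : ℕ) (f : (ZMod p)[X]) (a m : ℕ) : Fin T → ZMod p :=
  fun j => (X ^ a * hasseDeriv m f).coeff j

/-- the `A S` truncated polynomials `X^a err^[m]`, `a < A`, `m < S`, lie in a space of dimension `≤ δ`. -/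
def BadD (A S T J r δ : ℕ) (v : ℕ → ℕ → ℤ) (lam : ℕ → ℤ) (p : ℕ) : Prop :=
  ∃ β : ℕ → ℤ, (∀ g ∈ Finset.Icc 1 J, (p : ℤ) ∣ (_root_.bernoulli (p - 1 - 2 * g) - (β g : ℚ)).num) ∧
    ∃ W : Submodule (ZMod p) (Fin T → ZMod p), Nat.card W ≤ p ^ δ ∧
      ∀ a < A, ∀ m < S, vecP p T (errP J r v lam β p) a m ∈ W

end MP_a3a416_nt.HK
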