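import Pool.Agent.Lib.MP_a3a416_nt.HK.Final
import Pool.Agent.Lib.MP_a3a416_nt.LI.RelMod

/-!
The dimension bound from `theorem_PI` (`s = d = 0`).
-/

namespace MP_a3a416_nt.HK

private theorem card_primes_ge {x : ℕ} (hx : 16 ≤ x) :
    (1 / 4) * ((x : ℝ) / Real.log x) ≤ (((Finset.Icc 1 x).filter (fun p : ℕ => p.Prime)).card : ℝ) := by
  have h1 := BB.primeCounting_ge hx
  have h2 : Nat.primeCounting x = ((Finset.Icc 1 x).filter (fun p : ℕ => p.Prime)).card := by
    rw [Nat.primeCounting, Nat.primeCounting', Nat.count_eq_card_filter_range]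
    congr 1
    ext p
    rw [Finset.mem_filter, Finset.mem_filter, Finset.mem_range, Finset.mem_Icc]
    constructor
    · rintro ⟨h, hp⟩
      exact ⟨⟨hp.one_lt.le, by omega⟩, hp⟩
    · rintro ⟨h, hp⟩
      exact ⟨by omega, hp⟩
  rw [h2] at h1
  linarith

theorem single_not_rel (J : ℕ) : (Pi.single 0 1 : Fin (J+1) → ℚ) ∉ LI.Rel J := by
  intro h
  have h1 : LI.IsRel J (Pi.single 0 1 : Fin (J+1) → ℚ) := h
  have hval : ∀ p : ℕ, LI.relVal J (Pi.single 0 1 : Fin (J+1) → ℚ) p = 1 := by
    intro p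
    unfold LI.relVal
    rw [Pi.single_eq_same, Finset.sum_eq_zero, add_zero]
    intro g _
    rw [Pi.single_eq_of_ne (Fin.succ_ne_zero g), zero_mul]
  obtain ⟨x₀, hx₀⟩ := h1 (1 / 8) (by norm_num)
  have h2 := hx₀ (max 16 x₀) (le_max_right _ _)
  have hx16 : 16 ≤ max 16 x₀ := le_max_left _ _
  generalize max 16 x₀ = x at h2 hx16
  have h3 := card_primes_ge hx16
  have h4 : (Finset.Icc 1 x).filter (fun p : ℕ => p.Prime ∧
      ¬ (p : ℤ) ∣ (LI.relVal J (Pi.single 0 1 : Fin (J+1) → ℚ) p).num) =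
      (Finset.Icc 1 x).filter (fun p : ℕ => p.Prime) := by
    apply Finset.filter_congr
    intro p _
    rw [hval p]
    constructor
    · exact fun h => h.1
    · intro hp
      refine ⟨hp, ?_⟩
      intro hdvd
      have h5 : (p : ℤ) ∣ 1 := by simpa using hdvd
      have h6 : p ∣ 1 := by exact_mod_cast h5
      exact hp.one_lt.ne' (Nat.dvd_one.1 h6)
  rw [h4] at h2
  have hx' : (16 : ℝ) ≤ x := by exact_mod_cast hx16
  have hlx : 0 < Real.log x := Real.log_pos (by linarith)
  have h5 : 0 < (x : ℝ) / Real.log x := by positivity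
  linarith

theorem card_primes_eq (x : ℕ) : ((Finset.Icc 1 x).filter (fun p : ℕ => p.Prime)).card = Nat.primeCounting x := by
  rw [Nat.primeCounting, Nat.primeCounting', Nat.count_eq_card_filter_range]
  congr 1
  ext p
  rw [Finset.mem_filter, Finset.mem_filter, Finset.mem_range, Finset.mem_Icc]
  constructor
  · rintro ⟨h, hp⟩
    exact ⟨by omega, hp⟩
  · rintro ⟨h, hp⟩
    exact ⟨⟨hp.one_lt.le, by omega⟩, hp⟩

theorem dimension_k : ∃ c : ℝ, 0 < c ∧ ∀ J : ℕ, 2 ≤ J →
    c * √(J / Real.log J) ≤ (Module.finrank ℚ ((Fin (J + 1) → ℚ) ⧸ LI.Rel J) : ℝ) := by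
  obtain ⟨c₀, C, hc₀, hC, hcount⟩ := theorem_PI
  have hs : 0 < √(8 * C) := Real.sqrt_pos.2 (by positivity)
  have hl2 : 0 < Real.log 2 := Real.log_pos (by norm_num)
  refine ⟨min (c₀ / 2) (1 / √(8 * C)), lt_min (by positivity) (by positivity), ?_⟩
  intro J hJ
  have hJ' : (2 : ℝ) ≤ J := by exact_mod_cast hJ
  have hJ0 : (0 : ℝ) < J := by linarith
  have hlJ : 0 < Real.log J := Real.log_pos (by linarith)
  obtain ⟨v, hv⟩ := LI.exists_comb J
  set r := Module.finrank ℚ ((Fin (J+1) → ℚ) ⧸ LI.Rel J) with hr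
  have hr1 : 1 ≤ r := by
    have hne : LI.Rel J ≠ ⊤ := by
      intro h
      apply single_not_rel J
      rw [h]
      trivial
    have : Nontrivial ((Fin (J+1) → ℚ) ⧸ LI.Rel J) := Submodule.Quotient.nontrivial_iff.2 hne
    exact Module.finrank_pos
  have hr1' : (1 : ℝ) ≤ r := by exact_mod_cast hr1
  have hsq0 : 0 ≤ √((J : ℝ) / Real.log J) := Real.sqrt_nonneg _
  by_cases hD : ((r : ℝ) + 1) ≤ c₀ * J
  · -- the main case
    obtain ⟨x₁, hx₁⟩ := hv (1 / 8) (by norm_num)
    obtain ⟨B, hB⟩ : ∃ B : ℕ, ∀ i < r + 1, ∀ g ∈ Finset.Icc 1 J, (|v i g|).toNat ≤ B := by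
      refine ⟨∑ i ∈ Finset.range (r + 1), ∑ g ∈ Finset.Icc 1 J, (|v i g|).toNat, ?_⟩
      intro i hi g hg
      exact le_trans (Finset.single_le_sum (f := fun g => (|v i g|).toNat) (fun _ _ => Nat.zero_le _) hg)
        (Finset.single_le_sum (f := fun i => ∑ g ∈ Finset.Icc 1 J, (|v i g|).toNat)
          (fun _ _ => Nat.zero_le _) (Finset.mem_range.2 hi))
    have key : 1 / 2 ≤ C * ((r + 1) ^ 2 * (Real.log J / J)) := by
      set x := max 16 (max x₁ (max (J ^ 3) (J * B))) with hx
      have hx16 : 16 ≤ x := le_max_left _ _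
      have hxx₁ : x₁ ≤ x := (le_max_left _ _).trans (le_max_right _ _)
      have hxJ3 : J ^ 3 ≤ x := (le_max_left _ _).trans ((le_max_right _ _).trans (le_max_right _ _))
      have hxJB : J * B ≤ x := (le_max_right _ _).trans ((le_max_right _ _).trans (le_max_right _ _))
      have hx' : (16 : ℝ) ≤ x := by exact_mod_cast hx16
      have hlx : 0 < Real.log x := Real.log_pos (by linarith)
      have hX : 0 < (x : ℝ) / Real.log x := by positivity
      have h1 := hx₁ x hxx₁
      have h2 := hcount J (r + 1) 0 0 x v (by omega)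
        (by push_cast; linarith)
        (by
          have e : (1 + (r + 1) * (0 + 0)) = 1 := by ring
          rw [e, one_pow, mul_one]
          exact hxJ3)
        (by
          intro i hi g hg
          have h3 := hB i hi g hg
          have h4 : (|v i g| : ℤ) = ((|v i g|).toNat : ℤ) := (Int.toNat_of_nonneg (abs_nonneg _)).symm
          have h5 : (|(v i g : ℝ)|) = (((|v i g|).toNat : ℕ) : ℝ) := by
            rw [← Int.cast_abs, h4]
            norm_cast
          have h5' : ((|v i g| : ℤ) : ℝ) = (((|v i g|).toNat : ℕ) : ℝ) := by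
            rw [Int.cast_abs]
            exact h5
          have h6 : (((|v i g|).toNat : ℕ) : ℝ) ≤ B := by exact_mod_cast h3
          have h7 : (B : ℝ) ≤ x / J := by
            rw [le_div_iff₀ hJ0]
            have : ((J * B : ℕ) : ℝ) ≤ x := by exact_mod_cast hxJB
            push_cast at this
            linarith
          have h8 := Real.add_one_le_exp ((x : ℝ) / J)
          first
            | exact (h5'.le.trans h6).trans (h7.trans (by linarith))
            | exact (h5.le.trans h6).trans (h7.trans (by linarith)))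
      have h3 := BB.primeCounting_ge hx16
      have h4 : (open Classical in ((Finset.Icc 1 x).filter (fun p : ℕ => p.Prime ∧ ∃ lam : ℕ → ℤ,
          ∀ g ∈ Finset.Icc 1 J, (p : ℤ) ∣ (_root_.bernoulli (p - 1 - 2 * g) -
            ((LI.comb r v lam g : ℤ) : ℚ)).num)).card : ℝ) ≤
          (open Classical in ((Finset.Icc 1 x).filter (fun p : ℕ => p.Prime ∧
      ∃ (lam : ℕ → ℤ) (q : ℕ → Polynomial ℤ) (a b : ℕ → ℕ),
      (∀ i ≤ 0, (q i).natDegree ≤ 0) ∧ (∃ i ≤ 0, ∃ n, ¬ (p : ℤ) ∣ (q i).coeff n) ∧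
      ((r + 1 : ℕ) : ℝ) * ∑ i ∈ Finset.range 0, ((b i - a i : ℕ) : ℝ) ≤ c₀ * J ∧
      ∀ g : ℕ, c₀ * J ≤ ((r + 1 : ℕ) : ℝ) * g → g + 0 ≤ J → (∀ i < 0, g ∉ Finset.Ico (a i) (b i)) →
        (p : ℤ) ∣ (∑ i ∈ Finset.range (0 + 1), (((q i).eval (g : ℤ) : ℤ) : ℚ) *
          (_root_.bernoulli (p - 1 - 2 * (g + i)) -
            ∑ l ∈ Finset.range (r + 1), (lam l : ℚ) * v l (g + i))).num)).card : ℝ) := by
        classical
        have hsub : (Finset.Icc 1 x).filter (fun p : ℕ => p.Prime ∧ ∃ lam : ℕ → ℤ,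
          ∀ g ∈ Finset.Icc 1 J, (p : ℤ) ∣ (_root_.bernoulli (p - 1 - 2 * g) -
            ((LI.comb r v lam g : ℤ) : ℚ)).num) ⊆
            (Finset.Icc 1 x).filter (fun p : ℕ => p.Prime ∧
      ∃ (lam : ℕ → ℤ) (q : ℕ → Polynomial ℤ) (a b : ℕ → ℕ),
      (∀ i ≤ 0, (q i).natDegree ≤ 0) ∧ (∃ i ≤ 0, ∃ n, ¬ (p : ℤ) ∣ (q i).coeff n) ∧
      ((r + 1 : ℕ) : ℝ) * ∑ i ∈ Finset.range 0, ((b i - a i : ℕ) : ℝ) ≤ c₀ * J ∧
      ∀ g : ℕ, c₀ * J ≤ ((r + 1 : ℕ) : ℝ) * g → g + 0 ≤ J → (∀ i < 0, g ∉ Finset.Ico (a i) (b i)) →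
        (p : ℤ) ∣ (∑ i ∈ Finset.range (0 + 1), (((q i).eval (g : ℤ) : ℤ) : ℚ) *
          (_root_.bernoulli (p - 1 - 2 * (g + i)) -
            ∑ l ∈ Finset.range (r + 1), (lam l : ℚ) * v l (g + i))).num) := by
          intro p hp
          rw [Finset.mem_filter] at hp ⊢
          obtain ⟨hp1, hpp, lam, hlam⟩ := hp
          refine ⟨hp1, hpp, fun i => if i = 0 then 1 else lam (i - 1), fun _ => 1, fun _ => 0, fun _ => 0,
            fun i _ => by simp, ⟨0, le_rfl, 0, ?_⟩, ?_, ?_⟩
          · rw [Polynomial.coeff_one_zero]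
            intro h
            have h6 : p ∣ 1 := by exact_mod_cast h
            exact hpp.one_lt.ne' (Nat.dvd_one.1 h6)
          · simp only [Finset.range_zero, Finset.sum_empty, mul_zero]
            positivity
          · intro g hg hgJ _
            have hg1 : 1 ≤ g := by
              by_contra hcon
              have h0 : g = 0 := by omega
              rw [h0] at hg
              simp only [Nat.cast_zero, mul_zero] at hg
              have : 0 < c₀ * J := by positivity
              linarith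
            have h7 := hlam g (Finset.mem_Icc.2 ⟨hg1, by omega⟩)
            have h8 : ∑ l ∈ Finset.range (r + 1), (((if l = 0 then 1 else lam (l - 1) : ℤ)) : ℚ) * v l (g + 0) =
                ((LI.comb r v lam g : ℤ) : ℚ) := by
              rw [Finset.sum_range_succ']
              unfold LI.comb
              push_cast
              simp
              ring
            simp only [zero_add, Finset.range_one, Finset.sum_singleton, Polynomial.eval_one, Int.cast_one,
              one_mul]
            rw [h8]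
            simpa using h7
        exact_mod_cast Finset.card_le_card hsub
      have h5 := h4.trans h2
      have h6 : (((Finset.Icc 1 x).filter (fun p : ℕ => p.Prime)).card : ℝ) = Nat.primeCounting x := by
        rw [card_primes_eq]
      rw [h6] at h1
      have hπ : (0 : ℝ) < Nat.primeCounting x := by linarith
      have h7 : (1 / 2) * (Nat.primeCounting x : ℝ) ≤
          (C * ((r + 1) ^ 2 * (Real.log J / J))) * Nat.primeCounting x := by
        have h8 : C * ((((r + 1 : ℕ) : ℝ)) ^ 2 * (1 + (((r + 1 : ℕ) : ℝ)) * (((0 : ℕ) : ℝ) + ((0 : ℕ) : ℝ))) *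
            (Real.log J / J)) * Nat.primeCounting x =
            (C * ((r + 1) ^ 2 * (Real.log J / J))) * Nat.primeCounting x := by
          push_cast
          ring
        rw [h8] at h5
        linarith
      exact le_of_mul_le_mul_right h7 hπ
    have hs2 : √(8 * C) ^ 2 = 8 * C := Real.sq_sqrt (by positivity)
    have hJl : √((J : ℝ) / Real.log J) ^ 2 = J / Real.log J := Real.sq_sqrt (by positivity)
    have h1 : 1 / √(8 * C) * √(J / Real.log J) ≤ ((r : ℝ) + 1) / 2 := by
      rw [← pow_le_pow_iff_left₀ (by positivity) (by positivity) (two_ne_zero)]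
      rw [mul_pow, div_pow, div_pow, hJl, hs2, one_pow]
      rw [mul_div_assoc', mul_div_assoc', le_div_iff₀ hJ0] at key
      rw [one_div, inv_mul_eq_div, div_div, div_le_div_iff₀ (by positivity) (by norm_num)]
      linarith
    have h2 := mul_le_mul_of_nonneg_right (min_le_right (c₀ / 2) (1 / √(8 * C))) hsq0
    linarith
  · push Not at hD
    have h1 : √((J : ℝ) / Real.log J) ≤ J := by
      rw [Real.sqrt_le_left (by positivity), div_le_iff₀ hlJ]
      have h2 : Real.log 2 ≤ Real.log J := Real.log_le_log (by norm_num) hJ'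
      have h3 := Real.log_two_gt_d9
      nlinarith
    have h2 := mul_le_mul (min_le_left (c₀ / 2) (1 / √(8 * C))) h1 hsq0 (by positivity)
    linarith

end MP_a3a416_nt.HK
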