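import Pool.Agent.Lib.MP_a3a416_nt.HK.Main
import Pool.Agent.Lib.MP_a3a416_nt.HK.BadRec
import Pool.Agent.Lib.MP_a3a416_nt.BB.FinalAux

/-!
# HK-Final
THEOREM P with exceptional intervals.
PROOF.  As `HJ/Count.lean`: `r = D`, `v' 0 = 0`, `v' (l+1) = v l`, `R = D+1`; `A = 160 R (s+d) + 1`, `S = 2J/(17A)` (natural division), `g₀ = ⌈c J / D⌉`, `c = 10^(-6)`, `μ = 1 + D(s+d)`,
`δ = 2 s S + 2 d (A+S) + A + 2 G`, `G = g₀ + ∑ (b i - a i)`.
-/

namespace MP_a3a416_nt.HK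

open Polynomial MP_a3a416_nt.BB MP_a3a416_nt.LJ MP_a3a416_nt.HJ

/-- the family with the zero vector in front -/
private def vz (v : ℕ → ℕ → ℤ) : ℕ → ℕ → ℤ
  | 0, _ => 0
  | l + 1, g => v l g

/-- the parameters -/
private theorem params {J D s d x : ℕ} (hD : 1 ≤ D) (hJE : 1000000 * (D * (d + 1) * (1 + D * (s + d))) ≤ J)
    (hx : J ^ 3 ≤ x * (1 + D * (s + d)) ^ 2) :
    ∃ A S : ℕ, 1 ≤ A ∧ 160 * (D + 1) * (d + 1) ≤ S ∧
      (∀ G : ℕ, 1000000 * (D * G) ≤ 3 * J →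
        16 * (D + 1) * (2 * s * S + (d + d) * (A + S) + A + 2 * G) ≤ A * S) ∧
      TH A S + S + 2 * s ≤ 2 * J + 3 ∧ J ≤ 20 * (A * S) ∧ 3 * A * S ^ 3 ≤ x ∧
      J ≤ 17 * (A * S) ∧ A ≤ 320 * (1 + D * (s + d)) ∧ A * S ≤ J ∧ J ≤ x := by
  obtain ⟨μ, hμ⟩ : ∃ μ, μ = 1 + D * (s + d) := ⟨_, rfl⟩
  rw [← hμ] at hJE hx ⊢
  have hμ1 : 1 ≤ μ := by omega
  obtain ⟨E, hE⟩ : ∃ E, E = D * (d + 1) := ⟨_, rfl⟩
  rw [← hE] at hJE
  have hE1 : 1 ≤ E := by rw [hE]; exact Nat.mul_pos hD (by omega)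
  have hDE : D ≤ E := by rw [hE]; exact Nat.le_mul_of_pos_right _ (by omega)
  obtain ⟨A, hA⟩ : ∃ A, A = 160 * (D + 1) * (s + d) + 1 := ⟨_, rfl⟩
  have hRD : D + 1 ≤ 2 * D := by omega
  have hA320 : A ≤ 320 * μ := by
    have h1 : 160 * (D + 1) * (s + d) ≤ 160 * (2 * D) * (s + d) := by gcongr
    have h2 : 160 * (2 * D) * (s + d) = 320 * (D * (s + d)) := by ring
    omega
  have hμA : μ ≤ A := by
    have h1 : D * (s + d) ≤ (160 * (D + 1)) * (s + d) := Nat.mul_le_mul_right _ (by omega)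
    omega
  have hA1 : 1 ≤ A := by omega
  obtain ⟨S, hS⟩ : ∃ S, S = 2 * J / (17 * A) := ⟨_, rfl⟩
  have hS1 : 17 * A * S ≤ 2 * J := by rw [hS]; exact Nat.mul_div_le _ _
  have hS2 : 2 * J < 17 * A * (S + 1) := by rw [hS]; exact Nat.lt_mul_div_succ _ (by omega)
  have hSE : 320 * E ≤ S := by
    by_contra hcon
    have h1 : S + 1 ≤ 320 * E := by omega
    have h2 : 17 * A * (S + 1) ≤ 17 * (320 * μ) * (320 * E) :=
      Nat.mul_le_mul (Nat.mul_le_mul_left _ hA320) h1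
    have h3 : 17 * (320 * μ) * (320 * E) = 1740800 * (E * μ) := by ring
    omega
  have hS160 : 160 * (D + 1) * (d + 1) ≤ S := by
    calc 160 * (D + 1) * (d + 1) ≤ 160 * (2 * D) * (d + 1) := by gcongr
      _ = 320 * E := by rw [hE]; ring
      _ ≤ S := hSE
  have hS320 : 320 ≤ S := by omega
  have hAS1 : 17 * (A * S) ≤ 2 * J := by rw [← mul_assoc]; exact hS1
  have hAS2 : 2 * J < 17 * (A * S) + 17 * A := by
    calc 2 * J < 17 * A * (S + 1) := hS2
      _ = 17 * (A * S) + 17 * A := by ring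
  have hASA : 320 * A ≤ A * S := by
    calc 320 * A ≤ S * A := Nat.mul_le_mul_right _ hS320
      _ = A * S := by ring
  have hJ17 : J ≤ 17 * (A * S) := by omega
  have hSAS : S ≤ A * S := Nat.le_mul_of_pos_left _ (by omega)
  have hsA : s ≤ A := by
    have h1 : s ≤ 160 * (D + 1) * (s + d) := by
      calc s ≤ s + d := Nat.le_add_right _ _
        _ ≤ (160 * (D + 1)) * (s + d) := Nat.le_mul_of_pos_left _ (by omega)
    omega
  refine ⟨A, S, hA1, hS160, ?_, ?_, by omega, ?_, hJ17, hA320, by omega, ?_⟩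
  · intro G hG
    -- five terms
    have e1 : 5 * (16 * (D + 1) * (2 * s * S + 2 * d * S)) ≤ A * S := by
      calc 5 * (16 * (D + 1) * (2 * s * S + 2 * d * S)) = (160 * (D + 1) * (s + d)) * S := by ring
        _ ≤ A * S := Nat.mul_le_mul_right _ (by omega)
    have e2 : 5 * (16 * (D + 1) * (2 * d * A)) ≤ A * S := by
      calc 5 * (16 * (D + 1) * (2 * d * A)) = A * (160 * (D + 1) * d) := by ring
        _ ≤ A * (160 * (D + 1) * (d + 1)) := by gcongr; omega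
        _ ≤ A * S := Nat.mul_le_mul_left _ hS160
    have e3 : 5 * (16 * (D + 1) * A) ≤ A * S := by
      calc 5 * (16 * (D + 1) * A) = A * (80 * (D + 1)) := by ring
        _ ≤ A * (160 * (D + 1) * (d + 1)) := Nat.mul_le_mul_left A (by
            calc 80 * (D + 1) ≤ 160 * (D + 1) := by omega
              _ ≤ 160 * (D + 1) * (d + 1) := Nat.le_mul_of_pos_right _ (by omega))
        _ ≤ A * S := Nat.mul_le_mul_left _ hS160
    have e4 : 5 * (16 * (D + 1) * (2 * G)) ≤ A * S := by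
      have h1 : 5 * (16 * (D + 1) * (2 * G)) ≤ 5 * (16 * (2 * D) * (2 * G)) := by gcongr
      have h2 : 5 * (16 * (2 * D) * (2 * G)) = 320 * (D * G) := by ring
      omega
    have e5 : 16 * (D + 1) * (2 * s * S + (d + d) * (A + S) + A + 2 * G) =
        16 * (D + 1) * (2 * s * S + 2 * d * S) + 16 * (D + 1) * (2 * d * A) + 16 * (D + 1) * A +
          16 * (D + 1) * (2 * G) := by ring
    rw [e5]
    omega
  · unfold TH
    omega
  · have h1 : (17 * (A * S)) ^ 3 ≤ (2 * J) ^ 3 := Nat.pow_le_pow_left hAS1 3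
    have h2 : (2 * J) ^ 3 = 8 * J ^ 3 := by ring
    have h3 : x * μ ^ 2 ≤ x * A ^ 2 :=
      Nat.mul_le_mul_left _ (Nat.pow_le_pow_left hμA 2)
    have h4 : (4913 * (A * S ^ 3)) * A ^ 2 ≤ (8 * x) * A ^ 2 := by
      calc (4913 * (A * S ^ 3)) * A ^ 2 = (17 * (A * S)) ^ 3 := by ring
        _ ≤ 8 * J ^ 3 := by omega
        _ ≤ 8 * (x * A ^ 2) := by omega
        _ = (8 * x) * A ^ 2 := by ring
    have h5 := Nat.le_of_mul_le_mul_right h4 (by positivity)
    have h6 : 3 * A * S ^ 3 = 3 * (A * S ^ 3) := by ring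
    omega
  · -- J ≤ x
    have hμJ : μ ≤ J := by
      have : μ ≤ E * μ := Nat.le_mul_of_pos_left _ hE1
      omega
    have h1 : x * μ ^ 2 ≤ x * J ^ 2 := Nat.mul_le_mul_left _ (Nat.pow_le_pow_left hμJ 2)
    have h2 : J * J ^ 2 ≤ x * J ^ 2 := by
      calc J * J ^ 2 = J ^ 3 := by ring
        _ ≤ x * J ^ 2 := hx.trans h1
    have hJ1 : 0 < J ^ 2 := by
      have : 1 ≤ J := by omega
      positivity
    exact Nat.le_of_mul_le_mul_right h2 hJ1

open Classical in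
theorem theorem_PI : ∃ c C : ℝ, 0 < c ∧ 0 < C ∧ ∀ (J D s d x : ℕ) (v : ℕ → ℕ → ℤ), 1 ≤ D →
    (D * (d + 1) * (1 + D * (s + d)) : ℝ) ≤ c * J → J ^ 3 ≤ x * (1 + D * (s + d)) ^ 2 →
    (∀ i < D, ∀ g ∈ Finset.Icc 1 J, (|v i g| : ℝ) ≤ Real.exp (x / J)) →
    (((Finset.Icc 1 x).filter (fun p : ℕ => p.Prime ∧
      ∃ (lam : ℕ → ℤ) (q : ℕ → ℤ[X]) (a b : ℕ → ℕ),
      (∀ i ≤ s, (q i).natDegree ≤ d) ∧ (∃ i ≤ s, ∃ n, ¬ (p : ℤ) ∣ (q i).coeff n) ∧
      D * ∑ i ∈ Finset.range d, ((b i - a i : ℕ) : ℝ) ≤ c * J ∧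
      ∀ g : ℕ, c * J ≤ D * g → g + s ≤ J → (∀ i < d, g ∉ Finset.Ico (a i) (b i)) →
        (p : ℤ) ∣ (∑ i ∈ Finset.range (s + 1), (((q i).eval (g : ℤ) : ℤ) : ℚ) *
          (_root_.bernoulli (p - 1 - 2 * (g + i)) -
            ∑ l ∈ Finset.range D, (lam l : ℚ) * v l (g + i))).num)).card : ℝ) ≤
      C * (D ^ 2 * (1 + D * (s + d)) * (Real.log J / J)) * Nat.primeCounting x := by
  obtain ⟨C₁, hC₁, hmain⟩ := main_k
  refine ⟨1 / 1000000, 8 + 4 * (2 * C₁ * (4 * 5440 * 3)), by norm_num, by positivity, ?_⟩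
  intro J D s d x v hD hc hx hv
  have hD' : (1 : ℝ) ≤ D := by exact_mod_cast hD
  have hd0 : (0 : ℝ) ≤ d := by positivity
  have hs0 : (0 : ℝ) ≤ s := by positivity
  -- J is large
  have hJE : 1000000 * (D * (d + 1) * (1 + D * (s + d))) ≤ J := by
    have h1 : ((1000000 * (D * (d + 1) * (1 + D * (s + d))) : ℕ) : ℝ) ≤ (J : ℝ) := by
      push_cast
      linarith
    exact_mod_cast h1
  obtain ⟨A, S, hA1, hS160, hk, hTH, hJ20, h3A, hJ17, hA320, hASJ, hJx⟩ := params hD hJE hx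
  have hE1 : 1 ≤ D * (d + 1) * (1 + D * (s + d)) := Nat.one_le_iff_ne_zero.2 (by positivity)
  have hJbig : 1000000 ≤ J := by omega
  have hJbig' : (1000000 : ℝ) ≤ J := by exact_mod_cast hJbig
  have hx16 : 16 ≤ x := by omega
  have hx16' : (16 : ℝ) ≤ x := by exact_mod_cast hx16
  have hlx : 0 < Real.log x := Real.log_pos (by linarith)
  have hl2 := Real.log_two_gt_d9
  have hlJ : Real.log 2 ≤ Real.log J := Real.log_le_log (by norm_num) (by linarith)
  have hlJ0 : 0 < Real.log J := by linarith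
  have hJ0 : (0 : ℝ) < J := by linarith
  have hS64 : 32 * (D + 1) ≤ S := by
    calc 32 * (D + 1) ≤ 160 * (D + 1) := by omega
      _ ≤ 160 * (D + 1) * (d + 1) := Nat.le_mul_of_pos_right _ (by omega)
      _ ≤ S := hS160
  have hdS : d < S := by
    calc d < d + 1 := Nat.lt_succ_self d
      _ ≤ 160 * (D + 1) * (d + 1) := Nat.le_mul_of_pos_left _ (by omega)
      _ ≤ S := hS160
  have hSJ : S ≤ J := (Nat.le_mul_of_pos_left _ (by omega)).trans hASJ
  have hS0 : (0 : ℝ) < S := by exact_mod_cast (by omega : 0 < S)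
  have hA0 : (0 : ℝ) < A := by exact_mod_cast hA1
  -- the bound for `G`
  obtain ⟨g₀, hg₀⟩ : ∃ g₀ : ℕ, g₀ = ⌈(1 / 1000000 : ℝ) * J / D⌉₊ := ⟨_, rfl⟩
  have hg₀1 : 1 ≤ g₀ := by
    rw [hg₀, Nat.one_le_ceil_iff]
    positivity
  have hDg₀ : ∀ g, g₀ ≤ g → (1 / 1000000 : ℝ) * J ≤ D * g := by
    intro g hg
    have h1 : (1 / 1000000 : ℝ) * J / D ≤ g₀ := by rw [hg₀]; exact Nat.le_ceil _
    have h2 : (g₀ : ℝ) ≤ g := by exact_mod_cast hg
    have h3 := h1.trans h2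
    rw [div_le_iff₀ (by linarith)] at h3
    linarith
  obtain ⟨G, hG⟩ : ∃ G : ℕ, G = 3 * J / (1000000 * D) := ⟨_, rfl⟩
  have hG1 : 1000000 * (D * G) ≤ 3 * J := by
    rw [hG, ← mul_assoc]; exact Nat.mul_div_le _ _
  have hGle : ∀ L : ℕ, (D : ℝ) * L ≤ (1 / 1000000 : ℝ) * J → g₀ + L ≤ G := by
    intro L hL
    rw [hG, Nat.le_div_iff_mul_le (by positivity)]
    have h1 : (g₀ : ℝ) < (1 / 1000000 : ℝ) * J / D + 1 := by
      rw [hg₀]; exact Nat.ceil_lt_add_one (by positivity)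
    have h2 : (D : ℝ) * g₀ ≤ (1 / 1000000 : ℝ) * J + D := by
      have h3 : (D : ℝ) * g₀ ≤ D * ((1 / 1000000 : ℝ) * J / D + 1) :=
        mul_le_mul_of_nonneg_left h1.le (by linarith)
      have h4 : (D : ℝ) * ((1 / 1000000 : ℝ) * J / D + 1) = (1 / 1000000 : ℝ) * J + D := by
        field_simp
      linarith
    have h5 : (1000000 : ℝ) * D ≤ J := by
      have h6 : 1000000 * D ≤ J := by
        have h7 : D ≤ D * (d + 1) * (1 + D * (s + d)) := by
          rw [mul_assoc]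
          exact Nat.le_mul_of_pos_right _ (by positivity)
        omega
      exact_mod_cast h6
    have h8 : (((g₀ + L) * (1000000 * D) : ℕ) : ℝ) ≤ ((3 * J : ℕ) : ℝ) := by
      push_cast
      nlinarith
    exact_mod_cast h8
  obtain ⟨δ, hδ⟩ : ∃ δ, δ = 2 * s * S + (d + d) * (A + S) + A + 2 * G := ⟨_, rfl⟩
  -- the main proposition
  have hm := hmain A S J D δ x (vz v) hA1 hS64 (by rw [hδ]; exact hk G hG1) (by omega) hJ20 h3A (by
    intro l hl g hg
    rcases l with _ | l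
    · simp [vz, Real.exp_nonneg]
    · exact hv l (by omega) g hg)
  set B := (Finset.Icc 1 x).filter (fun p : ℕ => p.Prime ∧
      ∃ (lam : ℕ → ℤ) (q : ℕ → ℤ[X]) (a b : ℕ → ℕ),
      (∀ i ≤ s, (q i).natDegree ≤ d) ∧ (∃ i ≤ s, ∃ n, ¬ (p : ℤ) ∣ (q i).coeff n) ∧
      (D : ℝ) * ∑ i ∈ Finset.range d, ((b i - a i : ℕ) : ℝ) ≤ (1 / 1000000 : ℝ) * J ∧
      ∀ g : ℕ, (1 / 1000000 : ℝ) * J ≤ D * g → g + s ≤ J → (∀ i < d, g ∉ Finset.Ico (a i) (b i)) →
        (p : ℤ) ∣ (∑ i ∈ Finset.range (s + 1), (((q i).eval (g : ℤ) : ℤ) : ℚ) *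
          (_root_.bernoulli (p - 1 - 2 * (g + i)) -
            ∑ l ∈ Finset.range D, (lam l : ℚ) * v l (g + i))).num)
    with hB
  have hBsub : B ⊆ (Finset.Icc 1 x).filter
      (fun p : ℕ => p.Prime ∧ ∃ lam : ℕ → ℤ,
        (2 * J + 5 < p → BadD A S (TH A S) J D δ (vz v) lam p)) := by
    intro p hp
    rw [hB, Finset.mem_filter] at hp
    rw [Finset.mem_filter]
    obtain ⟨h1, h2, lam, q, a, b, hq, hq0, hab, hrec⟩ := hp
    refine ⟨h1, h2, lam, fun hpJ => ?_⟩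
    have h4 : ∀ g, ((LI.comb D (vz v) lam g : ℤ) : ℚ) =
        ∑ i ∈ Finset.range D, (lam i : ℚ) * v i g := by
      intro g
      unfold LI.comb
      push_cast
      simp [vz]
    have h5 := bad_of_rec p h2 A S (TH A S) s d g₀ J D d a b (vz v) lam q hpJ (by omega) hA1 hdS hg₀1
      hTH hq hq0 (by
        intro g hg1 hg2 hg3
        have h6 := hrec g (hDg₀ g hg1) hg2 hg3
        simp only [h4]
        exact h6)
    obtain ⟨β, hβ, W, hW1, hW2⟩ := h5
    refine ⟨β, hβ, W, hW1.trans (Nat.pow_le_pow_right h2.pos ?_), hW2⟩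
    have h7 := hGle (∑ i ∈ Finset.range d, (b i - a i)) (by push_cast; exact hab)
    rw [hδ]
    omega
  have hsum : ∑ p ∈ B, Real.log p ≤ C₁ * (((D : ℝ) + 1) ^ 2 * ((1 + Real.log (A * S)) / S) * x) := by
    refine (Finset.sum_le_sum_of_subset_of_nonneg hBsub ?_).trans hm
    intro p hp _
    have hp1 := (Finset.mem_Icc.1 (Finset.mem_filter.1 hp).1).1
    exact Real.log_nonneg (by exact_mod_cast hp1)
  have hcount := count_le_of_sum_log (by omega) B (Finset.filter_subset _ _) hsum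
  have hcheb := primeCounting_ge hx16
  have hxl : 0 ≤ (x : ℝ) / Real.log x := by positivity
  have hLJ : 0 < Real.log J / J := by positivity
  obtain ⟨μ, hμ⟩ : ∃ μ : ℝ, μ = 1 + D * (s + d) := ⟨_, rfl⟩
  have hμ1 : (1 : ℝ) ≤ μ := by
    have : (0 : ℝ) ≤ D * (s + d) := by positivity
    rw [hμ]; linarith
  have hx' : (J : ℝ) ^ 3 ≤ x * μ ^ 2 := by rw [hμ]; exact_mod_cast hx
  rw [← hμ]
  -- the term `√x`
  have h1 : √(x : ℝ) ≤ 2 * (μ * (Real.log J / J * (x / Real.log x))) := by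
    have hsx : √(x : ℝ) * √(x : ℝ) = x := Real.mul_self_sqrt (by positivity)
    have hs0 : 0 < √(x : ℝ) := Real.sqrt_pos.2 (by linarith)
    rcases le_total ((J : ℝ)) √(x : ℝ) with hJs | hJs
    · have hexp : Real.exp 1 ≤ J := by
        have := Real.exp_one_lt_d9
        linarith
      have h2 := Real.log_div_self_antitoneOn hexp (hexp.trans hJs) hJs
      simp only at h2
      have h3 : Real.log (√(x : ℝ)) = Real.log x / 2 := Real.log_sqrt (by positivity)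
      rw [h3] at h2
      have h4 : Real.log x / 2 / √(x : ℝ) * (x / Real.log x) = √(x : ℝ) / 2 := by
        field_simp
        nlinarith
      have h5 := mul_le_mul_of_nonneg_right h2 hxl
      rw [h4] at h5
      have h6 : Real.log J / J * (x / Real.log x) ≤ μ * (Real.log J / J * (x / Real.log x)) :=
        le_mul_of_one_le_left (by positivity) hμ1
      linarith
    · -- `√x ≤ J`, `log x ≤ 2 log J`, `J^3 ≤ x μ^2`
      have h2 : Real.log x ≤ 2 * Real.log J := by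
        have h3 : (x : ℝ) ≤ (J : ℝ) ^ 2 := by
          have := mul_le_mul hJs hJs hs0.le hJ0.le
          nlinarith
        have h4 := Real.log_le_log (by linarith : (0:ℝ) < x) h3
        rw [Real.log_pow] at h4
        exact_mod_cast h4
      have h5 : (J : ℝ) ≤ √(x : ℝ) * μ := by
        have h6 : (J : ℝ) ^ 2 ≤ (√(x : ℝ) * μ) ^ 2 := by
          have h7 : (√(x : ℝ) * μ) ^ 2 = x * μ ^ 2 := by
            rw [mul_pow, Real.sq_sqrt (by positivity)]
          rw [h7]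
          refine le_trans ?_ hx'
          exact pow_le_pow_right₀ (by linarith) (by norm_num)
        exact le_of_sq_le_sq h6 (by positivity)
      have h8 : √(x : ℝ) * (J * Real.log x) ≤ 2 * (μ * (Real.log J * x)) := by
        calc √(x : ℝ) * (J * Real.log x) ≤ √(x : ℝ) * ((√(x : ℝ) * μ) * (2 * Real.log J)) := by
              gcongr
          _ = 2 * (μ * (Real.log J * (√(x : ℝ) * √(x : ℝ)))) := by ring
          _ = 2 * (μ * (Real.log J * x)) := by rw [hsx]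
      have h9 : 2 * (μ * (Real.log J / J * (x / Real.log x))) =
          2 * (μ * (Real.log J * x)) / (J * Real.log x) := by
        field_simp
      rw [h9, le_div_iff₀ (by positivity)]
      exact h8
  -- the main term
  have h2 : ((D : ℝ) + 1) ^ 2 * ((1 + Real.log (A * S)) / S) ≤
      (4 * 5440 * 3) * (D ^ 2 * μ * (Real.log J / J)) := by
    have hAS0 : (0 : ℝ) < A * S := by positivity
    have h3 : Real.log (A * S) ≤ Real.log J := Real.log_le_log hAS0 (by exact_mod_cast hASJ)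
    have h4 : 1 + Real.log (A * S) ≤ 3 * Real.log J := by linarith
    have h5 : ((D : ℝ) + 1) ^ 2 ≤ 4 * D ^ 2 := by nlinarith
    have h6 : (1 : ℝ) / S ≤ 5440 * μ / J := by
      rw [div_le_div_iff₀ hS0 hJ0, one_mul]
      have h7 : (J : ℝ) ≤ 17 * (A * S) := by exact_mod_cast hJ17
      have h8 : (A : ℝ) ≤ 320 * μ := by rw [hμ]; exact_mod_cast hA320
      calc (J : ℝ) ≤ 17 * (A * S) := h7
        _ ≤ 17 * ((320 * μ) * S) := by gcongr
        _ = 5440 * μ * S := by ring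
    have h0 : 0 ≤ 1 + Real.log (A * S) := by
      have : (1 : ℝ) ≤ A * S := by
        have h9 : 1 ≤ A * S := Nat.mul_pos hA1 (by omega)
        exact_mod_cast h9
      have := Real.log_nonneg this
      linarith
    calc ((D : ℝ) + 1) ^ 2 * ((1 + Real.log (A * S)) / S)
        = ((D : ℝ) + 1) ^ 2 * ((1 + Real.log (A * S)) * (1 / S)) := by ring
      _ ≤ (4 * D ^ 2) * ((3 * Real.log J) * (5440 * μ / J)) := by
          apply mul_le_mul h5 _ (by positivity) (by positivity)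
          exact mul_le_mul h4 h6 (by positivity) (by positivity)
      _ = (4 * 5440 * 3) * (D ^ 2 * μ * (Real.log J / J)) := by ring
  obtain ⟨Γ, hΓ⟩ : ∃ Γ : ℝ, Γ = D ^ 2 * μ * (Real.log J / J) := ⟨_, rfl⟩
  rw [← hΓ] at h2 ⊢
  have hΓ0 : μ * (Real.log J / J) ≤ Γ := by
    rw [hΓ, mul_assoc]
    exact le_mul_of_one_le_left (by positivity) (by nlinarith)
  have hΓp : 0 ≤ Γ := le_trans (by positivity) hΓ0
  have h3 : 2 * (C₁ * (((D : ℝ) + 1) ^ 2 * ((1 + Real.log (A * S)) / S) * x)) / Real.log x ≤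
      2 * C₁ * (4 * 5440 * 3) * Γ * (x / Real.log x) := by
    have h4 : 2 * (C₁ * (((D : ℝ) + 1) ^ 2 * ((1 + Real.log (A * S)) / S) * x)) / Real.log x =
        2 * C₁ * (x / Real.log x) * (((D : ℝ) + 1) ^ 2 * ((1 + Real.log (A * S)) / S)) := by ring
    rw [h4]
    calc 2 * C₁ * ((x : ℝ) / Real.log x) * (((D : ℝ) + 1) ^ 2 * ((1 + Real.log (A * S)) / S))
        ≤ 2 * C₁ * (x / Real.log x) * ((4 * 5440 * 3) * Γ) :=
          mul_le_mul_of_nonneg_left h2 (by positivity)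
      _ = 2 * C₁ * (4 * 5440 * 3) * Γ * (x / Real.log x) := by ring
  have h4 : √(x : ℝ) ≤ 2 * (Γ * (x / Real.log x)) := by
    have h5 := mul_le_mul_of_nonneg_right hΓ0 hxl
    have h6 : μ * (Real.log J / J) * (x / Real.log x) = μ * (Real.log J / J * (x / Real.log x)) := by
      ring
    linarith
  calc (B.card : ℝ) ≤ √x +
        2 * (C₁ * (((D : ℝ) + 1) ^ 2 * ((1 + Real.log (A * S)) / S) * x)) / Real.log x := hcount
    _ ≤ 2 * (Γ * (x / Real.log x)) + 2 * C₁ * (4 * 5440 * 3) * Γ * (x / Real.log x) :=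
        add_le_add h4 h3
    _ = (2 + 2 * C₁ * (4 * 5440 * 3)) * Γ * (x / Real.log x) := by ring
    _ ≤ (2 + 2 * C₁ * (4 * 5440 * 3)) * Γ * (4 * Nat.primeCounting x) :=
        mul_le_mul_of_nonneg_left hcheb (by positivity)
    _ = (8 + 4 * (2 * C₁ * (4 * 5440 * 3))) * Γ * Nat.primeCounting x := by ring

end MP_a3a416_nt.HK
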