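import Pool.Agent.Lib.MP_a3a416_nt.HK.Theta

/-!
# HK-Main
PROOF.  `N = 4(r+1)x/S + 1` (natural division), so `4(r+1)x ≤ SN`, `N ≤ 5(r+1)x/S` (as `S ≤ x`); the primes `p ≤ N` contribute `≤ θ(N) ≤ 2N`.
Conditions: `(AS+A+1)(S+6) ≤ 3AS * 2S ... < N` from `3 A S^3 ≤ x` (`(AS+A+1)(S+6) ≤ (2AS + 1)(S+6) ≤ 3 A S * (6/5) S < 4 A S²`), `2J+5 ≤ N` from `2J ≤ 18 A S` and `S ≥ 32`.
-/

namespace MP_a3a416_nt.HK

open Polynomial MP_a3a416_nt.BB MP_a3a416_nt.LJ MP_a3a416_nt.HJ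

open Classical in
theorem main_k : ∃ C : ℝ, 0 < C ∧ ∀ (A S J r δ x : ℕ) (v : ℕ → ℕ → ℤ), 1 ≤ A → 32 * (r + 1) ≤ S →
    16 * (r + 1) * δ ≤ A * S → TH A S + S ≤ 2 * J + 3 → J ≤ 20 * (A * S) → 3 * A * S ^ 3 ≤ x →
    (∀ l ≤ r, ∀ g ∈ Finset.Icc 1 J, (|v l g| : ℝ) ≤ Real.exp (x / J)) →
    ∑ p ∈ (Finset.Icc 1 x).filter (fun p : ℕ => p.Prime ∧ ∃ lam : ℕ → ℤ,
      (2 * J + 5 < p → BadD A S (TH A S) J r δ v lam p)), Real.log p ≤
      C * ((r + 1) ^ 2 * ((1 + Real.log (A * S)) / S) * x) := by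
  obtain ⟨C, hC, hth⟩ := theta_k
  refine ⟨5 * (2 + C), by positivity, ?_⟩
  intro A S J r δ x v hA hS hk hT hJ hx hv
  have hS32 : 32 ≤ S := by nlinarith
  have hS1 : 1 ≤ S := by omega
  have hAS1 : 1 ≤ A * S := Nat.mul_pos hA hS1
  have hAS' : (1 : ℝ) ≤ (A : ℝ) * S := by exact_mod_cast hAS1
  have hS' : (1 : ℝ) ≤ S := by exact_mod_cast hS1
  have hlS : 0 ≤ Real.log ((A : ℝ) * S) := Real.log_nonneg hAS'
  set N := 4 * (r + 1) * x / S + 1 with hN
  have hN1 : 4 * (r + 1) * x ≤ S * N := by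
    have h1 := Nat.lt_mul_div_succ (4 * (r + 1) * x) (by omega : 0 < S)
    exact h1.le
  have hAS3 : 3 * (A * S ^ 2) * S ≤ x := by
    calc 3 * (A * S ^ 2) * S = 3 * A * S ^ 3 := by ring
      _ ≤ x := hx
  have hxS : S ≤ x := by
    have h1 : 1 ≤ 3 * (A * S ^ 2) := Nat.mul_pos (by norm_num) (Nat.mul_pos hA (pow_pos (by omega) 2))
    exact (Nat.le_mul_of_pos_left S h1).trans hAS3
  -- `12 A S ^ 2 < N`
  have hNbig : 12 * (A * S ^ 2) < N := by
    have h1 : 12 * (A * S ^ 2) ≤ 4 * (r + 1) * x / S := by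
      rw [Nat.le_div_iff_mul_le (by omega)]
      calc 12 * (A * S ^ 2) * S = 4 * (3 * (A * S ^ 2) * S) := by ring
        _ ≤ 4 * x := Nat.mul_le_mul_left 4 hAS3
        _ ≤ 4 * (r + 1) * x := Nat.mul_le_mul_right x (by omega)
    omega
  have hAS2 : 32 * (A * S) ≤ A * S ^ 2 := by
    calc 32 * (A * S) ≤ S * (A * S) := Nat.mul_le_mul_right _ hS32
      _ = A * S ^ 2 := by ring
  have hc1 : (A * S + A + 1) * (S + 6) < N := by
    have h1 : A * S + A + 1 ≤ 2 * (A * S) := by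
      have h2 : 2 * A ≤ A * S := by
        calc 2 * A ≤ S * A := Nat.mul_le_mul_right _ (by omega)
          _ = A * S := by ring
      omega
    calc (A * S + A + 1) * (S + 6) ≤ 2 * (A * S) * (2 * S) := Nat.mul_le_mul h1 (by omega)
      _ = 4 * (A * S ^ 2) := by ring
      _ ≤ 12 * (A * S ^ 2) := by omega
      _ < N := hNbig
  have hc2 : 2 * J + 5 ≤ N := by omega
  have hN2 : (N : ℝ) ≤ 5 * ((r + 1) * (x / S)) := by
    have h1 : ((4 * (r + 1) * x / S : ℕ) : ℝ) ≤ ((4 * (r + 1) * x : ℕ) : ℝ) / S := Nat.cast_div_le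
    have h2 : (1 : ℝ) ≤ x / S := by
      rw [one_le_div (by linarith)]
      exact_mod_cast hxS
    have h3 : (0 : ℝ) ≤ r := by positivity
    rw [hN]
    push_cast at h1 ⊢
    have h4 : (4 : ℝ) * (r + 1) * x / S = 4 * ((r + 1) * (x / S)) := by ring
    rw [h4] at h1
    nlinarith
  -- the entries
  have hSJ : S ≤ J := by
    have h1 : TH A S = 5 * (A * S + A + 1) + A := rfl
    have h2 : S ≤ A * S := Nat.le_mul_of_pos_left S hA
    omega
  have hJ0 : (0 : ℝ) < J := by exact_mod_cast (by omega : 0 < J)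
  have hxJ : (x : ℝ) / J ≤ N / 4 := by
    have h1 : (x : ℝ) / J ≤ x / S := by
      apply div_le_div_of_nonneg_left (by positivity) (by linarith)
      exact_mod_cast hSJ
    have h2 : (x : ℝ) / S ≤ N / 4 := by
      rw [div_le_div_iff₀ (by linarith) (by norm_num)]
      have h3 : (4 : ℝ) * (r + 1) * x ≤ S * N := by exact_mod_cast hN1
      have h4 : (0 : ℝ) ≤ r := by positivity
      have h5 : (0 : ℝ) ≤ x := by positivity
      nlinarith
    exact h1.trans h2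
  have hN0 : (1 : ℝ) ≤ N := by exact_mod_cast (by omega : 1 ≤ N)
  have hV1 : ∀ l ≤ r, ∀ g ∈ Finset.Icc 1 J, |v l g| ≤ ((⌊Real.exp ((x : ℝ) / J)⌋₊ : ℕ) : ℤ) := by
    intro l hl g hg
    have h1 := hv l hl g hg
    have h2 : ((v l g).natAbs : ℝ) ≤ Real.exp ((x : ℝ) / J) := by
      rw [Nat.cast_natAbs]
      push_cast
      exact h1
    have h3 : (v l g).natAbs ≤ ⌊Real.exp ((x : ℝ) / J)⌋₊ := Nat.le_floor h2
    rw [Int.abs_eq_natAbs]
    exact_mod_cast h3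
  have hV2 : Real.log (1 + ((⌊Real.exp ((x : ℝ) / J)⌋₊ : ℕ) : ℝ)) ≤ 2 * N := by
    have h0 : (0 : ℝ) ≤ (x : ℝ) / J := by positivity
    have h1 : ((⌊Real.exp ((x : ℝ) / J)⌋₊ : ℕ) : ℝ) ≤ Real.exp ((x : ℝ) / J) :=
      Nat.floor_le (Real.exp_pos _).le
    have h2 : (1 : ℝ) ≤ Real.exp ((x : ℝ) / J) := Real.one_le_exp h0
    have h3 : 1 + ((⌊Real.exp ((x : ℝ) / J)⌋₊ : ℕ) : ℝ) ≤ Real.exp (1 + (x : ℝ) / J) := by
      rw [Real.exp_add]
      have h4 : (2 : ℝ) ≤ Real.exp 1 := by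
        have := Real.add_one_le_exp (1 : ℝ)
        linarith
      nlinarith
    calc Real.log (1 + ((⌊Real.exp ((x : ℝ) / J)⌋₊ : ℕ) : ℝ))
        ≤ Real.log (Real.exp (1 + (x : ℝ) / J)) := Real.log_le_log (by positivity) h3
      _ = 1 + (x : ℝ) / J := Real.log_exp _
      _ ≤ 2 * N := by linarith
  have hsplit : ∑ p ∈ (Finset.Icc 1 x).filter
      (fun p : ℕ => p.Prime ∧ ∃ lam : ℕ → ℤ, (2 * J + 5 < p → BadD A S (TH A S) J r δ v lam p)),
        Real.log p ≤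
      ∑ p ∈ (Finset.Icc 1 N).filter (fun p : ℕ => p.Prime), Real.log p +
      ∑ p ∈ (Finset.Icc (N + 1) x).filter
        (fun p : ℕ => p.Prime ∧ ∃ lam : ℕ → ℤ, BadD A S (TH A S) J r δ v lam p), Real.log p := by
    have hdisj : Disjoint ((Finset.Icc 1 N).filter (fun p : ℕ => p.Prime))
        ((Finset.Icc (N + 1) x).filter
          (fun p : ℕ => p.Prime ∧ ∃ lam : ℕ → ℤ, BadD A S (TH A S) J r δ v lam p)) := by
      rw [Finset.disjoint_left]
      intro p hp hp'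
      rw [Finset.mem_filter, Finset.mem_Icc] at hp hp'
      omega
    rw [← Finset.sum_union hdisj]
    apply Finset.sum_le_sum_of_subset_of_nonneg
    · intro p hp
      rw [Finset.mem_filter, Finset.mem_Icc] at hp
      rw [Finset.mem_union, Finset.mem_filter, Finset.mem_filter, Finset.mem_Icc, Finset.mem_Icc]
      by_cases h : p ≤ N
      · exact Or.inl ⟨⟨hp.1.1, h⟩, hp.2.1⟩
      · obtain ⟨lam, hlam⟩ := hp.2.2
        exact Or.inr ⟨⟨by omega, hp.1.2⟩, hp.2.1, lam, hlam (by omega)⟩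
    · intro p hp _
      have h1 : 1 < p := by
        rw [Finset.mem_union, Finset.mem_filter, Finset.mem_filter] at hp
        rcases hp with h | h
        · exact h.2.one_lt
        · exact h.2.1.one_lt
      exact Real.log_nonneg (by exact_mod_cast h1.le)
  have hAA : ∑ p ∈ (Finset.Icc 1 N).filter (fun p : ℕ => p.Prime), Real.log p ≤ 2 * N := by
    have h1 : ∑ p ∈ (Finset.Icc 1 N).filter (fun p : ℕ => p.Prime), Real.log p ≤
        Chebyshev.theta N := by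
      rw [Chebyshev.theta, Nat.floor_natCast]
      apply le_of_eq
      apply Finset.sum_congr _ (fun _ _ => rfl)
      ext p
      rw [Finset.mem_filter, Finset.mem_filter, Finset.mem_Icc, Finset.mem_Ioc]
      rfl
    have h2 : Chebyshev.theta N ≤ Real.log 4 * N := Chebyshev.theta_le_log4_mul_x (by positivity)
    have hl4 : Real.log 4 ≤ 2 := by
      rw [show (4 : ℝ) = 2 ^ 2 by norm_num, Real.log_pow]
      have := Real.log_two_lt_d9
      push_cast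
      linarith
    have h3 : (0 : ℝ) ≤ N := by positivity
    nlinarith
  have hB := hth A S N J r δ ⌊Real.exp ((x : ℝ) / J)⌋₊ x v hA hS hk hT hc1 hc2 hN1 hV1 hV2
  have h1 : 2 * (N : ℝ) ≤ 2 * ((r + 1) * (N * (1 + Real.log ((A : ℝ) * S)))) := by
    have h2 : (1 : ℝ) ≤ (r + 1) * (1 + Real.log ((A : ℝ) * S)) := by
      have h3 : (0 : ℝ) ≤ r := by positivity
      nlinarith
    have h4 : (0 : ℝ) ≤ N := by positivity
    nlinarith
  calc ∑ p ∈ (Finset.Icc 1 x).filter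
        (fun p : ℕ => p.Prime ∧ ∃ lam : ℕ → ℤ, (2 * J + 5 < p → BadD A S (TH A S) J r δ v lam p)),
          Real.log p
      ≤ 2 * ((r + 1) * (N * (1 + Real.log ((A : ℝ) * S)))) +
          C * ((r + 1) * (N * (1 + Real.log ((A : ℝ) * S)))) := by
        linarith
    _ = (2 + C) * ((r + 1) * (1 + Real.log ((A : ℝ) * S))) * N := by ring
    _ ≤ (2 + C) * ((r + 1) * (1 + Real.log ((A : ℝ) * S))) * (5 * ((r + 1) * (x / S))) :=
        mul_le_mul_of_nonneg_left hN2 (by positivity)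
    _ = 5 * (2 + C) * ((r + 1) ^ 2 * ((1 + Real.log ((A : ℝ) * S)) / S) * x) := by ring

end MP_a3a416_nt.HK
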