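import Pool.Agent.Lib.MP_a3a416_nt.HK.Final

/-!
Linear complexity of the last Bernoulli numbers modulo `p` (the case `D = 1`, `v = 0`, `d = 0` of `theorem_PI`).
-/

namespace MP_a3a416_nt.HK

open Classical in
theorem complexity_part : ∃ C : ℝ, 0 < C ∧ ∀ J s x : ℕ, 2 ≤ J → J ^ 3 ≤ x * (s + 1) ^ 2 →
    (((Finset.Icc (2 * J + 3) x).filter (fun p : ℕ => p.Prime ∧
      ∃ q : ℕ → ℤ, (∃ i ≤ s, ¬ (p : ℤ) ∣ q i) ∧ ∀ g : ℕ, 1 ≤ g → g + s ≤ J →
        (p : ℤ) ∣ (∑ i ∈ Finset.range (s + 1), (q i : ℚ) * _root_.bernoulli (p - 1 - 2 * (g + i))).num)).card : ℝ) ≤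
      C * ((s + 1) * (Real.log J / J)) * Nat.primeCounting x := by
  obtain ⟨c, C, hc, hC, h⟩ := theorem_PI
  have hl2 : 0 < Real.log 2 := Real.log_pos (by norm_num)
  refine ⟨C + 1 / (c * Real.log 2), by positivity, ?_⟩
  intro J s x hJ hx
  have hJ' : (2 : ℝ) ≤ J := by exact_mod_cast hJ
  have hJ0 : (0 : ℝ) < J := by linarith
  have hlJ : Real.log 2 ≤ Real.log J := Real.log_le_log (by norm_num) hJ'
  have hlJ0 : 0 < Real.log J := lt_of_lt_of_le hl2 hlJ
  have hπ : (0 : ℝ) ≤ Nat.primeCounting x := by positivity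
  have hs1 : (0 : ℝ) < (s : ℝ) + 1 := by positivity
  by_cases hcs : ((s : ℝ) + 1) ≤ c * J
  · have h1 := h J 1 s 0 x (fun _ _ => 0) le_rfl (by push_cast; linarith)
      (by
        have e : (1 + 1 * (s + 0)) = s + 1 := by ring
        rw [e]
        exact hx)
      (by
        intro i _ g _
        simp only [Int.cast_zero, abs_zero]
        positivity)
    have hsub : (Finset.Icc (2 * J + 3) x).filter (fun p : ℕ => p.Prime ∧
        ∃ q : ℕ → ℤ, (∃ i ≤ s, ¬ (p : ℤ) ∣ q i) ∧ ∀ g : ℕ, 1 ≤ g → g + s ≤ J →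
        (p : ℤ) ∣ (∑ i ∈ Finset.range (s + 1), (q i : ℚ) *
          _root_.bernoulli (p - 1 - 2 * (g + i))).num) ⊆
      (Finset.Icc 1 x).filter (fun p : ℕ => p.Prime ∧
      ∃ (lam : ℕ → ℤ) (q : ℕ → Polynomial ℤ) (a b : ℕ → ℕ),
      (∀ i ≤ s, (q i).natDegree ≤ 0) ∧ (∃ i ≤ s, ∃ n, ¬ (p : ℤ) ∣ (q i).coeff n) ∧
      (1 : ℕ) * ∑ i ∈ Finset.range 0, ((b i - a i : ℕ) : ℝ) ≤ c * J ∧
      ∀ g : ℕ, c * J ≤ (1 : ℕ) * g → g + s ≤ J → (∀ i < 0, g ∉ Finset.Ico (a i) (b i)) →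
        (p : ℤ) ∣ (∑ i ∈ Finset.range (s + 1), (((q i).eval (g : ℤ) : ℤ) : ℚ) *
          (_root_.bernoulli (p - 1 - 2 * (g + i)) -
            ∑ l ∈ Finset.range 1, (lam l : ℚ) * ((fun _ _ => 0 : ℕ → ℕ → ℤ) l (g + i) : ℤ))).num) := by
      intro p hp
      rw [Finset.mem_filter, Finset.mem_Icc] at hp ⊢
      obtain ⟨⟨hp1, hp2⟩, hpp, q, ⟨i, hi, hqi⟩, hq⟩ := hp
      refine ⟨⟨hpp.one_lt.le, hp2⟩, hpp, fun _ => 0, fun i => Polynomial.C (q i), fun _ => 0, fun _ => 0,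
        fun i _ => by simp, ⟨i, hi, 0, by simpa using hqi⟩, ?_, ?_⟩
      · simp only [Finset.range_zero, Finset.sum_empty, mul_zero]
        positivity
      · intro g hg hgs _
        have hg1 : 1 ≤ g := by
          by_contra hcon
          have h0 : g = 0 := by omega
          rw [h0] at hg
          simp only [Nat.cast_zero, mul_zero] at hg
          have : 0 < c * J := by positivity
          linarith
        have h2 := hq g hg1 hgs
        simpa using h2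
    have h2 := Finset.card_le_card hsub
    have h3 : (((Finset.Icc (2 * J + 3) x).filter (fun p : ℕ => p.Prime ∧
        ∃ q : ℕ → ℤ, (∃ i ≤ s, ¬ (p : ℤ) ∣ q i) ∧ ∀ g : ℕ, 1 ≤ g → g + s ≤ J →
        (p : ℤ) ∣ (∑ i ∈ Finset.range (s + 1), (q i : ℚ) *
          _root_.bernoulli (p - 1 - 2 * (g + i))).num)).card : ℝ) ≤
        C * ((1 : ℕ) ^ 2 * (1 + (1 : ℕ) * (s + (0 : ℕ))) * (Real.log J / J)) * Nat.primeCounting x :=
      le_trans (by exact_mod_cast h2) h1
    refine h3.trans (mul_le_mul_of_nonneg_right ?_ hπ)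
    have h4 : C * (((1 : ℕ) : ℝ) ^ 2 * (1 + ((1 : ℕ) : ℝ) * (s + ((0 : ℕ) : ℝ))) * (Real.log J / J)) =
        C * ((s + 1) * (Real.log J / J)) := by
      push_cast
      ring
    rw [h4]
    refine mul_le_mul_of_nonneg_right ?_ (by positivity)
    have : 0 < 1 / (c * Real.log 2) := by positivity
    linarith
  · push Not at hcs
    have h1 : (((Finset.Icc (2 * J + 3) x).filter (fun p : ℕ => p.Prime ∧
        ∃ q : ℕ → ℤ, (∃ i ≤ s, ¬ (p : ℤ) ∣ q i) ∧ ∀ g : ℕ, 1 ≤ g → g + s ≤ J →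
        (p : ℤ) ∣ (∑ i ∈ Finset.range (s + 1), (q i : ℚ) *
          _root_.bernoulli (p - 1 - 2 * (g + i))).num)).card : ℝ) ≤ Nat.primeCounting x := by
      have h2 : Nat.primeCounting x = ((Finset.range (x + 1)).filter (fun p : ℕ => p.Prime)).card := by
        rw [Nat.primeCounting, Nat.primeCounting', Nat.count_eq_card_filter_range]
      rw [h2]
      have h3 : (Finset.Icc (2 * J + 3) x).filter (fun p : ℕ => p.Prime ∧
        ∃ q : ℕ → ℤ, (∃ i ≤ s, ¬ (p : ℤ) ∣ q i) ∧ ∀ g : ℕ, 1 ≤ g → g + s ≤ J →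
        (p : ℤ) ∣ (∑ i ∈ Finset.range (s + 1), (q i : ℚ) *
          _root_.bernoulli (p - 1 - 2 * (g + i))).num) ⊆
          (Finset.range (x + 1)).filter (fun p : ℕ => p.Prime) := by
        intro p hp
        rw [Finset.mem_filter, Finset.mem_Icc] at hp
        rw [Finset.mem_filter, Finset.mem_range]
        exact ⟨by omega, hp.2.1⟩
      exact_mod_cast Finset.card_le_card h3
    refine h1.trans ?_
    have h2 : (1 : ℝ) ≤ (C + 1 / (c * Real.log 2)) * (((s : ℝ) + 1) * (Real.log J / J)) := by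
      have h3 : c * Real.log 2 ≤ ((s : ℝ) + 1) * (Real.log J / J) := by
        rw [mul_div_assoc', le_div_iff₀ hJ0]
        calc c * Real.log 2 * J = (c * J) * Real.log 2 := by ring
          _ ≤ ((s : ℝ) + 1) * Real.log J := by
            apply mul_le_mul hcs.le hlJ hl2.le hs1.le
      have h4 : (1 : ℝ) = 1 / (c * Real.log 2) * (c * Real.log 2) := by
        field_simp
      calc (1 : ℝ) = 1 / (c * Real.log 2) * (c * Real.log 2) := h4
        _ ≤ (C + 1 / (c * Real.log 2)) * (((s : ℝ) + 1) * (Real.log J / J)) := by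
          apply mul_le_mul _ h3 (by positivity) (by positivity)
          linarith
    calc (Nat.primeCounting x : ℝ) = 1 * Nat.primeCounting x := (one_mul _).symm
      _ ≤ _ := mul_le_mul_of_nonneg_right h2 hπ

end MP_a3a416_nt.HK
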