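import Pool.Agent.Lib.MP_a3a416_nt.HK.DimK

/-!
Linear independence of `1` and many of the `(B_{p-1-2g})_p`, `g ≤ J`, from the lower bound for the codimension of the space of relations.
-/

namespace MP_a3a416_nt.HK

open Finset

/-- A basis of the quotient by the relations among the unit vectors, containing the `0`-th. -/
theorem exists_unit_basis (J : ℕ) : ∃ T : Finset (Fin (J + 1)), (0 : Fin (J + 1)) ∈ T ∧
    T.card = Module.finrank ℚ ((Fin (J + 1) → ℚ) ⧸ LI.Rel J) ∧
    ∀ f : Fin (J + 1) → ℚ, (∀ i, i ∉ T → f i = 0) → f ∈ LI.Rel J → ∀ i, f i = 0 := by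
  classical
  set b : Fin (J + 1) → ((Fin (J + 1) → ℚ) ⧸ LI.Rel J) :=
    fun i => (LI.Rel J).mkQ (Pi.single i 1) with hb
  have hb0 : b 0 ≠ 0 := by
    intro h
    rw [hb] at h
    simp only [Submodule.mkQ_apply, Submodule.Quotient.mk_eq_zero] at h
    exact single_not_rel J h
  have h0 : LinearIndepOn ℚ b {0} := LinearIndepOn.singleton hb0
  set S : Set (Fin (J + 1)) := h0.extend (Set.subset_univ _) with hS
  have hSi : LinearIndepOn ℚ b S := h0.linearIndepOn_extend (Set.subset_univ _)
  have hS0 : (0 : Fin (J + 1)) ∈ S := h0.subset_extend (Set.subset_univ _) (Set.mem_singleton 0)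
  have hSs : Submodule.span ℚ (b '' S) = ⊤ := by
    rw [hS, h0.span_image_extend_eq_span_image (Set.subset_univ _), Set.image_univ]
    rw [eq_top_iff]
    rintro y -
    obtain ⟨f, rfl⟩ := (LI.Rel J).mkQ_surjective y
    have hf : f = ∑ i, f i • (Pi.single i (1 : ℚ) : Fin (J + 1) → ℚ) := by
      ext j
      simp [Finset.sum_apply, Pi.single_apply]
    rw [hf, map_sum]
    refine Submodule.sum_mem _ fun i _ => ?_
    rw [map_smul]
    exact Submodule.smul_mem _ _ (Submodule.subset_span ⟨i, rfl⟩)
  refine ⟨S.toFinset, by simpa using hS0, ?_, ?_⟩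
  · have h1 : Module.finrank ℚ (Submodule.span ℚ (Set.range (fun i : S => b i))) = Fintype.card S :=
      finrank_span_eq_card hSi
    have h2 : Set.range (fun i : S => b i) = b '' S := by
      rw [Set.image_eq_range]
    rw [h2, hSs, finrank_top] at h1
    rw [h1, Set.toFinset_card]
  · intro f hf hR
    have hS' : LinearIndepOn ℚ b (S.toFinset : Set (Fin (J + 1))) := by
      rw [Set.coe_toFinset]
      exact hSi
    have h1 : ∑ i ∈ S.toFinset, f i • b i = 0 := by
      have h2 : ∑ i ∈ S.toFinset, f i • b i = ∑ i, f i • b i := by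
        apply Finset.sum_subset (Finset.subset_univ _)
        intro i _ hi
        rw [hf i hi, zero_smul]
      have h3 : f = ∑ i, f i • (Pi.single i (1 : ℚ) : Fin (J + 1) → ℚ) := by
        ext j
        simp [Finset.sum_apply, Pi.single_apply]
      have h4 : (LI.Rel J).mkQ f = ∑ i, f i • b i := by
        conv_lhs => rw [h3]
        rw [map_sum]
        refine Finset.sum_congr rfl fun i _ => ?_
        rw [map_smul]
      rw [h2, ← h4]
      rw [Submodule.mkQ_apply, Submodule.Quotient.mk_eq_zero]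
      exact hR
    have h5 := linearIndepOn_finset_iff.1 hS' f h1
    intro i
    by_cases hi : i ∈ S.toFinset
    · exact h5 i hi
    · exact hf i hi

open Classical in
theorem indep_part : ∃ c : ℝ, 0 < c ∧ ∀ J : ℕ, 2 ≤ J → ∃ G ⊆ Finset.Icc 1 J,
    c * √(J / Real.log J) ≤ (G.card : ℝ) + 1 ∧
    ∀ (a₀ : ℤ) (a : ℕ → ℤ), (a₀ ≠ 0 ∨ ∃ g ∈ G, a g ≠ 0) →
      ∃ δ : ℝ, 0 < δ ∧ ∀ x₀ : ℕ, ∃ x : ℕ, x₀ ≤ x ∧
        δ * Nat.primeCounting x ≤ (((Finset.Icc 1 x).filter (fun p : ℕ => p.Prime ∧
          ¬ (p : ℤ) ∣ ((a₀ : ℚ) + ∑ g ∈ G, (a g : ℚ) * _root_.bernoulli (p - 1 - 2 * g)).num)).card : ℝ) := by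
  obtain ⟨c, hc, h⟩ := dimension_k
  refine ⟨c, hc, fun J hJ => ?_⟩
  obtain ⟨T, hT0, hTc, hT⟩ := exists_unit_basis J
  refine ⟨(T.erase 0).image Fin.val, ?_, ?_, ?_⟩
  · intro g hg
    rw [Finset.mem_image] at hg
    obtain ⟨i, hi, rfl⟩ := hg
    have h1 := Finset.ne_of_mem_erase hi
    rw [Finset.mem_Icc]
    have h2 : i.val ≠ 0 := fun h => h1 (Fin.ext h)
    have h3 := i.isLt
    omega
  · rw [Finset.card_image_of_injective _ Fin.val_injective]
    have h1 : ((T.erase 0).card : ℝ) + 1 = T.card := by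
      exact_mod_cast Finset.card_erase_add_one hT0
    rw [h1, hTc]
    exact h J hJ
  · intro a₀ a ha
    set G := (T.erase 0).image Fin.val with hG
    set f : Fin (J + 1) → ℚ := fun i => if i ∈ T then (if i = 0 then (a₀ : ℚ) else (a i.val : ℚ)) else 0 with hf
    have hfR : f ∉ LI.Rel J := by
      intro hR
      have h1 := hT f (fun i hi => by simp only [hf]; rw [if_neg hi]) hR
      rcases ha with ha | ⟨g, hg, hag⟩
      · apply ha
        have h2 := h1 0
        simp only [hf] at h2
        rw [if_pos hT0, if_pos trivial] at h2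
        exact_mod_cast h2
      · rw [hG, Finset.mem_image] at hg
        obtain ⟨i, hi, rfl⟩ := hg
        apply hag
        have h2 := h1 i
        simp only [hf] at h2
        rw [if_pos (Finset.mem_of_mem_erase hi), if_neg (Finset.ne_of_mem_erase hi)] at h2
        exact_mod_cast h2
    have hval : ∀ p : ℕ, LI.relVal J f p =
        (a₀ : ℚ) + ∑ g ∈ G, (a g : ℚ) * _root_.bernoulli (p - 1 - 2 * g) := by
      intro p
      unfold LI.relVal
      congr 1
      · simp only [hf]
        rw [if_pos hT0, if_pos trivial]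
      · rw [hG, Finset.sum_image (fun i _ j _ hij => Fin.val_injective hij)]
        have h1 : ∑ i ∈ T.erase 0, (a i.val : ℚ) * _root_.bernoulli (p - 1 - 2 * i.val) =
            ∑ i ∈ Finset.univ.erase (0 : Fin (J + 1)), f i * _root_.bernoulli (p - 1 - 2 * i.val) := by
          rw [← Finset.sum_subset (Finset.erase_subset_erase 0 (Finset.subset_univ T))]
          · refine Finset.sum_congr rfl fun i hi => ?_
            simp only [hf]
            rw [if_pos (Finset.mem_of_mem_erase hi), if_neg (Finset.ne_of_mem_erase hi)]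
          · intro i hi1 hi2
            have h3 : i ∉ T := fun h => hi2 (Finset.mem_erase.2 ⟨Finset.ne_of_mem_erase hi1, h⟩)
            simp only [hf]
            rw [if_neg h3, zero_mul]
        rw [h1]
        have h2 : ∑ i : Fin (J + 1), f i * _root_.bernoulli (p - 1 - 2 * i.val) =
            f 0 * _root_.bernoulli (p - 1 - 2 * (0 : Fin (J + 1)).val) +
            ∑ i ∈ Finset.univ.erase (0 : Fin (J + 1)), f i * _root_.bernoulli (p - 1 - 2 * i.val) :=
          (Finset.add_sum_erase _ _ (Finset.mem_univ 0)).symm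
        rw [Fin.sum_univ_succ] at h2
        have h3 := add_left_cancel h2
        rw [← h3]
        refine Finset.sum_congr rfl fun g _ => ?_
        rw [Fin.val_succ]
    have hnot : ¬ LI.IsRel J f := hfR
    unfold LI.IsRel at hnot
    push Not at hnot
    obtain ⟨ε, hε, h1⟩ := hnot
    have hev := Chebyshev.eventually_primeCounting_le (ε := 1) one_pos
    obtain ⟨X, hX⟩ := Filter.eventually_atTop.1 hev
    refine ⟨ε / (Real.log 4 + 1), by positivity, fun x₀ => ?_⟩
    obtain ⟨x, hx, hx2⟩ := h1 (max x₀ ⌈X⌉₊)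
    refine ⟨x, (le_max_left _ _).trans hx, ?_⟩
    have h3 : (X : ℝ) ≤ x := (Nat.le_ceil X).trans (by exact_mod_cast (le_max_right _ _).trans hx)
    have h4 := hX x h3
    rw [Nat.floor_natCast] at h4
    have h5 : 0 < Real.log 4 + 1 := by positivity
    simp only [hval] at hx2
    refine le_trans ?_ hx2.le
    rw [div_mul_eq_mul_div, div_le_iff₀ h5]
    calc ε * (Nat.primeCounting x : ℝ) ≤ ε * ((Real.log 4 + 1) * (x / Real.log x)) := by
          refine mul_le_mul_of_nonneg_left ?_ hε.le
          rw [← mul_div_assoc]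
          exact h4
      _ = ε * (x / Real.log x) * (Real.log 4 + 1) := by ring

end MP_a3a416_nt.HK
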