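import Pool.Agent.Lib.MP_a3a416_nt.HK.Final

/-!
The number of non-zero terms among the last Bernoulli numbers modulo `p` (the case `D = 1`, `v = 0`, `s = 0` of
`theorem_PI`), simultaneously for all `K ≤ J ≤ √x`.
-/

namespace MP_a3a416_nt.HK

open Finset

/-- A set of at most `d` integers is covered by `d` intervals `[a_i, b_i)` of length at most one. -/
theorem cover_intervals (S : Finset ℕ) (d : ℕ) (hS : S.card ≤ d) : ∃ a b : ℕ → ℕ,
    (∀ i, b i - a i ≤ 1) ∧ ∀ g ∈ S, ∃ i < d, g ∈ Finset.Ico (a i) (b i) := by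
  classical
  let e := S.equivFin
  refine ⟨fun i => if h : i < S.card then (e.symm ⟨i, h⟩ : ℕ) else 0,
    fun i => if h : i < S.card then (e.symm ⟨i, h⟩ : ℕ) + 1 else 0, ?_, ?_⟩
  · intro i
    by_cases h : i < S.card
    · simp only [dif_pos h]
      omega
    · simp only [dif_neg h]
      omega
  · intro g hg
    refine ⟨(e ⟨g, hg⟩ : Fin S.card).val, lt_of_lt_of_le (e ⟨g, hg⟩).isLt hS, ?_⟩
    have h : (e ⟨g, hg⟩ : Fin S.card).val < S.card := (e ⟨g, hg⟩).isLt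
    simp only [dif_pos h]
    have h2 : e.symm ⟨(e ⟨g, hg⟩ : Fin S.card).val, h⟩ = ⟨g, hg⟩ := by
      rw [Fin.eta, Equiv.symm_apply_apply]
    rw [h2]
    simp

open Classical in
/-- For one `J`: all but at most `C (d + 1) (log J / J) π(x)` primes `p ≤ x` have more than `d` non-zero terms. -/
theorem few_terms : ∃ c C : ℝ, 0 < c ∧ c ≤ 1 ∧ 0 < C ∧ ∀ J d x : ℕ,
    (((d + 1) * (d + 1) : ℕ) : ℝ) ≤ c * J → J ^ 3 ≤ x * (d + 1) ^ 2 →
    (((Finset.Icc (2 * J + 3) x).filter (fun p : ℕ => p.Prime ∧ (BB.goodIdx J p).card ≤ d)).card : ℝ) ≤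
      C * ((d + 1) * (Real.log J / J)) * Nat.primeCounting x := by
  obtain ⟨c, C, hc, hC, h⟩ := theorem_PI
  refine ⟨min c 1, C, lt_min hc one_pos, min_le_right _ _, hC, ?_⟩
  intro J d x hdJ hx
  have hdc : (((d + 1) * (d + 1) : ℕ) : ℝ) ≤ c * J :=
    hdJ.trans (mul_le_mul_of_nonneg_right (min_le_left _ _) (Nat.cast_nonneg _))
  have h1 := h J 1 0 d x (fun _ _ => 0) le_rfl
    (by
      push_cast at hdc ⊢
      linarith)
    (by
      have e : (1 + 1 * (0 + d)) = d + 1 := by ring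
      rw [e]
      exact hx)
    (by
      intro i _ g _
      simp only [Int.cast_zero, abs_zero]
      positivity)
  have hsub : (Finset.Icc (2 * J + 3) x).filter (fun p : ℕ => p.Prime ∧ (BB.goodIdx J p).card ≤ d) ⊆
      (Finset.Icc 1 x).filter (fun p : ℕ => p.Prime ∧
      ∃ (lam : ℕ → ℤ) (q : ℕ → Polynomial ℤ) (a b : ℕ → ℕ),
      (∀ i ≤ 0, (q i).natDegree ≤ d) ∧ (∃ i ≤ 0, ∃ n, ¬ (p : ℤ) ∣ (q i).coeff n) ∧
      ((1 : ℕ) : ℝ) * ∑ i ∈ Finset.range d, ((b i - a i : ℕ) : ℝ) ≤ c * J ∧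
      ∀ g : ℕ, c * J ≤ ((1 : ℕ) : ℝ) * g → g + 0 ≤ J → (∀ i < d, g ∉ Finset.Ico (a i) (b i)) →
        (p : ℤ) ∣ (∑ i ∈ Finset.range (0 + 1), (((q i).eval (g : ℤ) : ℤ) : ℚ) *
          (_root_.bernoulli (p - 1 - 2 * (g + i)) -
            ∑ l ∈ Finset.range 1, (lam l : ℚ) * ((fun _ _ => 0 : ℕ → ℕ → ℤ) l (g + i) : ℤ))).num) := by
    intro p hp
    rw [Finset.mem_filter, Finset.mem_Icc] at hp ⊢
    obtain ⟨⟨hp1, hp2⟩, hpp, hcard⟩ := hp
    obtain ⟨a, b, hab, hcov⟩ := cover_intervals (BB.goodIdx J p) d hcard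
    refine ⟨⟨hpp.one_lt.le, hp2⟩, hpp, fun _ => 0, fun _ => 1, a, b, fun i _ => by simp, ⟨0, le_rfl, 0, ?_⟩, ?_, ?_⟩
    · rw [Polynomial.coeff_one_zero]
      intro h
      have h6 : p ∣ 1 := by exact_mod_cast h
      exact hpp.one_lt.ne' (Nat.dvd_one.1 h6)
    · have h2 : ∑ i ∈ Finset.range d, ((b i - a i : ℕ) : ℝ) ≤ ∑ i ∈ Finset.range d, (1 : ℝ) :=
        Finset.sum_le_sum fun i _ => by exact_mod_cast hab i
      rw [Finset.sum_const, Finset.card_range, nsmul_eq_mul, mul_one] at h2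
      have h3 : (d : ℝ) ≤ c * J := by
        refine le_trans ?_ hdc
        have : d ≤ (d + 1) * (d + 1) := by nlinarith
        exact_mod_cast this
      rw [Nat.cast_one, one_mul]
      exact h2.trans h3
    · intro g hg hgJ hgI
      have hg1 : 1 ≤ g := by
        by_contra hcon
        have h0 : g = 0 := by omega
        rw [h0] at hg
        simp only [Nat.cast_zero, mul_zero] at hg
        have h2 : (1 : ℝ) ≤ (((d + 1) * (d + 1) : ℕ) : ℝ) := by
          have : 1 ≤ (d + 1) * (d + 1) := by nlinarith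
          exact_mod_cast this
        linarith
      have hgS : g ∉ BB.goodIdx J p := by
        intro hmem
        obtain ⟨i, hi, hgi⟩ := hcov g hmem
        exact hgI i hi hgi
      have h2 : (p : ℤ) ∣ (_root_.bernoulli (p - 1 - 2 * g)).num := by
        by_contra hcon
        apply hgS
        unfold BB.goodIdx
        rw [Finset.mem_filter, Finset.mem_Icc]
        exact ⟨⟨hg1, by omega⟩, by omega, hcon⟩
      simpa using h2
  have h2 : (((Finset.Icc (2 * J + 3) x).filter (fun p : ℕ => p.Prime ∧ (BB.goodIdx J p).card ≤ d)).card : ℝ) ≤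
      C * (((1 : ℕ) : ℝ) ^ 2 * (1 + ((1 : ℕ) : ℝ) * (((0 : ℕ) : ℝ) + (d : ℝ))) * (Real.log J / J)) *
        Nat.primeCounting x :=
    le_trans (by exact_mod_cast Finset.card_le_card hsub) h1
  refine h2.trans (le_of_eq ?_)
  push_cast
  ring

/-- `K^(3/2) ≤ 16 π(x)` if `K² ≤ x`. -/
theorem size_aux {K x : ℕ} (hK : 16 ≤ K) (hx : K ^ 2 ≤ x) :
    √(K : ℝ) * K ≤ 16 * Nat.primeCounting x := by
  have hx16 : 16 ≤ x := by nlinarith
  have hx16' : (16 : ℝ) ≤ x := by exact_mod_cast hx16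
  have hK0 : (0 : ℝ) < K := by exact_mod_cast (by omega : 0 < K)
  have hcheb := BB.primeCounting_ge hx16
  have hlx : 0 < Real.log x := Real.log_pos (by linarith)
  have hKx : (K : ℝ) ≤ √(x : ℝ) := by
    apply Real.le_sqrt_of_sq_le
    exact_mod_cast hx
  have hsx : √(x : ℝ) * √(x : ℝ) = x := Real.mul_self_sqrt (by linarith)
  have hsx0 : 0 < √(x : ℝ) := by linarith
  have h4 : √(K : ℝ) * K ≤ 4 * ((x : ℝ) / Real.log x) := by
    have hv : √(K : ℝ) ≤ √(√(x : ℝ)) := Real.sqrt_le_sqrt hKx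
    have hv0 : 0 < √(√(x : ℝ)) := Real.sqrt_pos.2 hsx0
    have hv2 : √(√(x : ℝ)) * √(√(x : ℝ)) = √(x : ℝ) := Real.mul_self_sqrt hsx0.le
    have hlog : Real.log x ≤ 4 * √(√(x : ℝ)) := by
      have h2 : Real.log x = 4 * Real.log (√(√(x : ℝ))) := by
        rw [Real.log_sqrt (Real.sqrt_nonneg _), Real.log_sqrt (by linarith)]; ring
      have h3 := Real.log_le_sub_one_of_pos hv0
      linarith
    rw [mul_div_assoc', le_div_iff₀ hlx]
    calc √(K : ℝ) * K * Real.log x ≤ √(√(x : ℝ)) * √(x : ℝ) * (4 * √(√(x : ℝ))) :=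
          mul_le_mul (mul_le_mul hv hKx hK0.le hv0.le) hlog hlx.le (by positivity)
      _ = 4 * ((√(√(x : ℝ)) * √(√(x : ℝ))) * √(x : ℝ)) := by ring
      _ = 4 * x := by rw [hv2, hsx]
  linarith

/-- the primes below `2 J + 3` -/
theorem small_aux {J K x : ℕ} (hK : 16 ≤ K) (hJK : J ≤ K) (hx : K ^ 2 ≤ x) :
    (2 * (J : ℝ) + 2) ≤ 64 * (Real.log K / √K) * Nat.primeCounting x := by
  have h5 := size_aux hK hx
  have hl2 := Real.log_two_gt_d9
  have hJK' : (J : ℝ) ≤ K := by exact_mod_cast hJK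
  have hK16' : (16 : ℝ) ≤ K := by exact_mod_cast hK
  have hsK : 0 < √(K : ℝ) := Real.sqrt_pos.2 (by linarith)
  have hlK2 : 3 / 2 ≤ Real.log K := by
    have h10 : Real.log 16 ≤ Real.log K := Real.log_le_log (by norm_num) hK16'
    have h11 : Real.log 16 = 4 * Real.log 2 := by
      rw [show (16 : ℝ) = 2 ^ 4 by norm_num, Real.log_pow]
      norm_num
    linarith
  have hπ : (0 : ℝ) ≤ Nat.primeCounting x := by positivity
  have h7 : 3 * (K : ℝ) * √(K : ℝ) ≤ 64 * Real.log K * Nat.primeCounting x := by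
    have h8 : (48 : ℝ) ≤ 64 * Real.log K := by linarith
    calc 3 * (K : ℝ) * √(K : ℝ) = 3 * (√(K : ℝ) * K) := by ring
      _ ≤ 3 * (16 * Nat.primeCounting x) := by linarith
      _ = 48 * Nat.primeCounting x := by ring
      _ ≤ 64 * Real.log K * Nat.primeCounting x := mul_le_mul_of_nonneg_right h8 hπ
  have h8 : 64 * (Real.log K / √K) * Nat.primeCounting x = 64 * Real.log K * Nat.primeCounting x / √K := by
    ring
  rw [h8, le_div_iff₀ hsK]
  calc (2 * (J : ℝ) + 2) * √(K : ℝ) ≤ 3 * K * √(K : ℝ) :=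
        mul_le_mul_of_nonneg_right (by linarith) hsK.le
    _ ≤ _ := h7

/-- the main term -/
theorem main_aux {J K L : ℝ} {t : ℝ} (hJ : 1 ≤ J) (hL : 1 ≤ L) (hJK : J ≤ K) (hKJ : K ≤ 2 * (J * L))
    (ht : t ≤ √J) : t * (Real.log J / J) ≤ 2 * L * (Real.log K / √K) := by
  have hJ0 : 0 < J := by linarith
  have hK0 : 0 < K := by linarith
  have hsJ : 0 < √J := Real.sqrt_pos.2 hJ0
  have hsK : 0 < √K := Real.sqrt_pos.2 hK0
  have h5 : √J * √J = J := Real.mul_self_sqrt hJ0.le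
  have h1 : Real.log J ≤ Real.log K := Real.log_le_log hJ0 hJK
  have hlJ : 0 ≤ Real.log J := Real.log_nonneg hJ
  have h6 : √K ≤ 2 * L * √J := by
    rw [Real.sqrt_le_left (by positivity)]
    have h7 : (2 * L * √J) ^ 2 = 4 * L * (L * (√J * √J)) := by ring
    rw [h7, h5]
    have h8 : J * L ≤ L * (L * J) := by
      have : 0 ≤ J * L * (L - 1) := by
        apply mul_nonneg (by positivity)
        linarith
      nlinarith
    nlinarith
  calc t * (Real.log J / J) ≤ √J * (Real.log K / J) := by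
        apply mul_le_mul ht _ (by positivity) hsJ.le
        exact div_le_div_of_nonneg_right h1 hJ0.le
    _ = √J * (Real.log K / (√J * √J)) := by rw [h5]
    _ = Real.log K / √J := by
        field_simp
    _ ≤ 2 * L * (Real.log K / √K) := by
        rw [mul_div_assoc', div_le_div_iff₀ hsJ hsK]
        calc Real.log K * √K ≤ Real.log K * (2 * L * √J) :=
              mul_le_mul_of_nonneg_left h6 (by linarith)
          _ = 2 * L * Real.log K * √J := by ring

/-- the size condition -/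
theorem cube_aux {J K x d : ℕ} {c₀ L y : ℝ} (hc₀ : 0 < c₀) (hL : 1 ≤ L) (hL4 : 4 ≤ c₀ * L) (hJL : (J : ℝ) * L ≤ K)
    (hx : K ^ 2 ≤ x) (hy : y * y = c₀ * J) (hy0 : 0 ≤ y) (hd : y / 2 ≤ ((d + 1 : ℕ) : ℝ)) :
    J ^ 3 ≤ x * (d + 1) ^ 2 := by
  have h1 : ((K ^ 2 : ℕ) : ℝ) ≤ x := by exact_mod_cast hx
  have h2 : (c₀ * J) / 4 ≤ (((d + 1 : ℕ) : ℝ)) ^ 2 := by
    have h3 : (y / 2) ^ 2 ≤ (((d + 1 : ℕ) : ℝ)) ^ 2 := pow_le_pow_left₀ (by positivity) hd 2
    have h4 : (y / 2) ^ 2 = y * y / 4 := by ring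
    rw [h4, hy] at h3
    exact h3
  have h3 : ((J : ℝ) * L) ^ 2 ≤ x := by
    refine le_trans ?_ h1
    push_cast
    exact pow_le_pow_left₀ (by positivity) hJL 2
  have h4 : (J : ℝ) ^ 3 ≤ x * (((d + 1 : ℕ) : ℝ)) ^ 2 := by
    calc (J : ℝ) ^ 3 ≤ ((J : ℝ) * L) ^ 2 * ((c₀ * J) / 4) := by
          have h5 : ((J : ℝ) * L) ^ 2 * ((c₀ * J) / 4) = J ^ 3 * (L * (c₀ * L) / 4) := by ring
          rw [h5]
          have h6 : (1 : ℝ) ≤ L * (c₀ * L) / 4 := by nlinarith
          exact le_mul_of_one_le_right (by positivity) h6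
      _ ≤ x * (((d + 1 : ℕ) : ℝ)) ^ 2 := mul_le_mul h3 h2 (by positivity) (by positivity)
  exact_mod_cast h4

open Classical in
/-- The statement for one `K`. -/
theorem each : ∃ c C : ℝ, 0 < c ∧ 0 < C ∧ ∀ K x : ℕ, 2 ≤ K → K ^ 2 ≤ x →
    (((Icc 1 x).filter (fun p => p.Prime ∧ ((BB.goodIdx K p).card : ℝ) < c * √K)).card : ℝ)
      ≤ C * (Real.log K / √K) * Nat.primeCounting x := by
  obtain ⟨c₀, C₀, hc₀, hc₀1, hC₀, hfew⟩ := few_terms
  obtain ⟨L, hL⟩ := exists_nat_ge (4 / c₀)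
  have hL4 : 4 ≤ c₀ * L := by
    rw [div_le_iff₀ hc₀] at hL
    linarith
  have hL4' : (4 : ℝ) ≤ L := by
    have h1 : c₀ * L ≤ 1 * L := mul_le_mul_of_nonneg_right hc₀1 (Nat.cast_nonneg _)
    linarith
  have hL4n : 4 ≤ L := by exact_mod_cast hL4'
  have hL0 : (0 : ℝ) < L := by linarith
  have hL1 : 1 ≤ L := by omega
  have hL1' : (1 : ℝ) ≤ L := by linarith
  have hl2 := Real.log_two_gt_d9
  have hsc0 : 0 < √c₀ := Real.sqrt_pos.2 hc₀
  have hsL0 : 0 < √(L : ℝ) := Real.sqrt_pos.2 hL0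
  have hsL : √(L : ℝ) * √(L : ℝ) = L := Real.mul_self_sqrt hL0.le
  obtain ⟨c, hc, hcpos⟩ : ∃ c : ℝ, c * (4 * √L) = √c₀ ∧ 0 < c :=
    ⟨√c₀ / (4 * √L), div_mul_cancel₀ _ (by positivity), by positivity⟩
  refine ⟨c, 2 * L + 64 + 4 * (L * C₀), hcpos, by positivity, ?_⟩
  intro K x hK hx
  have hK' : (2 : ℝ) ≤ K := by exact_mod_cast hK
  have hK0 : (0 : ℝ) < K := by linarith
  have hsK : 0 < √(K : ℝ) := Real.sqrt_pos.2 hK0
  have hlK : 1 / 2 ≤ Real.log K := by
    have h2 : Real.log 2 ≤ Real.log K := Real.log_le_log (by norm_num) hK'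
    linarith
  have hπ : (0 : ℝ) ≤ Nat.primeCounting x := by positivity
  have hLK : 0 ≤ Real.log K / √K := div_nonneg (by linarith) hsK.le
  have hT5 : (2 * L + 64 + 4 * (L * C₀)) * (Real.log K / √K) * Nat.primeCounting x =
      2 * (L : ℝ) * (Real.log K / √K) * Nat.primeCounting x + 64 * (Real.log K / √K) * Nat.primeCounting x +
      4 * (L * C₀) * (Real.log K / √K) * Nat.primeCounting x := by
    ring
  have hT4 : 0 ≤ 2 * (L : ℝ) * (Real.log K / √K) * Nat.primeCounting x :=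
    mul_nonneg (mul_nonneg (by positivity) hLK) hπ
  have hT6 : 0 ≤ 64 * (Real.log K / √K) * Nat.primeCounting x :=
    mul_nonneg (mul_nonneg (by positivity) hLK) hπ
  have hT7 : 0 ≤ 4 * (L * C₀) * (Real.log K / √K) * Nat.primeCounting x :=
    mul_nonneg (mul_nonneg (by positivity) hLK) hπ
  rcases lt_or_ge K (L * L) with hKs | hKs
  · -- small `K`
    refine (BB.card_primes_le x _).trans ?_
    have h1 : √(K : ℝ) ≤ L := by
      rw [Real.sqrt_le_left hL0.le, sq]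
      exact_mod_cast hKs.le
    have h2 : 1 ≤ 2 * L * (Real.log K / √K) := by
      rw [mul_div_assoc', le_div_iff₀ hsK, one_mul]
      calc √(K : ℝ) ≤ L := h1
        _ = 2 * L * (1 / 2) := by ring
        _ ≤ 2 * L * Real.log K := mul_le_mul_of_nonneg_left hlK (by positivity)
    have h3 : 1 * (Nat.primeCounting x : ℝ) ≤ 2 * L * (Real.log K / √K) * Nat.primeCounting x :=
      mul_le_mul_of_nonneg_right h2 hπ
    rw [hT5]
    linarith
  · -- the main case
    obtain ⟨J, hJdef⟩ : ∃ J, J = K / L := ⟨_, rfl⟩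
    have hJL : J * L ≤ K := by rw [hJdef]; exact Nat.div_mul_le_self K L
    have hLJ : L ≤ J := by rw [hJdef]; exact (Nat.le_div_iff_mul_le (by omega)).2 hKs
    have hJK : J ≤ K := by rw [hJdef]; exact Nat.div_le_self K L
    have hJ1 : 1 ≤ J := hL1.trans hLJ
    have hJ1' : (1 : ℝ) ≤ J := by exact_mod_cast hJ1
    have hJ0 : (0 : ℝ) < J := by linarith
    have hK16 : 16 ≤ K := (Nat.mul_le_mul hL4n hL4n).trans hKs
    have hKJ : K ≤ 2 * (J * L) := by
      have h1 : K < L * (J + 1) := by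
        rw [hJdef]
        exact Nat.lt_mul_div_succ K (by omega : 0 < L)
      have h2 : L ≤ J * L := Nat.le_mul_of_pos_left L (by omega)
      have h3 : L * (J + 1) = J * L + L := by ring
      omega
    have hKJ' : (K : ℝ) ≤ 2 * (J * L) := by exact_mod_cast hKJ
    have hJL' : (J : ℝ) * L ≤ K := by exact_mod_cast hJL
    have hLJ' : (L : ℝ) ≤ J := by exact_mod_cast hLJ
    have hJK' : (J : ℝ) ≤ K := by exact_mod_cast hJK
    obtain ⟨y, hy⟩ : ∃ y, y = √(c₀ * J) := ⟨_, rfl⟩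
    have hysq : y * y = c₀ * J := by rw [hy]; exact Real.mul_self_sqrt (by positivity)
    have hy2 : 2 ≤ y := by
      rw [hy]
      apply Real.le_sqrt_of_sq_le
      have : c₀ * L ≤ c₀ * J := mul_le_mul_of_nonneg_left hLJ' hc₀.le
      linarith
    obtain ⟨d, hd⟩ : ∃ d, d = ⌊y⌋₊ - 1 := ⟨_, rfl⟩
    have hfl : 2 ≤ ⌊y⌋₊ := Nat.le_floor (by exact_mod_cast hy2)
    have hd1 : d + 1 = ⌊y⌋₊ := by omega
    have hd1le : ((d + 1 : ℕ) : ℝ) ≤ y := by
      rw [hd1]
      exact Nat.floor_le (by linarith)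
    have hd1ge : y / 2 ≤ ((d + 1 : ℕ) : ℝ) := by
      rw [hd1]
      have h1 := Nat.lt_floor_add_one y
      linarith
    have hd1pos : (0 : ℝ) < ((d + 1 : ℕ) : ℝ) := by positivity
    have hcond1 : (((d + 1) * (d + 1) : ℕ) : ℝ) ≤ c₀ * J := by
      rw [← hysq, Nat.cast_mul]
      exact mul_le_mul hd1le hd1le hd1pos.le (by linarith)
    have hcond2 : J ^ 3 ≤ x * (d + 1) ^ 2 := cube_aux hc₀ hL1' hL4 hJL' hx hysq (by linarith) hd1ge
    have hmain := hfew J d x hcond1 hcond2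
    -- the bad primes
    have hcK : c * √(K : ℝ) ≤ y / 2 := by
      have h4 : √(K : ℝ) ≤ 2 * (√(J : ℝ) * √(L : ℝ)) := by
        rw [Real.sqrt_le_left (by positivity)]
        have h5 : (2 * (√(J : ℝ) * √(L : ℝ))) ^ 2 = 4 * ((√(J : ℝ) * √(J : ℝ)) * (√(L : ℝ) * √(L : ℝ))) := by ring
        rw [h5, Real.mul_self_sqrt hJ0.le, hsL]
        have : 0 < (J : ℝ) * L := by positivity
        linarith
      have h6 : y = √c₀ * √(J : ℝ) := by rw [hy, Real.sqrt_mul hc₀.le]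
      have h7 : c * √(K : ℝ) ≤ c * (2 * (√(J : ℝ) * √(L : ℝ))) := mul_le_mul_of_nonneg_left h4 hcpos.le
      have h8 : c * (2 * (√(J : ℝ) * √(L : ℝ))) = (c * (4 * √L)) * √(J : ℝ) / 2 := by ring
      rw [h8, hc] at h7
      rw [h6]
      exact h7
    have hsub : (Icc 1 x).filter (fun p => p.Prime ∧ ((BB.goodIdx K p).card : ℝ) < c * √K) ⊆
        Icc 1 (2 * J + 2) ∪ (Icc (2 * J + 3) x).filter (fun p : ℕ => p.Prime ∧ (BB.goodIdx J p).card ≤ d) := by
      intro p hp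
      rw [mem_filter, mem_Icc] at hp
      rw [mem_union, mem_Icc, mem_filter, mem_Icc]
      obtain ⟨⟨hp1, hp2⟩, hpp, hpc⟩ := hp
      rcases Nat.lt_or_ge p (2 * J + 3) with hps | hps
      · left
        omega
      · right
        refine ⟨⟨hps, hp2⟩, hpp, ?_⟩
        have h1 : (BB.goodIdx J p).card ≤ (BB.goodIdx K p).card :=
          card_le_card (BB.goodIdx_mono hJK)
        have h2 : ((BB.goodIdx J p).card : ℝ) < c * √K := lt_of_le_of_lt (by exact_mod_cast h1) hpc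
        have h9 : ((BB.goodIdx J p).card : ℝ) < ((d + 1 : ℕ) : ℝ) := lt_of_lt_of_le h2 (hcK.trans hd1ge)
        have h10 : (BB.goodIdx J p).card < d + 1 := by exact_mod_cast h9
        omega
    have hcard := (card_le_card hsub).trans (card_union_le _ _)
    rw [Nat.card_Icc] at hcard
    have hcard' : (((Icc 1 x).filter (fun p => p.Prime ∧ ((BB.goodIdx K p).card : ℝ) < c * √K)).card : ℝ) ≤
        (2 * J + 2) + (((Icc (2 * J + 3) x).filter
          (fun p : ℕ => p.Prime ∧ (BB.goodIdx J p).card ≤ d)).card : ℝ) := by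
      have h1 : 2 * J + 2 + 1 - 1 = 2 * J + 2 := by omega
      rw [h1] at hcard
      exact_mod_cast hcard
    have ht : (d : ℝ) + 1 ≤ √(J : ℝ) := by
      have h3 : ((d + 1 : ℕ) : ℝ) ≤ √(J : ℝ) := by
        refine hd1le.trans ?_
        rw [hy]
        apply Real.sqrt_le_sqrt
        calc c₀ * (J : ℝ) ≤ 1 * J := mul_le_mul_of_nonneg_right hc₀1 hJ0.le
          _ = J := one_mul _
      push_cast at h3
      exact h3
    have hT1 := main_aux hJ1' hL1' hJK' hKJ' ht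
    have hT3 : (((Icc (2 * J + 3) x).filter
          (fun p : ℕ => p.Prime ∧ (BB.goodIdx J p).card ≤ d)).card : ℝ) ≤
        4 * (L * C₀) * (Real.log K / √K) * Nat.primeCounting x := by
      refine hmain.trans (mul_le_mul_of_nonneg_right ?_ hπ)
      calc C₀ * (((d : ℝ) + 1) * (Real.log J / J)) ≤ C₀ * (2 * L * (Real.log K / √K)) :=
            mul_le_mul_of_nonneg_left hT1 hC₀.le
        _ = 2 * (L * C₀) * (Real.log K / √K) := by ring
        _ ≤ 4 * (L * C₀) * (Real.log K / √K) := by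
            apply mul_le_mul_of_nonneg_right _ hLK
            have : 0 < L * C₀ := by positivity
            linarith
    have hT2 := small_aux hK16 hJK hx
    rw [hT5]
    linarith

open Classical in
/-- The final statement, simultaneous in all `K ≥ K₀`. -/
theorem nonzero_part : ∃ c C : ℝ, 0 < c ∧ 0 < C ∧ ∀ K₀ x : ℕ, 2 ≤ K₀ →
    (((Icc 1 x).filter (fun p => p.Prime ∧
      ∃ K : ℕ, K₀ ≤ K ∧ K ^ 2 ≤ x ∧ ((BB.goodIdx K p).card : ℝ) < c * √K)).card : ℝ)
      ≤ C * (Real.log K₀ / √K₀) * Nat.primeCounting x := by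
  obtain ⟨c, C, hc, hC, hfin⟩ := each
  refine ⟨c / 2, 6 * C, by positivity, by positivity, ?_⟩
  intro K₀ x hK₀
  have hK' : (2 : ℝ) ≤ K₀ := by exact_mod_cast hK₀
  have hsK : 0 < √(K₀ : ℝ) := Real.sqrt_pos.2 (by linarith)
  have hl2 : Real.log 2 ≤ Real.log K₀ := Real.log_le_log (by norm_num) hK'
  have hl20 : 0 < Real.log 2 := Real.log_pos (by norm_num)
  have hπ : (0 : ℝ) ≤ Nat.primeCounting x := by positivity
  set B : ℕ → Finset ℕ := fun i => if (K₀ * 4 ^ i) ^ 2 ≤ x then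
    (Icc 1 x).filter (fun p => p.Prime ∧
      ((BB.goodIdx (K₀ * 4 ^ i) p).card : ℝ) < c * √((K₀ * 4 ^ i : ℕ) : ℝ)) else ∅ with hB
  have hBcard : ∀ i, ((B i).card : ℝ)
      ≤ C * (Real.log K₀ / √K₀) * Nat.primeCounting x * ((1 + 2 * (i : ℝ)) / 2 ^ i) := by
    intro i
    have h0 : 0 ≤ C * (Real.log K₀ / √K₀) * Nat.primeCounting x * ((1 + 2 * (i : ℝ)) / 2 ^ i) := by
      have : 0 ≤ Real.log K₀ := by linarith
      positivity
    by_cases hx : (K₀ * 4 ^ i) ^ 2 ≤ x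
    · have h4 : 1 ≤ 4 ^ i := Nat.one_le_pow _ _ (by norm_num)
      have h1 := hfin (K₀ * 4 ^ i) x (by nlinarith) hx
      have h2 : (B i).card = ((Icc 1 x).filter (fun p => p.Prime ∧
        ((BB.goodIdx (K₀ * 4 ^ i) p).card : ℝ) < c * √((K₀ * 4 ^ i : ℕ) : ℝ))).card := by
        rw [hB]; simp only [if_pos hx]
      rw [h2]
      refine h1.trans ?_
      have h3 : Real.log ((K₀ * 4 ^ i : ℕ) : ℝ) / √((K₀ * 4 ^ i : ℕ) : ℝ)
          ≤ (Real.log K₀ / √K₀) * ((1 + 2 * (i : ℝ)) / 2 ^ i) := by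
        have h5 : √((K₀ * 4 ^ i : ℕ) : ℝ) = √K₀ * 2 ^ i := by
          push_cast
          rw [Real.sqrt_mul (by positivity)]
          congr 1
          rw [show (4 : ℝ) ^ i = (2 ^ i) ^ 2 by rw [← pow_mul, mul_comm, pow_mul]; norm_num]
          exact Real.sqrt_sq (by positivity)
        have h6 : Real.log ((K₀ * 4 ^ i : ℕ) : ℝ) = Real.log K₀ + i * (2 * Real.log 2) := by
          push_cast
          rw [Real.log_mul (by positivity) (by positivity), Real.log_pow,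
            show (4 : ℝ) = 2 ^ 2 by norm_num, Real.log_pow]
          push_cast; ring
        rw [h5, h6, div_mul_div_comm]
        apply div_le_div_of_nonneg_right _ (by positivity)
        have : (0 : ℝ) ≤ i := by positivity
        nlinarith
      calc C * (Real.log ((K₀ * 4 ^ i : ℕ) : ℝ) / √((K₀ * 4 ^ i : ℕ) : ℝ)) * Nat.primeCounting x
          ≤ C * ((Real.log K₀ / √K₀) * ((1 + 2 * (i : ℝ)) / 2 ^ i)) * Nat.primeCounting x := by
            apply mul_le_mul_of_nonneg_right _ hπ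
            exact mul_le_mul_of_nonneg_left h3 hC.le
        _ = C * (Real.log K₀ / √K₀) * Nat.primeCounting x * ((1 + 2 * (i : ℝ)) / 2 ^ i) := by ring
    · have h2 : (B i).card = 0 := by
        rw [hB]; simp only [if_neg hx, card_empty]
      rw [h2]
      exact_mod_cast h0
  have hsub : (Icc 1 x).filter (fun p => p.Prime ∧
      ∃ K : ℕ, K₀ ≤ K ∧ K ^ 2 ≤ x ∧ ((BB.goodIdx K p).card : ℝ) < c / 2 * √K)
      ⊆ (range x).biUnion B := by
    intro p hp
    rw [mem_filter] at hp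
    obtain ⟨hpI, hpp, K, hK0K, hKx, hgood⟩ := hp
    -- choose `i` with `K₀ 4^i ≤ K < K₀ 4^(i+1)`
    set i := Nat.log 4 (K / K₀) with hi
    have hKK : 1 ≤ K / K₀ := (Nat.le_div_iff_mul_le (by omega)).2 (by omega)
    have h1 : 4 ^ i ≤ K / K₀ := Nat.pow_log_le_self 4 (by omega)
    have h1' : K₀ * 4 ^ i ≤ K := by
      have := (Nat.le_div_iff_mul_le (by omega : 0 < K₀)).1 h1
      linarith
    have h2 : K / K₀ < 4 ^ (i + 1) := Nat.lt_pow_succ_log_self (by norm_num) _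
    have h2' : K < K₀ * 4 ^ (i + 1) := by
      have := (Nat.div_lt_iff_lt_mul (by omega : 0 < K₀)).1 h2
      linarith
    have hix : i < x := by
      have h3 : i < 4 ^ i := Nat.lt_pow_self (by norm_num)
      have h4 : K ≤ K ^ 2 := Nat.le_self_pow (by norm_num) K
      have h5 : 4 ^ i ≤ K₀ * 4 ^ i := Nat.le_mul_of_pos_left _ (by omega)
      omega
    have hx : (K₀ * 4 ^ i) ^ 2 ≤ x := (Nat.pow_le_pow_left h1' 2).trans hKx
    rw [mem_biUnion]
    refine ⟨i, mem_range.2 hix, ?_⟩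
    rw [hB]
    simp only [if_pos hx]
    rw [mem_filter]
    refine ⟨hpI, hpp, ?_⟩
    have h6 : ((BB.goodIdx (K₀ * 4 ^ i) p).card : ℝ) ≤ (BB.goodIdx K p).card := by
      exact_mod_cast card_le_card (BB.goodIdx_mono h1')
    have h7 : √(K : ℝ) ≤ 2 * √((K₀ * 4 ^ i : ℕ) : ℝ) := by
      rw [Real.sqrt_le_left (by positivity), mul_pow, Real.sq_sqrt (by positivity)]
      have h8 : (K : ℝ) ≤ ((K₀ * 4 ^ (i + 1) : ℕ) : ℝ) := by exact_mod_cast h2'.le
      refine h8.trans (le_of_eq ?_)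
      push_cast
      rw [pow_succ]
      ring
    calc ((BB.goodIdx (K₀ * 4 ^ i) p).card : ℝ) ≤ (BB.goodIdx K p).card := h6
      _ < c / 2 * √K := hgood
      _ ≤ c / 2 * (2 * √((K₀ * 4 ^ i : ℕ) : ℝ)) := by
          apply mul_le_mul_of_nonneg_left h7 (by positivity)
      _ = c * √((K₀ * 4 ^ i : ℕ) : ℝ) := by ring
  have hcard : (((Icc 1 x).filter (fun p => p.Prime ∧
      ∃ K : ℕ, K₀ ≤ K ∧ K ^ 2 ≤ x ∧ ((BB.goodIdx K p).card : ℝ) < c / 2 * √K)).card : ℝ)
      ≤ ∑ i ∈ range x, ((B i).card : ℝ) := by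
    have h1 := (card_le_card hsub).trans card_biUnion_le
    exact_mod_cast h1
  have hL : 0 ≤ C * (Real.log K₀ / √K₀) * Nat.primeCounting x := by
    have : 0 ≤ Real.log K₀ := by linarith
    positivity
  calc _ ≤ ∑ i ∈ range x, ((B i).card : ℝ) := hcard
    _ ≤ ∑ i ∈ range x, C * (Real.log K₀ / √K₀) * Nat.primeCounting x
          * ((1 + 2 * (i : ℝ)) / 2 ^ i) := sum_le_sum (fun i _ => hBcard i)
    _ = C * (Real.log K₀ / √K₀) * Nat.primeCounting x * (6 - (4 * x + 6) / 2 ^ x) := by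
        rw [← mul_sum, BB.sum_aux]
    _ ≤ C * (Real.log K₀ / √K₀) * Nat.primeCounting x * 6 := by
        apply mul_le_mul_of_nonneg_left _ hL
        have : (0 : ℝ) ≤ (4 * x + 6) / 2 ^ x := by positivity
        linarith
    _ = 6 * C * (Real.log K₀ / √K₀) * Nat.primeCounting x := by ring

end MP_a3a416_nt.HK
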