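import Pool.Agent.Lib.MP_a3a416_nt.HK.Defs

/-!
# HK-Rec
A sequence with a recurrence `∑_{i ≤ s} q_i(g) e_{g+i} = 0` (`g₀ ≤ g`, `g + s ≤ J`), `deg q_i ≤ d`, has small Weyl complexity.

PROOF.  Let `f n = e (n/2)` for even `n`, `1 ≤ n/2 ≤ J`, and `f n = 0` otherwise (the coefficients of `ε = ∑ C (e g) X^(2g)`).  For `Q : F[X]`, `h : ℕ` let
`w Q h : Fin T → F`, `j ↦ if h ≤ S-1+j then Q(S-1+j-h) * f(S-1+j-h) else 0` (linear in `Q`).
(1) `vecP p T ε a m = w (binomial polynomial (Y choose m)) (a + S-1-m)` for `a < A`, `m < S ≤ p` (`descPochhammer`; for `a > j` both sides vanish: `C(j+m-a, m) = 0`).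
(2) Let `H = A + S - 1`, `i₀` the largest `i ≤ s` with `q_i ≠ 0`, `q̃_i = (q_i).comp (C 2⁻¹ * X - C i)` (so `q̃_i(2(g+i)) = q_i(g)`), `d₀ = natDegree q̃_{i₀}`.  Let `𝔅` be the span of
 (i) `w (X^μ) h`, `h < H`, `μ ∈ range d₀ ∪ Ico (S+d₀-d) S` (`≤ d H` vectors), (ii) `w (X^μ) (H-1-h')`, `h' < 2s`, `μ < S` (`2 s S` vectors), (iii) the unit vectors `j < A + 2g₀`.
CLAIM: `w Q h ∈ 𝔅` for all `h < H`, `deg Q < S`.  Induction on `H - h` (larger `h` first), inside: induction on the bound `μ` of the degree.  If `H ≤ h + 2s`: (ii).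
Otherwise write `Q = c X^μ + lower`; if `μ < d₀` or `μ ≥ S+d₀-d`: (i).  Otherwise with `Q' = X^(μ-d₀)`: `X^μ = ℓ⁻¹ q̃_{i₀} Q' + lower`, and
`V := ∑_{i ≤ i₀} w (Q'.comp (X + C (2(i₀-i))) * q̃_i) (h + 2(i₀-i))` has `V j = 0` for `j ≥ A + 2g₀`: with `n'' = S-1+j-h` (`≥ 2(g₀+i₀)`, as `h ≤ A+S-2-2s`) it is
`Q'(n'') ∑_{i ≤ i₀} q̃_i(n''-2(i₀-i)) f(n''-2(i₀-i))`, `= 0` if `n''` is odd, and for `n'' = 2(g+i₀)` by the recurrence (`g ≥ g₀` as `n'' ≥ 2(g₀+i₀)`; `g + s ≤ J` as `T+S+2s ≤ 2J+3`).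
So `V ∈ 𝔅` (iii) and the terms `i < i₀` are in `𝔅` by the outer induction (`h+2(i₀-i) < H`, degree `≤ μ-d₀+d < S`).
`finrank (span (finite set)) ≤ card`: `finrank_span_finset_le_card`.
-/

namespace MP_a3a416_nt.HK

open Polynomial MP_a3a416_nt.BB MP_a3a416_nt.LJ MP_a3a416_nt.HJ

section helpers

variable {F : Type*} [Field F]

private noncomputable def wv (f : ℕ → F) (S T h : ℕ) : F[X] →ₗ[F] (Fin T → F) where
  toFun Q := fun j => if h ≤ S - 1 + (j : ℕ) then
    Q.eval ((S - 1 + (j : ℕ) - h : ℕ) : F) * f (S - 1 + (j : ℕ) - h) else 0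
  map_add' P Q := by
    funext j
    by_cases hh : h ≤ S - 1 + (j : ℕ)
    · simp only [hh, if_true, eval_add, Pi.add_apply, add_mul]
    · simp only [hh, if_false, Pi.add_apply, add_zero]
  map_smul' c Q := by
    funext j
    by_cases hh : h ≤ S - 1 + (j : ℕ)
    · simp only [hh, if_true, eval_smul, Pi.smul_apply, smul_eq_mul, RingHom.id_apply, mul_assoc]
    · simp only [hh, if_false, Pi.smul_apply, smul_zero, RingHom.id_apply]

private lemma wv_apply (f : ℕ → F) (S T h : ℕ) (Q : F[X]) (j : Fin T) :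
    wv f S T h Q j = if h ≤ S - 1 + (j : ℕ) then
      Q.eval ((S - 1 + (j : ℕ) - h : ℕ) : F) * f (S - 1 + (j : ℕ) - h) else 0 := rfl

/-- vectors supported on the coordinates in `K` lie in the span of these unit vectors -/
private lemma supp_mem (T : ℕ) (K : Finset ℕ) (W : Submodule F (Fin T → F))
    (hW : ∀ j ∈ K, (fun i : Fin T => if (i : ℕ) = j then (1 : F) else 0) ∈ W)
    (v : Fin T → F) (hv : ∀ j : Fin T, (j : ℕ) ∉ K → v j = 0) : v ∈ W := by
  classical
  have h1 : v = ∑ j ∈ K, (if h : j < T then v ⟨j, h⟩ else 0) •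
      (fun i : Fin T => if (i : ℕ) = j then (1 : F) else 0) := by
    funext i
    rw [Finset.sum_apply]
    simp only [Pi.smul_apply, smul_eq_mul, mul_ite, mul_one, mul_zero]
    rw [Finset.sum_ite_eq K (i : ℕ)]
    by_cases hi : (i : ℕ) ∈ K
    · rw [if_pos hi, dif_pos i.2]
    · rw [if_neg hi]
      exact hv i hi
  rw [h1]
  refine Submodule.sum_mem _ fun j hj => ?_
  exact Submodule.smul_mem _ _ (hW j hj)

/-- the key step -/
private lemma key_step (f : ℕ → F) (A S T s d g₀ H i₀ d₀ μ h : ℕ)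
    (qt : ℕ → F[X]) (W : Submodule F (Fin T → F))
    (hH : H = A + S - 1) (hA : 1 ≤ A) (hdS : d < S) (hi₀ : i₀ ≤ s)
    (hqt : ∀ i ≤ i₀, (qt i).natDegree ≤ d)
    (hqt0 : qt i₀ ≠ 0) (hd₀ : (qt i₀).natDegree = d₀)
    (Exc : ℕ → Prop) (K : Finset ℕ)
    (hfq : ∀ n, 2 * (g₀ + s) ≤ n → n + 2 ≤ T + S → ¬ Exc n →
      ∑ i ∈ Finset.range (i₀ + 1), (qt i).eval ((n - 2 * (i₀ - i) : ℕ) : F) * f (n - 2 * (i₀ - i)) = 0)
    (hW : ∀ j ∈ K, (fun i : Fin T => if (i : ℕ) = j then (1 : F) else 0) ∈ W)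
    (hK : ∀ j < T, (j < A + 2 * g₀ ∨ Exc (S - 1 + j - h)) → j ∈ K)
    (hh : h + 2 * s < H) (hμ1 : d₀ ≤ μ) (hμ2 : μ + d < S + d₀)
    (ih1 : ∀ h', h < h' → h' < H → ∀ Q : F[X], Q.natDegree < S → wv f S T h' Q ∈ W)
    (ih2 : ∀ Q : F[X], Q.degree < ((μ : ℕ) : WithBot ℕ) → wv f S T h Q ∈ W) :
    wv f S T h (X ^ μ) ∈ W := by
  set Q' : F[X] := X ^ (μ - d₀) with hQ'
  have hV : (∑ i ∈ Finset.range (i₀ + 1),
      wv f S T (h + 2 * (i₀ - i)) (Q'.comp (X + C ((2 * (i₀ - i) : ℕ) : F)) * qt i)) ∈ W := by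
    refine supp_mem T K W hW _ fun j hj' => ?_
    rw [Finset.sum_apply]
    have hjT := j.2
    have hj : A + 2 * g₀ ≤ (j : ℕ) := by
      by_contra hcon
      exact hj' (hK j hjT (Or.inl (by omega)))
    have hjE : ¬ Exc (S - 1 + (j : ℕ) - h) := fun hcon => hj' (hK j hjT (Or.inr hcon))
    have hn : 2 * (g₀ + s) ≤ S - 1 + (j : ℕ) - h := by omega
    have hn2 : S - 1 + (j : ℕ) - h + 2 ≤ T + S := by omega
    have h2 := hfq _ hn hn2 hjE
    have h3 : ∀ i ∈ Finset.range (i₀ + 1),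
        (wv f S T (h + 2 * (i₀ - i)) (Q'.comp (X + C ((2 * (i₀ - i) : ℕ) : F)) * qt i)) j =
        Q'.eval ((S - 1 + (j : ℕ) - h : ℕ) : F) *
          ((qt i).eval ((S - 1 + (j : ℕ) - h - 2 * (i₀ - i) : ℕ) : F) *
            f (S - 1 + (j : ℕ) - h - 2 * (i₀ - i))) := by
      intro i hi
      rw [Finset.mem_range] at hi
      have e1 : h + 2 * (i₀ - i) ≤ S - 1 + (j : ℕ) := by omega
      rw [wv_apply, if_pos e1, eval_mul, eval_comp, eval_add, eval_X, eval_C]
      have e2 : S - 1 + (j : ℕ) - (h + 2 * (i₀ - i)) = S - 1 + (j : ℕ) - h - 2 * (i₀ - i) := by omega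
      rw [e2, ← Nat.cast_add]
      have e3 : S - 1 + (j : ℕ) - h - 2 * (i₀ - i) + 2 * (i₀ - i) = S - 1 + (j : ℕ) - h := by omega
      rw [e3, mul_assoc]
    rw [Finset.sum_congr rfl h3, ← Finset.mul_sum, h2, mul_zero]
  rw [Finset.sum_range_succ] at hV
  have hrest : (∑ i ∈ Finset.range i₀,
      wv f S T (h + 2 * (i₀ - i)) (Q'.comp (X + C ((2 * (i₀ - i) : ℕ) : F)) * qt i)) ∈ W := by
    refine Submodule.sum_mem _ fun i hi => ?_
    rw [Finset.mem_range] at hi
    refine ih1 _ (by omega) (by omega) _ ?_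
    calc (Q'.comp (X + C ((2 * (i₀ - i) : ℕ) : F)) * qt i).natDegree
        ≤ (Q'.comp (X + C ((2 * (i₀ - i) : ℕ) : F))).natDegree + (qt i).natDegree := natDegree_mul_le
      _ ≤ (μ - d₀) * 1 + d := by
          refine Nat.add_le_add ?_ (hqt i hi.le)
          refine natDegree_comp_le.trans ?_
          refine Nat.mul_le_mul ?_ ?_
          · rw [hQ']; exact natDegree_X_pow_le _
          · exact (natDegree_X_add_C _).le
      _ < S := by omega
  have hlast := (Submodule.add_mem_iff_right W hrest).mp hV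
  simp only [Nat.sub_self, mul_zero, Nat.cast_zero, C_0, add_zero, comp_X] at hlast
  -- `X^μ = ℓ⁻¹ • (Q' * qt i₀) + lower`
  have hl : (qt i₀).leadingCoeff ≠ 0 := leadingCoeff_ne_zero.mpr hqt0
  set P : F[X] := C ((qt i₀).leadingCoeff)⁻¹ * (Q' * qt i₀) with hP
  have hPmonic : P.Monic := by
    rw [hP, Monic, leadingCoeff_mul, leadingCoeff_mul, leadingCoeff_C, hQ', leadingCoeff_X_pow, one_mul,
      inv_mul_cancel₀ hl]
  have hPdeg : P.natDegree = μ := by
    rw [hP, natDegree_C_mul (inv_ne_zero hl), natDegree_mul (by rw [hQ']; exact pow_ne_zero _ X_ne_zero) hqt0,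
      hQ', natDegree_X_pow, hd₀]
    omega
  have hlow : (X ^ μ - P).degree < ((μ : ℕ) : WithBot ℕ) := by
    have := degree_sub_lt_left (p := (X : F[X]) ^ μ) (q := P) (by
      rw [degree_X_pow, degree_eq_natDegree hPmonic.ne_zero, hPdeg]) (pow_ne_zero _ X_ne_zero) (by
      rw [leadingCoeff_X_pow, hPmonic.leadingCoeff])
    rwa [degree_X_pow] at this
  have hsum : (X : F[X]) ^ μ = (X ^ μ - P) + ((qt i₀).leadingCoeff)⁻¹ • (Q' * qt i₀) := by
    rw [smul_eq_C_mul, ← hP]; ring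
  rw [hsum, map_add, map_smul]
  exact Submodule.add_mem _ (ih2 _ hlow) (Submodule.smul_mem _ _ hlast)

/-- the double induction -/
private lemma all_mem (f : ℕ → F) (A S T s d g₀ H i₀ d₀ : ℕ)
    (qt : ℕ → F[X]) (W : Submodule F (Fin T → F))
    (hH : H = A + S - 1) (hA : 1 ≤ A) (hdS : d < S) (hi₀ : i₀ ≤ s)
    (hqt : ∀ i ≤ i₀, (qt i).natDegree ≤ d)
    (hqt0 : qt i₀ ≠ 0) (hd₀ : (qt i₀).natDegree = d₀)
    (Exc : ℕ → Prop) (K : Finset ℕ)
    (hfq : ∀ n, 2 * (g₀ + s) ≤ n → n + 2 ≤ T + S → ¬ Exc n →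
      ∑ i ∈ Finset.range (i₀ + 1), (qt i).eval ((n - 2 * (i₀ - i) : ℕ) : F) * f (n - 2 * (i₀ - i)) = 0)
    (hW : ∀ j ∈ K, (fun i : Fin T => if (i : ℕ) = j then (1 : F) else 0) ∈ W)
    (hK : ∀ h, h + 2 * s < H → ∀ j < T, (j < A + 2 * g₀ ∨ Exc (S - 1 + j - h)) → j ∈ K)
    (hW1 : ∀ h < H, ∀ μ, (μ < d₀ ∨ (S + d₀ - d ≤ μ ∧ μ < S)) → wv f S T h (X ^ μ) ∈ W)
    (hW2 : ∀ h' < 2 * s, ∀ μ < S, wv f S T (H - 1 - h') (X ^ μ) ∈ W) :
    ∀ n, ∀ h, h < H → H - h ≤ n → ∀ Q : F[X], Q.natDegree < S → wv f S T h Q ∈ W := by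
  intro n
  induction n with
  | zero => intro h hh hn; omega
  | succ n ih =>
    intro h hh hn
    have ih1 : ∀ h', h < h' → h' < H → ∀ Q : F[X], Q.natDegree < S → wv f S T h' Q ∈ W :=
      fun h' h1 h2 Q hQ => ih h' h2 (by omega) Q hQ
    have main : ∀ D, D ≤ S → ∀ Q : F[X], Q.degree < ((D : ℕ) : WithBot ℕ) → wv f S T h Q ∈ W := by
      intro D
      induction D with
      | zero =>
        intro _ Q hQ
        have : Q = 0 := by
          by_contra hne
          rw [degree_eq_natDegree hne] at hQ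
          have : Q.natDegree < 0 := by exact_mod_cast hQ
          omega
        rw [this, map_zero]; exact W.zero_mem
      | succ μ ihD =>
        intro hD Q hQ
        have hX : wv f S T h (X ^ μ) ∈ W := by
          by_cases c1 : H ≤ h + 2 * s
          · have := hW2 (H - 1 - h) (by omega) μ (by omega)
            have e : H - 1 - (H - 1 - h) = h := by omega
            rwa [e] at this
          · by_cases c2 : μ < d₀ ∨ (S + d₀ - d ≤ μ ∧ μ < S)
            · exact hW1 h hh μ c2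
            · rw [not_or, not_lt, not_and, not_lt] at c2
              have c3 : μ + d < S + d₀ := by
                by_contra hcon
                have := c2.2 (by omega)
                omega
              exact key_step f A S T s d g₀ H i₀ d₀ μ h qt W hH hA hdS hi₀ hqt hqt0 hd₀ Exc K hfq hW
                (hK h (by omega)) (by omega) c2.1 c3 ih1 (ihD (by omega))
        have hlow : (Q - C (Q.coeff μ) * X ^ μ).degree < ((μ : ℕ) : WithBot ℕ) := by
          rw [degree_lt_iff_coeff_zero]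
          intro m hm
          rw [coeff_sub, coeff_C_mul, coeff_X_pow]
          rcases Nat.eq_or_lt_of_le hm with h1 | h1
          · subst h1; simp
          · rw [if_neg (by omega), mul_zero, sub_zero]
            exact (degree_lt_iff_coeff_zero _ _).mp hQ m (by omega)
        have hsum : Q = (Q - C (Q.coeff μ) * X ^ μ) + (Q.coeff μ) • X ^ μ := by
          rw [smul_eq_C_mul]; ring
        rw [hsum, map_add, map_smul]
        exact W.add_mem (ihD (by omega) _ hlow) (W.smul_mem _ hX)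
    intro Q hQ
    refine main S le_rfl Q ?_
    exact (degree_le_natDegree).trans_lt (by exact_mod_cast hQ)

end helpers

/-- coefficients of `∑ C (e g) X^(2g)` -/
private lemma eps_coeff {F : Type*} [Field F] (J : ℕ) (e : ℕ → F) (n : ℕ) :
    (∑ g ∈ Finset.Icc 1 J, C (e g) * X ^ (2 * g) : F[X]).coeff n =
      if n % 2 = 0 ∧ 1 ≤ n / 2 ∧ n / 2 ≤ J then e (n / 2) else 0 := by
  rw [finsetSum_coeff]
  simp only [coeff_C_mul, coeff_X_pow]
  by_cases h : n % 2 = 0 ∧ 1 ≤ n / 2 ∧ n / 2 ≤ J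
  · rw [if_pos h, Finset.sum_eq_single (n / 2)]
    · rw [if_pos (by omega), mul_one]
    · intro g _ hg
      rw [if_neg (by omega), mul_zero]
    · intro hn
      exact absurd (Finset.mem_Icc.mpr ⟨h.2.1, h.2.2⟩) hn
  · rw [if_neg h]
    refine Finset.sum_eq_zero fun g hg => ?_
    rw [Finset.mem_Icc] at hg
    rw [if_neg (by
      intro hn
      exact h (by omega)), mul_zero]

/-- `vecP` as a value of `wv` -/
private lemma vecP_eq (p : ℕ) [Fact p.Prime] (S T a m : ℕ) (f : (ZMod p)[X]) (hSp : S ≤ p) (hm : m < S) :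
    vecP p T f a m = wv (fun n => f.coeff n) S T (a + (S - 1 - m))
      (C ((m.factorial : ZMod p)⁻¹) * descPochhammer (ZMod p) m) := by
  have hp := (Fact.out : p.Prime)
  have hfac : (m.factorial : ZMod p) ≠ 0 := by
    intro h
    rw [ZMod.natCast_eq_zero_iff] at h
    have := (hp.dvd_factorial).mp h
    omega
  funext j
  rw [wv_apply]
  unfold vecP
  rw [coeff_X_pow_mul', hasseDeriv_coeff]
  have hev : ∀ n : ℕ, (C ((m.factorial : ZMod p)⁻¹) * descPochhammer (ZMod p) m).eval (n : ZMod p) =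
      (n.choose m : ZMod p) := by
    intro n
    rw [eval_mul, eval_C, descPochhammer_eval_eq_descFactorial, Nat.descFactorial_eq_factorial_mul_choose,
      Nat.cast_mul, ← mul_assoc, inv_mul_cancel₀ hfac, one_mul]
  by_cases h1 : a ≤ (j : ℕ)
  · rw [if_pos h1, if_pos (by omega), hev]
    have e : S - 1 + (j : ℕ) - (a + (S - 1 - m)) = (j : ℕ) - a + m := by omega
    rw [e]
  · rw [if_neg h1]
    by_cases h2 : a + (S - 1 - m) ≤ S - 1 + (j : ℕ)
    · rw [if_pos h2, hev, Nat.choose_eq_zero_of_lt (by omega), Nat.cast_zero, zero_mul]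
    · rw [if_neg h2]

theorem weyl_dim (p : ℕ) [Fact p.Prime] (A S T s d g₀ J κ : ℕ) (a' b' : ℕ → ℕ) (e : ℕ → ZMod p) (q : ℕ → (ZMod p)[X])
    (hp2 : p ≠ 2) (hSp : S ≤ p) (hA : 1 ≤ A) (hdS : d < S) (hg₀ : 1 ≤ g₀) (hT : T + S + 2 * s ≤ 2 * J + 3)
    (hq : ∀ i ≤ s, (q i).natDegree ≤ d) (hq0 : ∃ i ≤ s, q i ≠ 0)
    (hrec : ∀ g, g₀ ≤ g → g + s ≤ J → (∀ i < κ, g ∉ Finset.Ico (a' i) (b' i)) →
      ∑ i ∈ Finset.range (s + 1), (q i).eval (g : ZMod p) * e (g + i) = 0) :
    ∃ W : Submodule (ZMod p) (Fin T → ZMod p),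
      Module.finrank (ZMod p) W ≤ 2 * s * S + (d + κ) * (A + S) + A +
        2 * (g₀ + ∑ i ∈ Finset.range κ, (b' i - a' i)) ∧
      ∀ a < A, ∀ m < S, vecP p T (∑ g ∈ Finset.Icc 1 J, C (e g) * X ^ (2 * g)) a m ∈ W := by
  classical
  have hp := (Fact.out : p.Prime)
  have h2ne : (2 : ZMod p) ≠ 0 := by
    intro h
    have h' : ((2 : ℕ) : ZMod p) = 0 := by exact_mod_cast h
    rw [ZMod.natCast_eq_zero_iff] at h'
    have := Nat.le_of_dvd (by norm_num) h'
    have := hp.two_le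
    omega
  -- the largest index with a nonzero coefficient
  obtain ⟨i₁, hi₁, hqi₁⟩ := hq0
  set i₀ := Nat.findGreatest (fun i => q i ≠ 0) s with hi₀def
  have hi₀ : i₀ ≤ s := Nat.findGreatest_le s
  have hq₀ : q i₀ ≠ 0 := Nat.findGreatest_spec (P := fun i => q i ≠ 0) hi₁ hqi₁
  have hbig : ∀ i, i₀ < i → i ≤ s → q i = 0 := by
    intro i h1 h2
    by_contra hne
    exact absurd (Nat.le_findGreatest (P := fun i => q i ≠ 0) h2 hne) (by omega)
  set qt : ℕ → (ZMod p)[X] := fun i => (q i).comp (C (2 : ZMod p)⁻¹ * X - C (i : ZMod p)) with hqtdef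
  have hlin : ∀ i : ℕ, (C (2 : ZMod p)⁻¹ * X - C (i : ZMod p)).natDegree = 1 := by
    intro i
    rw [natDegree_sub_C, natDegree_C_mul (inv_ne_zero h2ne), natDegree_X]
  have hqtdeg : ∀ i, (qt i).natDegree = (q i).natDegree := by
    intro i
    rw [hqtdef]
    simp only
    rw [natDegree_comp, hlin, mul_one]
  have hqteval : ∀ i g : ℕ, (qt i).eval ((2 * (g + i) : ℕ) : ZMod p) = (q i).eval (g : ZMod p) := by
    intro i g
    rw [hqtdef]
    simp only
    rw [eval_comp, eval_sub, eval_mul, eval_C, eval_X, eval_C]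
    congr 1
    push_cast
    rw [← mul_assoc, inv_mul_cancel₀ h2ne, one_mul]
    ring
  have hqt0 : qt i₀ ≠ 0 := by
    intro h
    have h1 : (q i₀).comp (C (2 : ZMod p)⁻¹ * X - C (i₀ : ZMod p)) = 0 := h
    rw [comp_eq_zero_iff] at h1
    rcases h1 with h1 | h1
    · exact hq₀ h1
    · have h2 := congrArg natDegree h1.2
      rw [hlin, natDegree_C] at h2
      omega
  set d₀ := (qt i₀).natDegree with hd₀
  have hd₀d : d₀ ≤ d := by rw [hd₀, hqtdeg]; exact hq i₀ hi₀
  set ε : (ZMod p)[X] := ∑ g ∈ Finset.Icc 1 J, C (e g) * X ^ (2 * g) with hε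
  set f : ℕ → ZMod p := fun n => ε.coeff n with hf
  have hfn : ∀ n, f n = if n % 2 = 0 ∧ 1 ≤ n / 2 ∧ n / 2 ≤ J then e (n / 2) else 0 :=
    fun n => eps_coeff J e n
  set H := A + S - 1 with hH
  obtain ⟨Exc, hExc⟩ : ∃ Exc : ℕ → Prop, Exc = fun n =>
      ∃ i < κ, 2 * (a' i + i₀) ≤ n ∧ n < 2 * (b' i + i₀) := ⟨_, rfl⟩
  have hfq : ∀ n, 2 * (g₀ + s) ≤ n → n + 2 ≤ T + S → ¬ Exc n →
      ∑ i ∈ Finset.range (i₀ + 1), (qt i).eval ((n - 2 * (i₀ - i) : ℕ) : ZMod p) *
        f (n - 2 * (i₀ - i)) = 0 := by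
    intro n h1 h2 hE
    by_cases hpar : n % 2 = 0
    · obtain ⟨g, hg⟩ : ∃ g, n = 2 * (g + i₀) := ⟨n / 2 - i₀, by omega⟩
      have hg1 : g₀ ≤ g := by omega
      have hg2 : g + s ≤ J := by omega
      have h3 := hrec g hg1 hg2 (by
        intro i hi hgi
        rw [Finset.mem_Ico] at hgi
        apply hE
        rw [hExc]
        exact ⟨i, hi, by omega, by omega⟩)
      have h4 : ∑ i ∈ Finset.range (s + 1), (q i).eval (g : ZMod p) * e (g + i) =
          ∑ i ∈ Finset.range (i₀ + 1), (q i).eval (g : ZMod p) * e (g + i) := by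
        symm
        refine Finset.sum_subset (Finset.range_subset_range.mpr (by omega)) fun i hi hi' => ?_
        rw [Finset.mem_range] at hi hi'
        rw [hbig i (by omega) (by omega), eval_zero, zero_mul]
      rw [h4] at h3
      rw [← h3]
      refine Finset.sum_congr rfl fun i hi => ?_
      rw [Finset.mem_range] at hi
      have e1 : n - 2 * (i₀ - i) = 2 * (g + i) := by omega
      rw [e1, hqteval, hfn, if_pos (by omega)]
      congr 2
      omega
    · refine Finset.sum_eq_zero fun i hi => ?_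
      rw [Finset.mem_range] at hi
      rw [hfn, if_neg (by omega), mul_zero]
  set I : Finset ℕ := Finset.range d₀ ∪ Finset.Ico (S + d₀ - d) S with hI
  -- the positions of the errors
  set K : Finset ℕ := Finset.range (A + 2 * g₀) ∪ (Finset.range κ).biUnion (fun i =>
    if a' i < b' i then Finset.Ico (2 * (a' i + i₀) + 1 - S) (2 * (b' i + i₀) + A) else ∅) with hK
  have hKcard : K.card ≤ A + 2 * g₀ + (κ * (A + S) + 2 * ∑ i ∈ Finset.range κ, (b' i - a' i)) := by
    rw [hK]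
    refine (Finset.card_union_le _ _).trans (Nat.add_le_add (by rw [Finset.card_range]) ?_)
    refine Finset.card_biUnion_le.trans ?_
    have h1 : ∀ i ∈ Finset.range κ, (if a' i < b' i then
        Finset.Ico (2 * (a' i + i₀) + 1 - S) (2 * (b' i + i₀) + A) else ∅ : Finset ℕ).card ≤
        (A + S) + 2 * (b' i - a' i) := by
      intro i _
      split_ifs with h
      · rw [Nat.card_Ico]
        omega
      · rw [Finset.card_empty]
        exact Nat.zero_le _
    refine (Finset.sum_le_sum h1).trans ?_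
    rw [Finset.sum_add_distrib, Finset.sum_const, Finset.card_range, smul_eq_mul, Finset.mul_sum]
  have hKmem : ∀ h, h + 2 * s < H → ∀ j < T, (j < A + 2 * g₀ ∨ Exc (S - 1 + j - h)) → j ∈ K := by
    intro h hh j _ hj
    rw [hK, Finset.mem_union, Finset.mem_range, Finset.mem_biUnion]
    rcases hj with hj | hj
    · exact Or.inl hj
    · right
      rw [hExc] at hj
      obtain ⟨i, hi, h1, h2⟩ := hj
      refine ⟨i, Finset.mem_range.mpr hi, ?_⟩
      rw [if_pos (by omega), Finset.mem_Ico]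
      omega
  set B : Finset (Fin T → ZMod p) :=
    ((Finset.range H ×ˢ I).image (fun x => wv f S T x.1 (X ^ x.2))) ∪
    ((Finset.range (2 * s) ×ˢ Finset.range S).image (fun x => wv f S T (H - 1 - x.1) (X ^ x.2))) ∪
    (K.image (fun j => (fun i : Fin T => if (i : ℕ) = j then (1 : ZMod p) else 0)))
    with hB
  have hBcard : B.card ≤ 2 * s * S + (d + κ) * (A + S) + A +
      2 * (g₀ + ∑ i ∈ Finset.range κ, (b' i - a' i)) := by
    have hIc : I.card ≤ d := by
      refine (Finset.card_union_le _ _).trans ?_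
      rw [Finset.card_range, Nat.card_Ico]
      omega
    have h1 : ((Finset.range H ×ˢ I).image (fun x => wv f S T x.1 (X ^ x.2))).card ≤ H * d := by
      refine Finset.card_image_le.trans ?_
      rw [Finset.card_product, Finset.card_range]
      exact Nat.mul_le_mul_left _ hIc
    have h2 : ((Finset.range (2 * s) ×ˢ Finset.range S).image
        (fun x => wv f S T (H - 1 - x.1) (X ^ x.2))).card ≤ 2 * s * S := by
      refine Finset.card_image_le.trans ?_
      rw [Finset.card_product, Finset.card_range, Finset.card_range]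
    have h3 : (K.image
        (fun j => (fun i : Fin T => if (i : ℕ) = j then (1 : ZMod p) else 0))).card ≤
        A + 2 * g₀ + (κ * (A + S) + 2 * ∑ i ∈ Finset.range κ, (b' i - a' i)) :=
      Finset.card_image_le.trans hKcard
    have h4 : H * d ≤ d * (A + S) := by
      rw [mul_comm]; exact Nat.mul_le_mul_left _ (by omega)
    have h5 := Finset.card_union_le
      (((Finset.range H ×ˢ I).image (fun x => wv f S T x.1 (X ^ x.2))) ∪
        ((Finset.range (2 * s) ×ˢ Finset.range S).image (fun x => wv f S T (H - 1 - x.1) (X ^ x.2))))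
      (K.image (fun j => (fun i : Fin T => if (i : ℕ) = j then (1 : ZMod p) else 0)))
    have h6 := Finset.card_union_le
      ((Finset.range H ×ˢ I).image (fun x => wv f S T x.1 (X ^ x.2)))
      ((Finset.range (2 * s) ×ˢ Finset.range S).image (fun x => wv f S T (H - 1 - x.1) (X ^ x.2)))
    have h7 : (d + κ) * (A + S) = d * (A + S) + κ * (A + S) := by ring
    rw [hB, h7]
    omega
  refine ⟨Submodule.span (ZMod p) (B : Set (Fin T → ZMod p)),
    (finrank_span_finset_le_card B).trans hBcard, ?_⟩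
  have key := all_mem f A S T s d g₀ H i₀ d₀ qt (Submodule.span (ZMod p) (B : Set (Fin T → ZMod p)))
    hH hA hdS hi₀ (fun i hi => by rw [hqtdeg]; exact hq i (by omega)) hqt0 hd₀.symm Exc K hfq
    (fun j hj => Submodule.subset_span (by
      rw [Finset.mem_coe, hB]
      refine Finset.mem_union_right _ (Finset.mem_image.mpr ⟨j, hj, rfl⟩)))
    hKmem
    (fun h hh μ hμ => Submodule.subset_span (by
      rw [Finset.mem_coe, hB]
      refine Finset.mem_union_left _ (Finset.mem_union_left _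
        (Finset.mem_image.mpr ⟨(h, μ), Finset.mem_product.mpr ⟨Finset.mem_range.mpr hh, ?_⟩, rfl⟩))
      rw [hI, Finset.mem_union, Finset.mem_range, Finset.mem_Ico]
      exact hμ))
    (fun h' hh' μ hμ => Submodule.subset_span (by
      rw [Finset.mem_coe, hB]
      exact Finset.mem_union_left _ (Finset.mem_union_right _
        (Finset.mem_image.mpr ⟨(h', μ), Finset.mem_product.mpr
          ⟨Finset.mem_range.mpr hh', Finset.mem_range.mpr hμ⟩, rfl⟩))))
  intro a ha m hm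
  rw [vecP_eq p S T a m ε hSp hm]
  refine key _ _ (by omega) le_rfl _ ?_
  refine (natDegree_C_mul_le _ _).trans_lt ?_
  rw [descPochhammer_natDegree]
  exact hm

end MP_a3a416_nt.HK
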