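import Pool.Agent.Lib.MP_a3a416_nt.HK.ProdBad

/-!
# HK-Theta
Logarithmic form, uniform.  PROOF.  As `LJ.theta_j` with explicit hypotheses.  `log EH = log DJ + log A + log S + log T + log 4 + 2 log N + N log 2 + (T+S) log 4`, `LJ.log_DJ_le` with `K = T+S+1 ≤ 20 A S`.
-/

namespace MP_a3a416_nt.HK

open Polynomial MP_a3a416_nt.BB MP_a3a416_nt.LJ MP_a3a416_nt.HJ

private theorem th_log_le {k N : ℕ} (h : k ≤ N) : Real.log k ≤ N := by
  have h1 : Real.log k ≤ k := by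
    rcases Nat.eq_zero_or_pos k with rfl | hk
    · simp
    · have h2 : (0 : ℝ) < k := by exact_mod_cast hk
      have h3 := Real.log_le_sub_one_of_pos h2
      linarith
  have h2 : (k : ℝ) ≤ N := by exact_mod_cast h
  linarith

private theorem TH_le {A S : ℕ} (hA : 1 ≤ A) (hS : 32 ≤ S) : TH A S + S + 1 ≤ 8 * (A * S) := by
  unfold TH
  have h1 : 32 * A ≤ A * S := by nlinarith
  have h2 : S ≤ A * S := by nlinarith
  omega

private theorem th_EH {A S N : ℕ} (hA : 1 ≤ A) (hS : 32 ≤ S) (hN : (A * S + A + 1) * (S + 6) < N) :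
    Real.log (EH A S N (TH A S)) ≤ (8 * (Real.log 4 + 4) + 9) * (N * (1 + Real.log (A * S))) := by
  have hTH := TH_le hA hS
  have hTHpos : 0 < TH A S := by unfold TH; omega
  have hAS1 : 32 * (A * S) ≤ N := by
    have : 32 * (A * S) ≤ (A * S + A + 1) * (S + 6) := by nlinarith [Nat.zero_le (A * S)]
    omega
  have hAle : A ≤ A * S := by nlinarith
  have hSle : S ≤ A * S := by nlinarith
  have hA0 : (0 : ℝ) < A := by exact_mod_cast hA
  have hS0 : (0 : ℝ) < S := by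
    have : 0 < S := by omega
    exact_mod_cast this
  have hN0 : (0 : ℝ) < N := by
    have : 0 < N := by omega
    exact_mod_cast this
  have hT0 : (0 : ℝ) < (TH A S : ℝ) := by exact_mod_cast hTHpos
  have hD0 : (0 : ℝ) < DJ N (TH A S + S + 1) := by exact_mod_cast DJ_pos N (TH A S + S + 1)
  have hAS32 : (32 : ℝ) ≤ (A : ℝ) * S := by
    have : 32 ≤ A * S := by omega
    exact_mod_cast this
  have hlogS : 0 ≤ Real.log ((A : ℝ) * S) := Real.log_nonneg (by linarith)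
  have hlog4 : 0 ≤ Real.log 4 := Real.log_nonneg (by norm_num)
  have e1 : Real.log (EH A S N (TH A S)) = Real.log (DJ N (TH A S + S + 1)) + (Real.log A + (Real.log S +
      Real.log (TH A S) + (Real.log 4 + 2 * Real.log N) + N * Real.log 2 +
      ((TH A S : ℝ) + S) * Real.log 4)) := by
    unfold EH
    push_cast
    have hn1 : (S : ℝ) * (TH A S) ≠ 0 := mul_ne_zero hS0.ne' hT0.ne'
    have hn2 : (4 * (N : ℝ) ^ 2) ≠ 0 := by positivity
    have hn3 : (2 : ℝ) ^ N ≠ 0 := by positivity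
    have hn4 : (4 : ℝ) ^ (TH A S + S) ≠ 0 := by positivity
    rw [Real.log_mul hD0.ne' (mul_ne_zero hA0.ne' (mul_ne_zero (mul_ne_zero (mul_ne_zero hn1 hn2) hn3) hn4)),
      Real.log_mul hA0.ne' (mul_ne_zero (mul_ne_zero (mul_ne_zero hn1 hn2) hn3) hn4),
      Real.log_mul (mul_ne_zero (mul_ne_zero hn1 hn2) hn3) hn4,
      Real.log_mul (mul_ne_zero hn1 hn2) hn3, Real.log_mul hn1 hn2, Real.log_mul hS0.ne' hT0.ne',
      Real.log_mul (by norm_num) (pow_ne_zero _ hN0.ne'), Real.log_pow, Real.log_pow, Real.log_pow]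
    push_cast
    ring
  have e2 := log_DJ_le N (TH A S + S + 1) (by omega)
  have e3 : Real.log ((TH A S + S + 1 : ℕ) : ℝ) ≤ 2 * Real.log ((A : ℝ) * S) := by
    have h1 : ((TH A S + S + 1 : ℕ) : ℝ) ≤ ((A : ℝ) * S) ^ 2 := by
      have h2 : ((TH A S + S + 1 : ℕ) : ℝ) ≤ 8 * ((A : ℝ) * S) := by exact_mod_cast hTH
      nlinarith
    have h2 := Real.log_le_log (by positivity) h1
    rw [Real.log_pow] at h2
    exact_mod_cast h2
  have e4 : Real.log (DJ N (TH A S + S + 1)) ≤ 8 * (Real.log 4 + 4) * (N * (1 + Real.log ((A : ℝ) * S))) := by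
    refine e2.trans ?_
    have h1 : (1 + Real.log ((TH A S + S + 1 : ℕ) : ℝ)) ≤ 2 * (1 + Real.log ((A : ℝ) * S)) := by linarith
    calc 4 * (Real.log 4 + 4) * N * (1 + Real.log ((TH A S + S + 1 : ℕ) : ℝ))
        ≤ 4 * (Real.log 4 + 4) * N * (2 * (1 + Real.log ((A : ℝ) * S))) :=
          mul_le_mul_of_nonneg_left h1 (by positivity)
      _ = _ := by ring
  have f0 : Real.log A ≤ N := th_log_le (by omega)
  have f1 : Real.log S ≤ N := th_log_le (by omega)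
  have f2 : Real.log (TH A S) ≤ N := th_log_le (by omega)
  have f3 : Real.log 4 ≤ 2 := by
    have h1 : Real.log 4 = 2 * Real.log 2 := by
      rw [show (4 : ℝ) = 2 ^ 2 by norm_num, Real.log_pow]
      norm_num
    have h2 := Real.log_two_lt_d9
    rw [h1]
    linarith
  have f4 : Real.log N ≤ N := th_log_le le_rfl
  have f5 : N * Real.log 2 ≤ N := by
    have h2 := Real.log_two_lt_d9
    nlinarith
  have f6 : ((TH A S : ℝ) + S) * Real.log 4 ≤ N := by
    have h1 : (2 : ℝ) * ((TH A S : ℝ) + S) ≤ N := by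
      have : 2 * (TH A S + S) ≤ N := by omega
      exact_mod_cast this
    have h2 : ((TH A S : ℝ) + S) * Real.log 4 ≤ ((TH A S : ℝ) + S) * 2 :=
      mul_le_mul_of_nonneg_left f3 (by positivity)
    linarith
  have f7 : (2 : ℝ) ≤ N := by
    have : 2 ≤ N := by omega
    exact_mod_cast this
  have f8 : (N : ℝ) ≤ N * (1 + Real.log ((A : ℝ) * S)) := by
    have := mul_nonneg hN0.le hlogS
    linarith
  rw [e1]
  have : (8 * (Real.log 4 + 4) + 9) * (N * (1 + Real.log ((A : ℝ) * S))) =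
      8 * (Real.log 4 + 4) * (N * (1 + Real.log ((A : ℝ) * S))) + 9 * (N * (1 + Real.log ((A : ℝ) * S))) := by
    ring
  rw [this]
  linarith

private theorem th_EH_pos {A S N : ℕ} (hA : 0 < A) (hS : 0 < S) (hN : 0 < N) : 0 < EH A S N (TH A S) := by
  unfold EH
  have hT : 0 < TH A S := by unfold TH; omega
  refine Nat.mul_pos (DJ_pos _ _) (Nat.mul_pos hA (Nat.mul_pos (Nat.mul_pos (Nat.mul_pos
    (Nat.mul_pos hS hT) ?_) ?_) ?_))
  · exact Nat.mul_pos (by norm_num) (pow_pos hN 2)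
  · exact pow_pos (by norm_num) _
  · exact pow_pos (by norm_num) _

open Classical in
theorem theta_k : ∃ C : ℝ, 0 < C ∧ ∀ (A S N J r δ V x : ℕ) (v : ℕ → ℕ → ℤ), 1 ≤ A → 32 * (r + 1) ≤ S →
    16 * (r + 1) * δ ≤ A * S → TH A S + S ≤ 2 * J + 3 → (A * S + A + 1) * (S + 6) < N →
    2 * J + 5 ≤ N → 4 * (r + 1) * x ≤ S * N → (∀ l ≤ r, ∀ g ∈ Finset.Icc 1 J, |v l g| ≤ (V : ℤ)) →
    Real.log (1 + V) ≤ 2 * N →
    ∑ p ∈ (Finset.Icc (N + 1) x).filter (fun p : ℕ => p.Prime ∧ ∃ lam : ℕ → ℤ, BadD A S (TH A S) J r δ v lam p), Real.log p ≤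
      C * ((r + 1) * (N * (1 + Real.log (A * S)))) := by
  have hlog4 : 0 ≤ Real.log 4 := Real.log_nonneg (by norm_num)
  refine ⟨4 + 6 * (2 + (8 * (Real.log 4 + 4) + 9)), by positivity, ?_⟩
  intro A S N J r δ V x v hA hS hk hJ hN hNJ hx hv hV
  have hS32 : 32 ≤ S := by omega
  obtain ⟨Ps, hPs⟩ : ∃ Ps : Finset ℕ, Ps = (Finset.Icc (N + 1) x).filter
    (fun p : ℕ => p.Prime ∧ ∃ lam : ℕ → ℤ, BadD A S (TH A S) J r δ v lam p) := ⟨_, rfl⟩
  rw [← hPs]
  have hP : ∀ p ∈ Ps, p.Prime ∧ N < p ∧ p ≤ x ∧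
      BadD A S (TH A S) J r δ v ((fun p => if h : ∃ lam : ℕ → ℤ, BadD A S (TH A S) J r δ v lam p then h.choose else 0) p) p := by
    intro p hp
    rw [hPs, Finset.mem_filter, Finset.mem_Icc] at hp
    refine ⟨hp.2.1, by omega, hp.1.2, ?_⟩
    simp only [dif_pos hp.2.2]
    exact hp.2.2.choose_spec
  have hAle : A ≤ A * S := by nlinarith
  have hSle : S ≤ A * S := by nlinarith
  have hNAS : 32 * (A * S) ≤ N := by
    have : 32 * (A * S) ≤ (A * S + A + 1) * (S + 6) := by nlinarith [Nat.zero_le (A * S)]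
    omega
  have hr0 : (0 : ℝ) ≤ (r : ℝ) + 1 := by positivity
  have hV0 : (0 : ℝ) < 1 + (V : ℝ) := by positivity
  have hmain := prod_bad_k (N := N) (x := x) hA hS hk hJ hN hNJ hx v hv Ps _ hP
  have hsum : ∑ p ∈ Ps, Real.log p = Real.log ((∏ p ∈ Ps, p : ℕ) : ℝ) := by
    push_cast
    rw [Real.log_prod]
    intro p hp
    have := (hP p hp).1.pos
    positivity
  have hprod0 : (0 : ℝ) < ((∏ p ∈ Ps, p : ℕ) : ℝ) := by
    have : 0 < ∏ p ∈ Ps, p := Finset.prod_pos fun p hp => (hP p hp).1.pos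
    exact_mod_cast this
  have hE0 : 0 < EH A S N (TH A S) := th_EH_pos (by omega) (by omega) (by omega)
  have hE0' : (0 : ℝ) < (EH A S N (TH A S) : ℝ) := by exact_mod_cast hE0
  have hmainR : (((∏ p ∈ Ps, p : ℕ) : ℝ)) ^ 3 ≤
      (((r + 1).factorial : ℕ) : ℝ) ^ 4 * ((1 + (V : ℝ)) * (EH A S N (TH A S) : ℝ)) ^ (6 * (r + 1)) := by
    exact_mod_cast hmain
  have hlog := Real.log_le_log (pow_pos hprod0 3) hmainR
  have hfac0 : (0 : ℝ) < (((r + 1).factorial : ℕ) : ℝ) := by exact_mod_cast Nat.factorial_pos _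
  rw [Real.log_mul (pow_ne_zero _ hfac0.ne') (pow_ne_zero _ (mul_ne_zero hV0.ne' hE0'.ne')),
    Real.log_pow, Real.log_pow, Real.log_pow, Real.log_mul hV0.ne' hE0'.ne'] at hlog
  rw [← hsum] at hlog
  have hlogS : 0 ≤ Real.log ((A : ℝ) * S) := Real.log_nonneg (by
    have : 1 ≤ A * S := by omega
    exact_mod_cast this)
  have hN0 : (0 : ℝ) ≤ N := Nat.cast_nonneg _
  have g1 : Real.log (((r + 1).factorial : ℕ) : ℝ) ≤ (r + 1) * N := by
    have h1 : (((r + 1).factorial : ℕ) : ℝ) ≤ (((r + 1 : ℕ) : ℝ)) ^ (r + 1) := by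
      exact_mod_cast Nat.factorial_le_pow (r + 1)
    have h2 := Real.log_le_log hfac0 h1
    rw [Real.log_pow] at h2
    have h3 : Real.log ((r + 1 : ℕ) : ℝ) ≤ N := th_log_le (by omega)
    refine h2.trans ?_
    push_cast at h3 ⊢
    exact mul_le_mul_of_nonneg_left h3 hr0
  have g3 := th_EH (N := N) hA hS32 hN
  have g4 : (N : ℝ) ≤ N * (1 + Real.log ((A : ℝ) * S)) := by
    have := mul_nonneg hN0 hlogS
    linarith
  have hΘ0 : 0 ≤ ∑ p ∈ Ps, Real.log (p : ℝ) := Finset.sum_nonneg fun p hp =>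
    Real.log_nonneg (by exact_mod_cast (hP p hp).1.one_lt.le)
  obtain ⟨W, hW⟩ : ∃ W : ℝ, W = N * (1 + Real.log ((A : ℝ) * S)) := ⟨_, rfl⟩
  rw [← hW] at g3 g4 ⊢
  have k1 : Real.log (((r + 1).factorial : ℕ) : ℝ) ≤ (r + 1) * W :=
    g1.trans (mul_le_mul_of_nonneg_left g4 hr0)
  have k2 : Real.log (1 + (V : ℝ)) + Real.log (EH A S N (TH A S)) ≤
      (2 + (8 * (Real.log 4 + 4) + 9)) * W := by
    have : (2 + (8 * (Real.log 4 + 4) + 9)) * W = 2 * W + (8 * (Real.log 4 + 4) + 9) * W := by ring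
    rw [this]
    linarith
  have k3 : ((6 * (r + 1) : ℕ) : ℝ) * (Real.log (1 + (V : ℝ)) + Real.log (EH A S N (TH A S))) ≤
      ((6 * (r + 1) : ℕ) : ℝ) * ((2 + (8 * (Real.log 4 + 4) + 9)) * W) :=
    mul_le_mul_of_nonneg_left k2 (Nat.cast_nonneg _)
  push_cast at hlog k3
  have k4 : (4 + 6 * (2 + (8 * (Real.log 4 + 4) + 9))) * (((r : ℝ) + 1) * W) =
      4 * ((r + 1) * W) + 6 * (r + 1) * ((2 + (8 * (Real.log 4 + 4) + 9)) * W) := by ring
  rw [k4]
  linarith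

end MP_a3a416_nt.HK
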